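import Pool.Agent.SymExt.Notions
import Pool.Agent.Lib.MP_1929a6_lc.Bridge

/-!
# The schemas for `Fm` give the schemas for Mathlib's definable sets
-/

set_option linter.unusedSectionVars false
set_option linter.unusedVariables false
set_option linter.unusedSimpArgs false

universe u

namespace Pool.Agent.SymExt

open Pool.Agent.ZF FirstOrder FirstOrder.Language

variable {M : Type u} (E : M → M → Prop)

theorem exists_fm {α : Type u} {n : ℕ} (φ : L.BoundedFormula α n) :
    ∃ S : Finset α, ∀ (c : α → ℕ) (k : ℕ), ∃ a : Fm, ∀ (v : α → M) (xs : Fin n → M)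
      (s : ℕ → M), (∀ b ∈ S, s (c b) = v b) → (∀ b ∈ S, c b < k) →
      (∀ i : Fin n, s (k + i) = xs i) →
      (@BoundedFormula.Realize L M (str E) α n φ v xs ↔ (propLg E).eval a s) := by
  classical
  letI := str E
  -- value of a variable
  have hvar : ∀ {n : ℕ} (b : α ⊕ Fin n), ∃ S : Finset α, ∀ (c : α → ℕ) (k : ℕ), ∃ i : ℕ,
      ∀ (v : α → M) (xs : Fin n → M) (s : ℕ → M), (∀ b ∈ S, s (c b) = v b) →
      (∀ i : Fin n, s (k + i) = xs i) → Sum.elim v xs b = s i := by
    intro n b
    rcases b with b | i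
    · exact ⟨{b}, fun c k => ⟨c b, fun v xs s h _ => (h b (Finset.mem_singleton_self _)).symm⟩⟩
    · exact ⟨∅, fun c k => ⟨k + i, fun v xs s _ h => (h i).symm⟩⟩
  induction φ with
  | falsum => exact ⟨∅, fun c k => ⟨.bot, fun v xs s _ _ _ => Iff.rfl⟩⟩
  | equal t₁ t₂ =>
    obtain ⟨b₁, rfl⟩ : ∃ b, t₁ = Term.var b := by
      cases t₁ with
      | var b => exact ⟨b, rfl⟩
      | func f _ => exact Empty.elim f
    obtain ⟨b₂, rfl⟩ : ∃ b, t₂ = Term.var b := by
      cases t₂ with
      | var b => exact ⟨b, rfl⟩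
      | func f _ => exact Empty.elim f
    obtain ⟨S₁, h₁⟩ := hvar b₁
    obtain ⟨S₂, h₂⟩ := hvar b₂
    refine ⟨S₁ ∪ S₂, fun c k => ?_⟩
    obtain ⟨i₁, h₁⟩ := h₁ c k
    obtain ⟨i₂, h₂⟩ := h₂ c k
    refine ⟨.eq i₁ i₂, fun v xs s hs _ hx => ?_⟩
    have e1 := h₁ v xs s (fun b hb => hs b (Finset.mem_union_left _ hb)) hx
    have e2 := h₂ v xs s (fun b hb => hs b (Finset.mem_union_right _ hb)) hx
    change Sum.elim v xs b₁ = Sum.elim v xs b₂ ↔ s i₁ = s i₂
    rw [e1, e2]
  | rel R ts =>
    cases R with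
    | mem =>
      obtain ⟨b₁, hb₁⟩ : ∃ b, ts 0 = Term.var b := by
        cases h : ts 0 with
        | var b => exact ⟨b, rfl⟩
        | func f _ => exact Empty.elim f
      obtain ⟨b₂, hb₂⟩ : ∃ b, ts 1 = Term.var b := by
        cases h : ts 1 with
        | var b => exact ⟨b, rfl⟩
        | func f _ => exact Empty.elim f
      obtain ⟨S₁, h₁⟩ := hvar b₁
      obtain ⟨S₂, h₂⟩ := hvar b₂
      refine ⟨S₁ ∪ S₂, fun c k => ?_⟩
      obtain ⟨i₁, h₁⟩ := h₁ c k
      obtain ⟨i₂, h₂⟩ := h₂ c k
      refine ⟨.mem i₁ i₂, fun v xs s hs _ hx => ?_⟩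
      have e1 := h₁ v xs s (fun b hb => hs b (Finset.mem_union_left _ hb)) hx
      have e2 := h₂ v xs s (fun b hb => hs b (Finset.mem_union_right _ hb)) hx
      change E ((ts 0).realize (Sum.elim v xs)) ((ts 1).realize (Sum.elim v xs)) ↔
        E (s i₁) (s i₂)
      rw [hb₁, hb₂]
      change E (Sum.elim v xs b₁) (Sum.elim v xs b₂) ↔ E (s i₁) (s i₂)
      rw [e1, e2]
  | imp φ ψ ih₁ ih₂ =>
    obtain ⟨S₁, h₁⟩ := ih₁
    obtain ⟨S₂, h₂⟩ := ih₂
    refine ⟨S₁ ∪ S₂, fun c k => ?_⟩
    obtain ⟨a₁, h₁⟩ := h₁ c k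
    obtain ⟨a₂, h₂⟩ := h₂ c k
    refine ⟨.imp a₁ a₂, fun v xs s hs hk hx => ?_⟩
    have e1 := h₁ v xs s (fun b hb => hs b (Finset.mem_union_left _ hb))
      (fun b hb => hk b (Finset.mem_union_left _ hb)) hx
    have e2 := h₂ v xs s (fun b hb => hs b (Finset.mem_union_right _ hb))
      (fun b hb => hk b (Finset.mem_union_right _ hb)) hx
    rw [BoundedFormula.realize_imp, e1, e2]
    exact Iff.rfl
  | all φ ih =>
    rename_i n
    obtain ⟨S, h⟩ := ih
    refine ⟨S, fun c k => ?_⟩
    obtain ⟨a, h⟩ := h c k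
    refine ⟨.all (k + n) a, fun v xs s hs hk hx => ?_⟩
    rw [BoundedFormula.realize_all]
    change _ ↔ ∀ x, (propLg E).eval a (Function.update s (k + n) x)
    refine forall_congr' fun x => h v _ _ (fun b hb => ?_) hk fun i => ?_
    · have := hk b hb
      rw [Function.update_of_ne (by omega)]
      exact hs b hb
    · refine Fin.lastCases ?_ (fun i => ?_) i
      · simp
      · have : k + (i.castSucc : ℕ) ≠ k + n := by
          have := i.2
          simp only [Fin.val_castSucc]
          omega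
        rw [Function.update_of_ne this, Fin.snoc_castSucc]
        simpa using hx i

/-- a definable relation is given by a formula; the arguments are the variables `0, ..., r - 1` -/
theorem exists_fm_of_definable [Nonempty M] {r : ℕ} {D : Set (Fin r → M)}
    (hD : @Set.Definable M Set.univ L (str E) (Fin r) D) :
    ∃ (a : Fm) (s : ℕ → M), ∀ (x : Fin r → M) (t : ℕ → M), (∀ i : Fin r, t i = x i) →
      (∀ i, r ≤ i → t i = s i) → (x ∈ D ↔ (propLg E).eval a t) := by
  classical
  letI := str E
  rw [Set.definable_iff_exists_formula_sum] at hD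
  obtain ⟨φ, rfl⟩ := hD
  obtain ⟨S, hS⟩ := exists_fm E φ
  let e := S.equivFin
  let c : (Set.univ : Set M) ⊕ Fin r → ℕ := fun b => match b with
    | .inl m => if h : Sum.inl m ∈ S then r + e ⟨_, h⟩ else 0
    | .inr i => i
  obtain ⟨a, ha⟩ := hS c (r + S.card)
  let s : ℕ → M := fun i => if h : ∃ m, ∃ h : (Sum.inl m : (Set.univ : Set M) ⊕ Fin r) ∈ S,
    i = r + e ⟨_, h⟩ then (h.choose : M) else Classical.arbitrary M
  refine ⟨a, s, fun x t ht hts => ?_⟩
  have := ha (Sum.elim Subtype.val x) (default : Fin 0 → M) t ?_ ?_ (fun i => i.elim0)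
  · rw [← this]
    exact Iff.rfl
  · rintro (m | i) hb
    · have h1 : c (.inl m) = r + e ⟨_, hb⟩ := dif_pos hb
      rw [h1, hts _ (Nat.le_add_right _ _)]
      have h2 : ∃ m', ∃ h : (Sum.inl m' : (Set.univ : Set M) ⊕ Fin r) ∈ S,
        r + (e ⟨_, hb⟩ : ℕ) = r + e ⟨_, h⟩ := ⟨m, hb, rfl⟩
      have h3 : s (r + e ⟨_, hb⟩) = (h2.choose : M) := dif_pos h2
      obtain ⟨h4, h5⟩ := h2.choose_spec
      have h6 : e ⟨_, hb⟩ = e ⟨_, h4⟩ := Fin.ext (by omega)
      have h7 := e.injective h6
      simp only [Subtype.mk.injEq, Sum.inl.injEq] at h7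
      rw [h3]
      exact congrArg Subtype.val h7.symm
    · exact ht i
  · rintro (m | i) hb
    · have h1 : c (.inl m) = r + e ⟨_, hb⟩ := dif_pos hb
      rw [h1]
      have := (e ⟨_, hb⟩).2
      omega
    · have h1 : c (.inr i) = i := rfl
      rw [h1]
      have := i.2
      omega

theorem IsZFm.isZF {E : M → M → Prop} (h : IsZFm E) : IsZF E := by
  have := h.nonempty
  refine ⟨h.nonempty, h.extensionality, h.foundation, h.pairing, h.union, h.power, h.infinity,
    ?_, ?_⟩
  · intro D hD x
    obtain ⟨a, s, ha⟩ := exists_fm_of_definable E hD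
    obtain ⟨y, hy⟩ := h.separation a s 0 x
    refine ⟨y, fun z => (hy z).trans (and_congr_right fun _ => ?_)⟩
    rw [← ha (fun _ => z) (Function.update s 0 z)]
    · rfl
    · intro i
      have : i = 0 := Subsingleton.elim _ _
      subst this
      simp
    · intro i hi
      rw [Function.update_of_ne (by omega)]
  · intro R hR x hx
    obtain ⟨a, s, ha⟩ := exists_fm_of_definable E hR
    have key : ∀ z y (t : ℕ → M), t 0 = z → t 1 = y → (∀ i, 2 ≤ i → i < a.bd → t i = s i) →
        ((z, y) ∈ R ↔ (propLg E).eval a t) := by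
      intro z y t h0 h1 h2
      rw [(propLg E).eval_congr a t (fun i => if i = 0 then z else if i = 1 then y else s i)]
      · have := ha ![z, y] (fun i => if i = 0 then z else if i = 1 then y else s i) (fun i => by
          fin_cases i <;> simp) (fun i hi => by
          rw [if_neg (by omega), if_neg (by omega)])
        rw [← this]
        simp
      · intro i hi
        by_cases hi0 : i = 0
        · subst hi0; simpa using h0
        · by_cases hi1 : i = 1
          · subst hi1; simpa using h1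
          · rw [if_neg hi0, if_neg hi1]
            exact h2 i (by omega) hi
    obtain ⟨B, hB⟩ := h.collection a s 0 1 x fun z hz => by
      obtain ⟨y, hy, _⟩ := hx z hz
      refine ⟨y, (key z y _ ?_ ?_ ?_).1 hy⟩
      · simp
      · simp
      · intro i hi _
        rw [Function.update_of_ne (by omega), Function.update_of_ne (by omega)]
    obtain ⟨N, hN⟩ : ∃ N, N = a.bd + 2 := ⟨_, rfl⟩
    obtain ⟨b, hb⟩ := h.separation (.ex 0 (.and (.mem 0 N) a)) (Function.update s N x) 1 B
    refine ⟨b, fun y => (hb y).trans ?_⟩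
    rw [Lg.eval_ex, prop_ex]
    have h1 : ∀ z, (propLg E).eval (.and (.mem 0 N) a)
        (Function.update (Function.update (Function.update s N x) 1 y) 0 z) ↔
        E z x ∧ (z, y) ∈ R := by
      intro z
      rw [Lg.eval_and, prop_and]
      refine and_congr ?_ ?_
      · have h2 : N ≠ 0 := by omega
        have h3 : N ≠ 1 := by omega
        simp [Lg.eval, Function.update_apply, h2, h3]
      · rw [key z y]
        · simp
        · simp
        · intro i hi hi'
          rw [Function.update_of_ne (by omega), Function.update_of_ne (by omega),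
            Function.update_of_ne (by omega)]
    constructor
    · rintro ⟨_, z, hz⟩
      exact ⟨z, (h1 z).1 hz⟩
    · rintro ⟨z, hz, hzy⟩
      refine ⟨?_, z, (h1 z).2 ⟨hz, hzy⟩⟩
      obtain ⟨y', hy', hR'⟩ := hB z hz
      rw [← key z y'] at hR'
      · obtain ⟨y'', _, hu⟩ := hx z hz
        rw [hu y hzy, ← hu y' hR']
        exact hy'
      · simp
      · simp
      · intro i hi _
        rw [Function.update_of_ne (by omega), Function.update_of_ne (by omega)]

end Pool.Agent.SymExt
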