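import Pool.Agent.SymExt.CohenAtoms
import Pool.Agent.SymExt.ToZF
import Pool.Agent.Lib.MP_fe2f0d_lc.Separating
import Pool.Agent.Lib.MP_fe2f0d_lc.Statement

/-!
# `|Part_fin(A)| < |𝓑(A)|` in a model of `ZF`
-/

set_option linter.unusedSectionVars false
set_option linter.unusedVariables false
set_option linter.unusedSimpArgs false

universe u

namespace Pool.Agent.SymExt

open Pool.Agent.ZF Pool.Agent.Lib.MP_1929a6_lc Pool.Agent.Lib.MP_fe2f0d_lc

section conv

variable {M : Type u} (E : M → M → Prop)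

theorem part_prop (x A : M) : (propLg E).part x A ↔ IsPartition E A x := by
  simp only [Lg.part, Lg.sub, Lg.meet, prop_all, prop_imp, prop_and, prop_ex, prop_mem, prop_eq]
  constructor
  · rintro ⟨h1, h2, h3⟩
    refine ⟨h1, fun a ha => ?_⟩
    obtain ⟨b, hb, hab⟩ := h3 a ha
    exact ⟨b, ⟨hb, hab⟩, fun c hc => h2 c b ⟨hc.1, hb⟩ ⟨a, hc.2, hab⟩⟩
  · rintro ⟨h1, h2⟩
    refine ⟨h1, fun b c hbc hm => ?_, fun a ha => ?_⟩
    · obtain ⟨z, hz, hz'⟩ := hm
      exact (h2 z ((h1 b hbc.1).2 z hz)).unique ⟨hbc.1, hz⟩ ⟨hbc.2, hz'⟩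
    · obtain ⟨b, hb, _⟩ := h2 a ha
      exact ⟨b, hb⟩

theorem isOP_prop (hE : IsZF E) (z x y : M) : (propLg E).isOP z x y ↔ IsPair E z x y := by
  simp only [Lg.isOP, Lg.isPair, prop_all, prop_and, prop_ex, prop_iff, prop_or, prop_mem,
    prop_eq]
  unfold IsPair
  constructor
  · rintro ⟨u, v, hu, hv, hz⟩ t
    rw [hz]
    refine or_congr ⟨?_, fun h => hE.extensionality _ _ fun w => ?_⟩
      ⟨?_, fun h => hE.extensionality _ _ fun w => ?_⟩
    · rintro rfl w
      rw [hu]; tauto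
    · rw [h, hu]; tauto
    · rintro rfl w
      exact hv w
    · rw [h, hv]
  · intro h
    obtain ⟨u, hu⟩ := hE.pairing x x
    obtain ⟨v, hv⟩ := hE.pairing x y
    refine ⟨u, v, hu, hv, fun t => ?_⟩
    rw [h]
    refine or_congr ⟨fun h => hE.extensionality _ _ fun w => ?_, ?_⟩
      ⟨fun h => hE.extensionality _ _ fun w => ?_, ?_⟩
    · rw [h, hu]; tauto
    · rintro rfl w
      rw [hu]; tauto
    · rw [h, hv]
    · rintro rfl w
      exact hv w

theorem app_prop (hE : IsZF E) (f x y : M) : (propLg E).app f x y ↔ Maps E f x y := by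
  simp only [Lg.app, prop_and, prop_ex, prop_mem, isOP_prop E hE]
  unfold Maps
  exact exists_congr fun p => and_comm

theorem inj_prop (hE : IsZF E) (f S T : M) : (propLg E).inj f S T ↔ IsInjection E f S T := by
  simp only [Lg.inj, prop_all, prop_imp, prop_and, prop_ex, prop_iff, prop_mem, prop_eq,
    isOP_prop E hE, app_prop E hE]
  unfold IsInjection IsFunction
  constructor
  · rintro ⟨h1, h2, h3⟩
    refine ⟨⟨h1, fun x hx => ?_⟩, fun x x' y h h' => ?_⟩
    · obtain ⟨y, hy⟩ := h2 x hx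
      exact ⟨y, hy, fun y' hy' => (h3 x x y' y ⟨hy', hy⟩).1 rfl⟩
    · exact (h3 x x' y y ⟨h, h'⟩).2 rfl
  · rintro ⟨⟨h1, h2⟩, h3⟩
    refine ⟨h1, fun x hx => (h2 x hx).exists, fun x x' y y' h => ⟨?_, ?_⟩⟩
    · rintro rfl
      obtain ⟨p, hp, hpf⟩ := h.1
      obtain ⟨x', y'', hx', _, hp'⟩ := h1 p hpf
      have h4 := (isOP_prop E hE _ _ _).2 hp
      have h5 := (isOP_prop E hE _ _ _).2 hp'
      have hx : E x S := by
        have : x = x' := by
          simp only [Lg.isOP, Lg.isPair, prop_all, prop_and, prop_ex, prop_iff, prop_or, prop_mem,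
            prop_eq] at h4 h5
          obtain ⟨u, v, hu, hv, hz⟩ := h4
          obtain ⟨u', v', hu', hv', hz'⟩ := h5
          have h6 : ∀ t, (t = u ∨ t = v) ↔ (t = u' ∨ t = v') := fun t =>
            (hz t).symm.trans (hz' t)
          rcases (h6 u).1 (Or.inl rfl) with h | h
          · have := (hu x).2 (Or.inl rfl)
            rw [h, hu'] at this
            tauto
          · have := (hv' x').2 (Or.inl rfl)
            rw [← h, hu] at this
            tauto
        rw [this]; exact hx'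
      exact (h2 x hx).unique h.1 h.2
    · rintro rfl
      exact h3 x x' y h.1 h.2

theorem fin_prop (hE : IsZF E) (x : M) : (propLg E).fin x ↔ IsFinite E x := by
  let m : Model M := ⟨E, hE⟩
  have h0 : IsFinite E x ↔ KFin x := isFinite_iff (M := M)
  rw [h0]
  simp only [Lg.fin, Lg.empty, Lg.adj, prop_all, prop_imp, prop_and, prop_neg, prop_iff, prop_or,
    prop_mem, prop_eq]
  unfold KFin
  refine forall_congr' fun X => ?_
  have h1 : (∀ e, (∀ w, ¬ E w e) → E e X) ↔ (∅ : M) ∈ X := by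
    constructor
    · intro h
      exact h (∅ : M) fun w hw => notMem_empty (M := M) w hw
    · intro h e he
      have : e = (∅ : M) := eq_empty_iff.2 he
      rw [this]; exact h
  have h2 : (∀ z w z', E z X ∧ E w x ∧ (∀ t, E t z' ↔ E t z ∨ t = w) → E z' X) ↔
      ∀ y : M, y ∈ X → ∀ a : M, a ∈ x → (insert a y : M) ∈ X := by
    constructor
    · intro h y hy a ha
      refine h y a (insert a y : M) ⟨hy, ha, fun t => ?_⟩
      change t ∈ (insert a y : M) ↔ t ∈ y ∨ t = a
      rw [mem_ins]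
      exact or_comm
    · rintro h z w z' ⟨hz, hw, ht⟩
      have : z' = (insert w z : M) := by
        refine ext' fun t => (ht t).trans ?_
        rw [mem_ins]
        exact or_comm
      rw [this]
      exact h z hz w hw
  rw [h1, h2]
  constructor
  · intro h h3 h4
    exact h ⟨h3, h4⟩
  · rintro h ⟨h3, h4⟩
    exact h h3 h4

end conv

/-- the main theorem -/
theorem exists_ZF_model : ∃ (M : Type) (E : M → M → Prop), IsZF E ∧ ∃ A S T : M,
    ¬ IsFinite E A ∧ IsPartFin E A S ∧ IsFinitary E A T ∧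
    (∃ f, IsInjection E f S T) ∧ ¬ ∃ f, IsBijection E f S T := by
  obtain ⟨M, E, t, hE, _, h⟩ := exists_model (P := Cond (GG.Co ℕ)) (GG.filt MM)
    (fun _ => Classical.arbitrary _) ⊤
  have hZ := hE.isZF
  refine ⟨M, E, hZ, ?_⟩
  have h1 := h .main (fun s => by
    rw [eval_main]
    exact (atomSys MM).forced_main code (fun Q hQ => code_mem hQ) (fun Q R h => code_inj h)
      (fun g Q => code_act g Q) exists_separating ⊤) t
  rw [eval_main] at h1
  simp only [Lg.main, Lg.isPF, Lg.isB, Lg.finEl, prop_ex, prop_and, prop_neg, prop_all, prop_iff,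
    prop_imp, prop_mem, part_prop, fin_prop E hZ, inj_prop E hZ, Lg.onto, app_prop E hZ] at h1
  obtain ⟨A, S, T, h2, h3, h4, h5, h6⟩ := h1
  refine ⟨A, S, T, h2, h3, h4, h5, ?_⟩
  rintro ⟨f, hf⟩
  exact h6 ⟨f, hf.1, hf.2⟩

end Pool.Agent.SymExt
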