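import Mathlib

/-!
# Truth values, formulas and their evaluation

`RO P`: regular (monotone and dense-stable) predicates on a poset of conditions `P`.
`Fm`: formulas of set theory with variables numbered by `ℕ`.
`Lg Ω V`: the operations needed to evaluate a formula.
-/

universe u v w

namespace Pool.Agent.SymExt

/-- the operations of first-order logic: truth values `Ω`, objects `V` -/
structure Lg (Ω : Type u) (V : Type v) where
  mem : V → V → Ω
  eq : V → V → Ω
  bot : Ω
  imp : Ω → Ω → Ω
  all : (V → Ω) → Ω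

/-- formulas of set theory; the variables are `x_0, x_1, ...` -/
inductive Fm : Type
  | mem (i j : ℕ)
  | eq (i j : ℕ)
  | bot
  | imp (a b : Fm)
  | all (i : ℕ) (a : Fm)
  deriving Encodable

namespace Lg

variable {Ω : Type u} {V : Type v} (l : Lg Ω V)

/-- negation -/
def neg (a : Ω) : Ω := l.imp a l.bot

/-- conjunction -/
def and (a b : Ω) : Ω := l.neg (l.imp a (l.neg b))

/-- disjunction -/
def or (a b : Ω) : Ω := l.imp (l.neg a) b

/-- equivalence -/
def iff (a b : Ω) : Ω := l.and (l.imp a b) (l.imp b a)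

/-- existential quantifier -/
def ex (f : V → Ω) : Ω := l.neg (l.all fun x => l.neg (f x))

/-- the value of a formula -/
def eval : Fm → (ℕ → V) → Ω
  | .mem i j, s => l.mem (s i) (s j)
  | .eq i j, s => l.eq (s i) (s j)
  | .bot, _ => l.bot
  | .imp a b, s => l.imp (eval a s) (eval b s)
  | .all i a, s => l.all fun x => eval a (Function.update s i x)

end Lg

namespace Fm

/-- negation -/
def neg (a : Fm) : Fm := .imp a .bot

/-- conjunction -/
def and (a b : Fm) : Fm := neg (.imp a (neg b))

/-- disjunction -/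
def or (a b : Fm) : Fm := .imp (neg a) b

/-- equivalence -/
def iff (a b : Fm) : Fm := and (.imp a b) (.imp b a)

/-- existential quantifier -/
def ex (i : ℕ) (a : Fm) : Fm := neg (.all i (neg a))

/-- all variables of `a` are `< bd a` -/
def bd : Fm → ℕ
  | .mem i j => max i j + 1
  | .eq i j => max i j + 1
  | .bot => 0
  | .imp a b => max (bd a) (bd b)
  | .all i a => max (i + 1) (bd a)

end Fm

namespace Lg

variable {Ω : Type u} {V : Type v} (l : Lg Ω V)

theorem eval_neg (a : Fm) (s : ℕ → V) : l.eval (.neg a) s = l.neg (l.eval a s) := rfl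

theorem eval_and (a b : Fm) (s : ℕ → V) :
    l.eval (.and a b) s = l.and (l.eval a s) (l.eval b s) := rfl

theorem eval_or (a b : Fm) (s : ℕ → V) :
    l.eval (.or a b) s = l.or (l.eval a s) (l.eval b s) := rfl

theorem eval_iff (a b : Fm) (s : ℕ → V) :
    l.eval (.iff a b) s = l.iff (l.eval a s) (l.eval b s) := rfl

theorem eval_ex (i : ℕ) (a : Fm) (s : ℕ → V) :
    l.eval (.ex i a) s = l.ex fun x => l.eval a (Function.update s i x) := rfl

theorem eval_congr (a : Fm) (s t : ℕ → V) (h : ∀ i < a.bd, s i = t i) :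
    l.eval a s = l.eval a t := by
  induction a generalizing s t with
  | mem i j =>
    simp only [Fm.bd] at h
    simp only [eval, h i (by omega), h j (by omega)]
  | eq i j =>
    simp only [Fm.bd] at h
    simp only [eval, h i (by omega), h j (by omega)]
  | bot => rfl
  | imp a b iha ihb =>
    simp only [Fm.bd] at h
    simp only [eval, iha s t fun i hi => h i (by omega), ihb s t fun i hi => h i (by omega)]
  | all i a ih =>
    simp only [Fm.bd] at h
    simp only [eval]
    congr 1
    funext x
    refine ih _ _ fun j hj => ?_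
    by_cases hji : j = i
    · subst hji; simp
    · simp [Function.update_of_ne hji, h j (by omega)]

end Lg

/-- first-order logic with two truth values -/
def propLg {V : Type v} (E : V → V → Prop) : Lg Prop V where
  mem := E
  eq := fun x y => x = y
  bot := False
  imp := fun a b => a → b
  all := fun f => ∀ x, f x

section prop
variable {V : Type v} (E : V → V → Prop)

@[simp] theorem prop_mem (x y : V) : (propLg E).mem x y = E x y := rfl
@[simp] theorem prop_eq (x y : V) : (propLg E).eq x y = (x = y) := rfl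
@[simp] theorem prop_bot : (propLg E).bot = False := rfl
@[simp] theorem prop_imp (a b : Prop) : (propLg E).imp a b = (a → b) := rfl
@[simp] theorem prop_all (f : V → Prop) : (propLg E).all f = ∀ x, f x := rfl
@[simp] theorem prop_neg (a : Prop) : (propLg E).neg a = ¬ a := rfl
@[simp] theorem prop_and (a b : Prop) : (propLg E).and a b = (a ∧ b) := by
  simp [Lg.and]
@[simp] theorem prop_or (a b : Prop) : (propLg E).or a b = (a ∨ b) := by
  simp only [Lg.or, prop_neg, prop_imp, eq_iff_iff]; tauto
@[simp] theorem prop_iff (a b : Prop) : (propLg E).iff a b = (a ↔ b) := by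
  simp only [Lg.iff, prop_and, prop_imp, eq_iff_iff]; tauto
@[simp] theorem prop_ex (f : V → Prop) : (propLg E).ex f = ∃ x, f x := by
  simp [Lg.ex]

end prop

/-- regular predicates on the set of conditions -/
@[ext]
structure RO (P : Type u) [Preorder P] where
  ok : P → Prop
  mono : ∀ {p q}, q ≤ p → ok p → ok q
  dense : ∀ {p}, (∀ q ≤ p, ∃ r ≤ q, ok r) → ok p

namespace RO

variable {P : Type u} [Preorder P]

instance : CoeFun (RO P) fun _ => P → Prop := ⟨RO.ok⟩

/-- falsity -/
def bot : RO P := ⟨fun _ => False, fun _ h => h, fun {p} h => by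
  obtain ⟨r, _, h⟩ := h p le_rfl; exact h⟩

/-- implication -/
def imp (a b : RO P) : RO P := ⟨fun p => ∀ q ≤ p, a q → b q,
  fun hqp h r hr => h r (hr.trans hqp),
  fun {p} h q hq ha => b.dense fun r hr => by
    obtain ⟨s, hs, h⟩ := h r (hr.trans hq)
    exact ⟨s, hs, h s le_rfl (a.mono (hs.trans hr) ha)⟩⟩

/-- universal quantifier -/
def all {V : Type v} (f : V → RO P) : RO P := ⟨fun p => ∀ x, f x p,
  fun hqp h x => (f x).mono hqp (h x),
  fun {p} h x => (f x).dense fun q hq => by
    obtain ⟨r, hr, h⟩ := h q hq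
    exact ⟨r, hr, h x⟩⟩

end RO

/-- forcing semantics -/
def roLg {P : Type u} [Preorder P] {V : Type v} (m e : V → V → RO P) : Lg (RO P) V where
  mem := m
  eq := e
  bot := RO.bot
  imp := RO.imp
  all := RO.all

section ro
variable {P : Type u} [Preorder P] {V : Type v} (m e : V → V → RO P) {p : P}

@[simp] theorem ro_mem (x y : V) : (roLg m e).mem x y = m x y := rfl
@[simp] theorem ro_eq (x y : V) : (roLg m e).eq x y = e x y := rfl
@[simp] theorem ro_bot : (roLg m e).bot p ↔ False := Iff.rfl
@[simp] theorem ro_imp (a b : RO P) : (roLg m e).imp a b p ↔ ∀ q ≤ p, a q → b q := Iff.rfl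
@[simp] theorem ro_all (f : V → RO P) : (roLg m e).all f p ↔ ∀ x, f x p := Iff.rfl
@[simp] theorem ro_neg (a : RO P) : (roLg m e).neg a p ↔ ∀ q ≤ p, ¬ a q := Iff.rfl
@[simp] theorem ro_and (a b : RO P) : (roLg m e).and a b p ↔ a p ∧ b p := by
  constructor
  · intro h
    simp only [Lg.and, ro_neg, ro_imp] at h
    constructor
    · refine a.dense fun q hq => ?_
      have := h q hq
      push Not at this
      obtain ⟨r, hr, ha, _⟩ := this
      exact ⟨r, hr, ha⟩
    · refine b.dense fun q hq => ?_
      have := h q hq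
      push Not at this
      obtain ⟨r, hr, ha, s, hs, hb⟩ := this
      exact ⟨s, hs.trans hr, hb⟩
  · rintro ⟨ha, hb⟩
    simp only [Lg.and, ro_neg, ro_imp]
    intro q hq h
    exact h q le_rfl (a.mono hq ha) q le_rfl (b.mono hq hb)

@[simp] theorem ro_or (a b : RO P) :
    (roLg m e).or a b p ↔ ∀ q ≤ p, ∃ r ≤ q, a r ∨ b r := by
  simp only [Lg.or, ro_neg, ro_imp]
  constructor
  · intro h q hq
    by_cases ha : ∃ r ≤ q, a r
    · obtain ⟨r, hr, ha⟩ := ha
      exact ⟨r, hr, Or.inl ha⟩
    · push Not at ha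
      exact ⟨q, le_rfl, Or.inr (h q hq ha)⟩
  · intro h q hq hna
    refine b.dense fun r hr => ?_
    obtain ⟨s, hs, h | h⟩ := h r (hr.trans hq)
    · exact absurd h (hna s (hs.trans hr))
    · exact ⟨s, hs, h⟩

@[simp] theorem ro_iff (a b : RO P) : (roLg m e).iff a b p ↔ ∀ q ≤ p, (a q ↔ b q) := by
  simp only [Lg.iff, ro_and, ro_imp]
  constructor
  · rintro ⟨h1, h2⟩ q hq
    exact ⟨h1 q hq, h2 q hq⟩
  · intro h
    exact ⟨fun q hq => (h q hq).1, fun q hq => (h q hq).2⟩

@[simp] theorem ro_ex (f : V → RO P) :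
    (roLg m e).ex f p ↔ ∀ q ≤ p, ∃ r ≤ q, ∃ x, f x r := by
  simp only [Lg.ex, ro_neg, ro_all]
  constructor
  · intro h q hq
    have := h q hq
    push Not at this
    obtain ⟨x, r, hr, h⟩ := this
    exact ⟨r, hr, x, h⟩
  · intro h q hq hn
    obtain ⟨r, hr, x, hx⟩ := h q hq
    exact hn x r hr hx

end ro

end Pool.Agent.SymExt
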