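import Pool.Agent.SymExt.Flat
import Pool.Agent.Lib.MP_fe2f0d_lc.Proof

/-!
# Transfer from a permutation model to a symmetric extension
-/

set_option linter.unusedSectionVars false
set_option linter.unusedVariables false
set_option linter.unusedSimpArgs false

namespace Pool.Agent.SymExt

open Name SN Pool.Agent.Lib.MP_fe2f0d_lc

variable {P : Type} [PartialOrder P] [OrderTop P] {G : Type} [Group G] [MulAction G P]
  [OrdAct G P] {F : NFilter G}

/-- names for the points of `A = D ∪ ω` of a permutation model -/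
structure AtomSys {D : Type} (P : Type) [PartialOrder P] [OrderTop P] {G : Type} [Group G]
    [MulAction G P] [OrdAct G P] (F : NFilter G) (M : FMData D) where
  closed : ∀ p : ℕ → P, Antitone p → ∃ r, ∀ n, r ≤ p n
  pr : G →* M.G
  pull : ∀ H ∈ M.F, F.mem (H.comap pr)
  pt : D ⊕ ℕ → SN P F
  act_pt : ∀ g a p, e (g • pt a) (pt (act (pr g : Equiv.Perm D) a)) p
  inj : ∀ a b p, e (pt a) (pt b) p → a = b
  hom : ∀ x : SN P F, ∃ H ∈ M.F, ∀ k ∈ H, ∀ q : P, ∃ g, pr g = k ∧ (∀ p, e (g • x) x p) ∧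
    ∃ r, r ≤ q ∧ r ≤ g • q

theorem exists_decide (closed : ∀ p : ℕ → P, Antitone p → ∃ r, ∀ n, r ≤ p n) {J : Type}
    [Countable J] (a : J → RO P) (p : P) : ∃ q ≤ p, ∀ j, a j q ∨ ∀ r ≤ q, ¬ a j r := by
  cases isEmpty_or_nonempty J with
  | inl h => exact ⟨p, le_rfl, fun j => h.elim j⟩
  | inr h =>
    obtain ⟨f, hf⟩ := exists_surjective_nat J
    have hd : ∀ n q, ∃ r ≤ q, a (f n) r ∨ ∀ s ≤ r, ¬ a (f n) s := by
      intro n q
      by_cases h : ∃ r ≤ q, a (f n) r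
      · obtain ⟨r, hr, h⟩ := h
        exact ⟨r, hr, Or.inl h⟩
      · push Not at h
        exact ⟨q, le_rfl, Or.inr h⟩
    choose nx hnx1 hnx2 using hd
    let g : ℕ → P := fun n => Nat.rec p (fun n q => nx n q) n
    have ganti : Antitone g := antitone_nat_of_succ_le fun n => hnx1 n (g n)
    obtain ⟨r, hr⟩ := closed g ganti
    refine ⟨r, hr 0, fun j => ?_⟩
    obtain ⟨n, rfl⟩ := hf j
    rcases hnx2 n (g n) with h | h
    · exact Or.inl (RO.mono _ (hr (n + 1)) h)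
    · exact Or.inr fun s hs => h s (hs.trans (hr (n + 1)))

theorem part_iff (x A : SN P F) (p : P) : lg.part x A p ↔
    (∀ b : SN P F, ∀ q ≤ p, m b x q → (∀ r ≤ q, ∃ s ≤ r, ∃ z : SN P F, m z b s) ∧
      ∀ z : SN P F, ∀ r ≤ q, m z b r → m z A r) ∧
    (∀ b c : SN P F, ∀ q ≤ p, m b x q → m c x q →
      (∀ s ≤ q, ∃ t ≤ s, ∃ z : SN P F, m z b t ∧ m z c t) → e b c q) ∧
    (∀ a : SN P F, ∀ q ≤ p, m a A q → ∀ r ≤ q, ∃ s ≤ r, ∃ b : SN P F, m b x s ∧ m a b s) := by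
  simp only [Lg.part, Lg.meet, Lg.sub, ro_all, ro_imp, ro_and, ro_ex, ro_mem, ro_eq, and_imp]
  refine and_congr Iff.rfl (and_congr ?_ Iff.rfl)
  constructor
  · intro h b c q hq hb hc hm
    exact h b c q hq hb hc q le_rfl hm
  · intro h b c q hq hb hc r hr hm
    exact h b c r (hr.trans hq) (RO.mono _ hr hb) (RO.mono _ hr hc) hm

theorem part_congr {x x' A : SN P F} {p : P} (h : e x x' p) :
    lg.part x A p ↔ lg.part x' A p := by
  have h1 := eval_part (lg : Lg (RO P) (SN P F)) (x := 0) (A := 1) (n := 2)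
    (by omega) (by omega)
  have h2 := adm.eval_congr (.part 0 1 2) (fun i => if i = 0 then x else A)
    (fun i => if i = 0 then x' else A) p (fun i => by
      by_cases hi : i = 0
      · simpa [hi] using h
      · simpa [hi] using e_refl _ _)
  rw [h1, h1] at h2
  simpa using h2

theorem fin_congr {x x' : SN P F} {p : P} (h : e x x' p) :
    lg.fin x p ↔ lg.fin x' p := by
  have h1 := eval_fin (lg : Lg (RO P) (SN P F)) (x := 0) (n := 2) (by omega)
  have h2 := adm.eval_congr (.fin 0 2) (fun i => x) (fun i => x') p (fun i => h)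
  rwa [h1, h1] at h2

theorem finEl_congr {x x' : SN P F} {p : P} (h : e x x' p) :
    lg.finEl x p ↔ lg.finEl x' p := by
  have h1 := eval_finEl (lg : Lg (RO P) (SN P F)) (x := 0) (n := 2) (by omega)
  have h2 := adm.eval_congr (.finEl 0 2) (fun i => x) (fun i => x') p (fun i => h)
  rwa [h1, h1] at h2

/-- symmetric subsets of `A` -/
def SymSet {D : Type} (M : FMData D) (X : Set (D ⊕ ℕ)) : Prop :=
  ∃ H ∈ M.F, ∀ g ∈ H, act (g : Equiv.Perm D) '' X = X

theorem symSet_univ {D : Type} (M : FMData D) : SymSet M Set.univ := by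
  refine ⟨⊤, M.top_mem, fun g _ => ?_⟩
  rw [Set.image_univ]
  refine Set.range_eq_univ.2 fun a => ⟨act (g : Equiv.Perm D)⁻¹ a, ?_⟩
  rw [← act_mul]
  simp [act_one]

theorem block_act {D : Type} (g : Equiv.Perm D) (Q : Setoid (D ⊕ ℕ)) (a : D ⊕ ℕ) :
    act g '' {b | Q a b} = {b | actP g Q (act g a) b} := by
  ext b
  constructor
  · rintro ⟨c, hc, rfl⟩
    exact (actP_act g Q a c).2 hc
  · intro hb
    refine ⟨act g⁻¹ b, ?_, ?_⟩
    · have : b = act g (act g⁻¹ b) := by rw [← act_mul]; simp [act_one]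
      rw [Set.mem_setOf_eq, this, actP_act] at hb
      exact hb
    · rw [← act_mul]; simp [act_one]

namespace AtomSys

variable {D : Type} {M : FMData D} (S : AtomSys P F M)

/-- the name of a subset of `A` -/
def sb (X : Set (D ⊕ ℕ)) (hX : SymSet M X) : SN P F := fl (fun a : X => S.pt a) (by
  obtain ⟨H, hH, h⟩ := hX
  refine ⟨_, S.pull H hH, fun g hg a => ⟨⟨act (S.pr g : Equiv.Perm D) a, ?_⟩,
    fun p => S.act_pt g a p⟩⟩
  have h2 := Set.mem_image_of_mem (act (S.pr g : Equiv.Perm D)) a.2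
  rwa [h (S.pr g) hg] at h2)

variable {X Y : Set (D ⊕ ℕ)} {hX : SymSet M X} {hY : SymSet M Y} {z : SN P F} {p : P}

theorem m_sb : m z (S.sb X hX) p ↔ ∀ q ≤ p, ∃ r ≤ q, ∃ a ∈ X, e z (S.pt a) r := by
  rw [sb, m_fl]
  simp

theorem m_pt_sb {a : D ⊕ ℕ} : m (S.pt a) (S.sb X hX) p ↔ a ∈ X := by
  rw [m_sb]
  constructor
  · intro h
    obtain ⟨r, _, b, hb, he⟩ := h p le_rfl
    rwa [S.inj _ _ _ he]
  · intro h q _
    exact ⟨q, le_rfl, a, h, e_refl _ _⟩

theorem e_sb : e (S.sb X hX) (S.sb Y hY) p ↔ X = Y := by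
  constructor
  · intro h
    ext a
    rw [← S.m_pt_sb (hX := hX) (p := p), ← S.m_pt_sb (hX := hY) (p := p)]
    exact ⟨m_right h, m_right (e_symm h)⟩
  · rintro rfl
    exact e_refl _ _

theorem smul_sb (g : G) (h' : SymSet M (act (S.pr g : Equiv.Perm D) '' X)) :
    e (g • S.sb X hX) (S.sb _ h') p := by
  refine e_smul_fl g (fun a => ⟨⟨_, Set.mem_image_of_mem _ a.2⟩, fun p => S.act_pt g a p⟩) ?_
  rintro ⟨_, b, hb, rfl⟩
  exact ⟨⟨b, hb⟩, fun p => S.act_pt g b p⟩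

/-- the name of `A` -/
def AA : SN P F := S.sb Set.univ (symSet_univ M)

theorem e_sb_of (hz : ∀ w : SN P F, ∀ q ≤ p, m w z q → m w S.AA q)
    (h1 : ∀ a ∈ X, m (S.pt a) z p) (h2 : ∀ a ∉ X, ∀ q ≤ p, ¬ m (S.pt a) z q) :
    e z (S.sb X hX) p := by
  refine e_ext fun q hq w => ?_
  constructor
  · intro hw
    rw [m_sb]
    intro r hr
    obtain ⟨s, hs, a, _, ha⟩ := S.m_sb.1 (hz w q hq hw) r hr
    refine ⟨s, hs, a, ?_, ha⟩
    by_contra hX
    exact h2 a hX s (hs.trans (hr.trans hq)) (m_left ha (RO.mono _ (hs.trans hr) hw))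
  · intro hw
    rw [m_sb] at hw
    refine RO.dense _ fun r hr => ?_
    obtain ⟨s, hs, a, ha, he⟩ := hw r hr
    exact ⟨s, hs, m_left (e_symm he) (RO.mono _ (hs.trans (hr.trans hq)) (h1 a ha))⟩

/-- the name of a partition of `A` -/
def ptn (Q : Setoid (D ⊕ ℕ)) (hQ : InModel M Q) : SN P F :=
  fl (fun a : D ⊕ ℕ => S.sb {b | Q a b} (hQ.2 a)) (by
    obtain ⟨H, hH, h⟩ := hQ.1
    refine ⟨_, S.pull H hH, fun g hg a => ⟨act (S.pr g : Equiv.Perm D) a, fun p => ?_⟩⟩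
    have h1 : act (S.pr g : Equiv.Perm D) '' {b | Q a b} =
        {b | Q (act (S.pr g : Equiv.Perm D) a) b} := by
      rw [block_act, h _ hg]
    have h2 : SymSet M (act (S.pr g : Equiv.Perm D) '' {b | Q a b}) := by
      rw [h1]; exact hQ.2 _
    exact e_trans (S.smul_sb g h2) (S.e_sb.2 h1))

variable {Q R : Setoid (D ⊕ ℕ)} {hQ : InModel M Q} {hR : InModel M R}

theorem m_ptn : m z (S.ptn Q hQ) p ↔
    ∀ q ≤ p, ∃ r ≤ q, ∃ a, e z (S.sb {b | Q a b} (hQ.2 a)) r := by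
  rw [ptn, m_fl]

theorem e_ptn : e (S.ptn Q hQ) (S.ptn R hR) p ↔ Q = R := by
  constructor
  · intro h
    have key : ∀ a, {b | Q a b} = {b | R a b} := by
      intro a
      have h1 : m (S.sb {b | Q a b} (hQ.2 a)) (S.ptn R hR) p := m_right h (m_fl_self _)
      obtain ⟨r, _, c, hc⟩ := S.m_ptn.1 h1 p le_rfl
      rw [e_sb] at hc
      have h2 : R c a := by
        have : a ∈ {b | Q a b} := Q.refl a
        rwa [hc] at this
      rw [hc]
      ext b
      exact ⟨fun h => R.trans (R.symm h2) h, fun h => R.trans h2 h⟩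
    refine Setoid.ext fun a b => ?_
    have := key a
    exact Set.ext_iff.1 this b
  · rintro rfl
    exact e_refl _ _

theorem smul_ptn (g : G) (h' : InModel M (actP (S.pr g : Equiv.Perm D) Q)) :
    e (g • S.ptn Q hQ) (S.ptn _ h') p := by
  have key : ∀ a p, e (g • S.sb {b | Q a b} (hQ.2 a))
      (S.sb _ (h'.2 (act (S.pr g : Equiv.Perm D) a))) p := by
    intro a p
    have h1 := block_act (S.pr g : Equiv.Perm D) Q a
    have h2 : SymSet M (act (S.pr g : Equiv.Perm D) '' {b | Q a b}) := by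
      rw [h1]; exact h'.2 _
    exact e_trans (S.smul_sb g h2) (S.e_sb.2 h1)
  refine e_smul_fl g (fun a => ⟨act (S.pr g : Equiv.Perm D) a, fun p => key a p⟩) fun c => ?_
  refine ⟨act (S.pr g : Equiv.Perm D)⁻¹ c, fun p => ?_⟩
  have := key (act (S.pr g : Equiv.Perm D)⁻¹ c) p
  have h3 : act (S.pr g : Equiv.Perm D) (act (S.pr g : Equiv.Perm D)⁻¹ c) = c := by
    rw [← act_mul]; simp [act_one]
  refine e_trans this (S.e_sb.2 ?_)
  rw [h3]

theorem part_ptn : lg.part (S.ptn Q hQ) S.AA p := by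
  rw [part_iff]
  refine ⟨fun b q hq hb => ⟨fun r hr => ?_, fun z r hr hz => ?_⟩, fun b c q hq hb hc hm => ?_,
    fun a q hq ha r hr => ?_⟩
  · obtain ⟨s, hs, a, ha⟩ := S.m_ptn.1 hb r hr
    exact ⟨s, hs, S.pt a, m_right (e_symm ha) (S.m_pt_sb.2 (Q.refl a))⟩
  · refine RO.dense _ fun s hs => ?_
    obtain ⟨t, ht, a, ha⟩ := S.m_ptn.1 hb s (hs.trans hr)
    have h1 := m_right ha (RO.mono _ (ht.trans hs) hz)
    obtain ⟨u, hu, c, _, hc⟩ := S.m_sb.1 h1 t le_rfl
    exact ⟨u, hu.trans ht, m_left (e_symm hc) (S.m_pt_sb.2 (Set.mem_univ c))⟩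
  · refine RO.dense _ fun s hs => ?_
    obtain ⟨t, ht, z, hzb, hzc⟩ := hm s hs
    obtain ⟨t1, ht1, a, ha⟩ := S.m_ptn.1 hb t (ht.trans hs)
    obtain ⟨t2, ht2, a', ha'⟩ := S.m_ptn.1 hc t1 (ht1.trans (ht.trans hs))
    have h1 := m_right (RO.mono _ ht2 ha) (RO.mono _ (ht2.trans ht1) hzb)
    have h2 := m_right ha' (RO.mono _ (ht2.trans ht1) hzc)
    obtain ⟨t3, ht3, c, hc, hcz⟩ := S.m_sb.1 h1 t2 le_rfl
    obtain ⟨t4, ht4, c', hc', hcz'⟩ := S.m_sb.1 h2 t3 ht3
    have h3 : c = c' := S.inj _ _ t4 (e_trans (e_symm (RO.mono _ ht4 hcz)) hcz')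
    subst h3
    refine ⟨t4, ht4.trans (ht3.trans (ht2.trans (ht1.trans ht))), ?_⟩
    have h4 : {b | Q a b} = {b | Q a' b} := by
      have h5 : Q a a' := Q.trans hc (Q.symm hc')
      ext b
      exact ⟨fun h => Q.trans (Q.symm h5) h, fun h => Q.trans h5 h⟩
    exact e_congr (e_symm (RO.mono _ (ht4.trans (ht3.trans ht2)) ha))
      (e_symm (RO.mono _ (ht4.trans ht3) ha')) (S.e_sb.2 h4)
  · obtain ⟨s, hs, c, _, hc⟩ := S.m_sb.1 ha r hr
    exact ⟨s, hs, _, m_fl_self c, m_left (e_symm hc) (S.m_pt_sb.2 (Q.refl c))⟩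

theorem fin_sb : lg.fin (S.sb X hX) p ↔ X.Finite := by
  constructor
  · intro h
    obtain ⟨s, hs⟩ := cov_of_fin (fun i j p he q => by
      have := S.inj _ _ _ he
      rw [this]; exact e_refl _ _) h
    refine (s.finite_toSet.image Subtype.val).subset fun a ha => ?_
    obtain ⟨i, hi, he⟩ := hs ⟨a, ha⟩
    exact ⟨i, hi, (S.inj _ _ _ (he ⊤)).symm⟩
  · intro h
    have := h.fintype
    exact fin_of_cov Finset.univ fun j => ⟨j, Finset.mem_univ _, fun p => e_refl _ _⟩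

theorem fin_ptn : lg.fin (S.ptn Q hQ) p ↔ Finite (Quotient Q) := by
  classical
  constructor
  · intro h
    obtain ⟨s, hs⟩ := cov_of_fin (fun i j p he q => by
      rw [S.e_sb] at he ⊢; exact he) h
    refine Finite.of_surjective (fun i : s => Quotient.mk Q i.1) fun c => ?_
    obtain ⟨j, rfl⟩ := Quotient.exists_rep c
    obtain ⟨i, hi, he⟩ := hs j
    refine ⟨⟨i, hi⟩, Quotient.sound ?_⟩
    have h1 := S.e_sb.1 (he ⊤)
    have : i ∈ {b | Q j b} := by rw [h1]; exact Q.refl i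
    exact Q.symm this
  · intro h
    have := Fintype.ofFinite (Quotient Q)
    refine fin_of_cov (Finset.univ.image fun c : Quotient Q => c.out) fun j => ?_
    refine ⟨(Quotient.mk Q j).out, Finset.mem_image_of_mem _ (Finset.mem_univ _), fun p => ?_⟩
    rw [S.e_sb]
    have h1 : Q (Quotient.mk Q j).out j := Quotient.exact (Quotient.out_eq (Quotient.mk Q j))
    ext b
    exact ⟨fun h => Q.trans h1 h, fun h => Q.trans (Q.symm h1) h⟩

theorem finEl_ptn : lg.finEl (S.ptn Q hQ) p ↔ ∀ a, {b | Q a b}.Finite := by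
  simp only [Lg.finEl, ro_all, ro_imp, ro_mem]
  constructor
  · intro h a
    have := h _ p le_rfl (m_fl_self (y := fun a : D ⊕ ℕ => S.sb {b | Q a b} (hQ.2 a)) a)
    exact S.fin_sb.1 this
  · intro h b q hq hb
    refine RO.dense _ fun r hr => ?_
    obtain ⟨s, hs, a, ha⟩ := S.m_ptn.1 hb r hr
    exact ⟨s, hs, (fin_congr ha).2 (S.fin_sb.2 (h a))⟩

end AtomSys

end Pool.Agent.SymExt
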