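import Pool.Agent.SymExt.Transfer

/-!
# Countable conditions: every permutation model on `D` gives an `AtomSys`
-/

set_option linter.unusedSectionVars false
set_option linter.unusedVariables false
set_option linter.unusedSimpArgs false

namespace Pool.Agent.SymExt

open Name SN Pool.Agent.Lib.MP_fe2f0d_lc

/-! ### conditions -/

/-- countable partial functions from `J` to `Bool` -/
@[ext]
structure Cond (J : Type) where
  f : J → Option Bool
  cnt : {j | f j ≠ none}.Countable

namespace Cond

variable {J : Type}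

instance : PartialOrder (Cond J) where
  le q p := ∀ j b, p.f j = some b → q.f j = some b
  le_refl p j b h := h
  le_trans p q r h1 h2 j b h := h1 j b (h2 j b h)
  le_antisymm p q h1 h2 := by
    ext j : 2
    cases hq : q.f j with
    | some b => exact h1 j b hq
    | none =>
      cases hp : p.f j with
      | none => rfl
      | some b => rw [h2 j b hp] at hq; simp at hq

theorem le_def {p q : Cond J} : q ≤ p ↔ ∀ j b, p.f j = some b → q.f j = some b := Iff.rfl

instance : OrderTop (Cond J) where
  top := ⟨fun _ => none, by simp⟩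
  le_top p j b h := by simp at h

theorem closed (p : ℕ → Cond J) (hp : Antitone p) : ∃ r, ∀ n, r ≤ p n := by
  classical
  let f : J → Option Bool := fun j =>
    if h : ∃ b n, (p n).f j = some b then some h.choose else none
  have hf : ∀ j b n, (p n).f j = some b → f j = some b := by
    intro j b n hn
    have h : ∃ b n, (p n).f j = some b := ⟨b, n, hn⟩
    have h1 : f j = some h.choose := dif_pos h
    obtain ⟨k, hk⟩ := h.choose_spec
    have h2 := hp (le_max_left n k) j b hn
    have h3 := hp (le_max_right n k) j _ hk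
    rw [h2] at h3
    rw [h1, ← Option.some.inj h3]
  refine ⟨⟨f, ?_⟩, fun n j b h => hf j b n h⟩
  refine (Set.countable_iUnion fun n => (p n).cnt).mono fun j hj => ?_
  by_contra hc
  simp only [Set.mem_iUnion, Set.mem_setOf_eq, not_exists, not_not] at hc
  apply hj
  refine dif_neg ?_
  rintro ⟨b, n, h⟩
  rw [hc n] at h
  simp at h

theorem compat {p q : Cond J} (h : ∀ j b b', p.f j = some b → q.f j = some b' → b = b') :
    ∃ r, r ≤ p ∧ r ≤ q := by
  refine ⟨⟨fun j => (p.f j).or (q.f j), ?_⟩, fun j b hj => ?_, fun j b hj => ?_⟩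
  · refine (p.cnt.union q.cnt).mono fun j hj => ?_
    by_contra hc
    simp only [Set.mem_union, Set.mem_setOf_eq, not_or, not_not] at hc
    apply hj
    rw [hc.1, hc.2]
    rfl
  · change (p.f j).or (q.f j) = some b
    rw [hj]; rfl
  · change (p.f j).or (q.f j) = some b
    cases hp : p.f j with
    | none => rw [hj]; rfl
    | some b' => rw [h j b' b hp hj]; rfl

open Classical in
/-- one more value -/
noncomputable def ins (p : Cond J) (j : J) (b : Bool) : Cond J :=
  ⟨Function.update p.f j (some b), by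
    refine (p.cnt.union (Set.countable_singleton j)).mono fun k hk => ?_
    by_cases h : k = j
    · exact Or.inr h
    · left
      simpa [Function.update_of_ne h] using hk⟩

theorem ins_ne (p : Cond J) {j k : J} (b : Bool) (h : k ≠ j) : (p.ins j b).f k = p.f k := by
  classical
  unfold ins
  simp only
  rw [Function.update_of_ne h]

theorem ins_le {p : Cond J} {j : J} {b : Bool} (h : p.f j = none) : p.ins j b ≤ p := by
  intro k c hk
  have : k ≠ j := by rintro rfl; rw [h] at hk; simp at hk
  rwa [ins_ne p b this]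

theorem ins_self (p : Cond J) (j : J) (b : Bool) : (p.ins j b).f j = some b := by
  simp [ins]

/-- a single value -/
noncomputable def single (j : J) (b : Bool) : Cond J := ins ⊤ j b

theorem le_single {p : Cond J} {j : J} {b : Bool} : p ≤ single j b ↔ p.f j = some b := by
  constructor
  · intro h
    exact h j b (ins_self _ _ _)
  · intro h k c hk
    by_cases hkj : k = j
    · subst hkj
      rw [single, ins_self] at hk
      rw [h, hk]
    · rw [single, ins_ne _ _ hkj] at hk
      change (none : Option Bool) = some c at hk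
      simp at hk

end Cond

/-! ### the group -/

/-- the group: permutations of the atoms together with translations of the columns -/
@[ext]
structure GG {D : Type} (M : FMData D) where
  π : M.G
  t : D → ℝ

namespace GG

variable {D : Type} {M : FMData D}

instance : Mul (GG M) := ⟨fun g h => ⟨g.π * h.π, fun d => h.t d + g.t ((h.π : Equiv.Perm D) d)⟩⟩
instance : One (GG M) := ⟨⟨1, fun _ => 0⟩⟩
instance : Inv (GG M) := ⟨fun g => ⟨g.π⁻¹, fun d => - g.t ((g.π : Equiv.Perm D)⁻¹ d)⟩⟩

theorem mul_π (g h : GG M) : (g * h).π = g.π * h.π := rfl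
theorem mul_t (g h : GG M) (d : D) :
    (g * h).t d = h.t d + g.t ((h.π : Equiv.Perm D) d) := rfl
theorem one_π : (1 : GG M).π = 1 := rfl
theorem one_t (d : D) : (1 : GG M).t d = 0 := rfl
theorem inv_π (g : GG M) : (g⁻¹).π = g.π⁻¹ := rfl
theorem inv_t (g : GG M) (d : D) : (g⁻¹).t d = - g.t ((g.π : Equiv.Perm D)⁻¹ d) := rfl

instance : Group (GG M) where
  mul_assoc a b c := by
    ext d
    · simp [mul_π, mul_assoc]
    · simp only [mul_t, mul_π, Subgroup.coe_mul, Equiv.Perm.coe_mul, Function.comp_apply]
      ring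
  one_mul a := by
    ext d
    · simp [mul_π, one_π]
    · simp [mul_t, one_t]
  mul_one a := by
    ext d
    · simp [mul_π, one_π]
    · simp [mul_t, one_t, one_π]
  inv_mul_cancel a := by
    ext d
    · simp [mul_π, one_π, inv_π]
    · simp [mul_t, one_t, inv_t]

/-- the action on the coordinates -/
def mv (g : GG M) (s : D × ℝ) : D × ℝ := ((g.π : Equiv.Perm D) s.1, s.2 + g.t s.1)

theorem mv_mul (g h : GG M) (s : D × ℝ) : mv (g * h) s = mv g (mv h s) := by
  simp only [mv, mul_π, mul_t, Subgroup.coe_mul, Equiv.Perm.coe_mul, Function.comp_apply]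
  ext
  · rfl
  · simp only; ring

theorem mv_one (s : D × ℝ) : mv (1 : GG M) s = s := by
  simp [mv, one_π, one_t]

theorem mv_inv_mv (g : GG M) (s : D × ℝ) : mv g⁻¹ (mv g s) = s := by
  rw [← mv_mul, inv_mul_cancel, mv_one]

theorem mv_mv_inv (g : GG M) (s : D × ℝ) : mv g (mv g⁻¹ s) = s := by
  rw [← mv_mul, mul_inv_cancel, mv_one]

theorem mv_injective (g : GG M) : Function.Injective (mv g) := fun s s' h => by
  rw [← mv_inv_mv g s, h, mv_inv_mv]

/-- the coordinates of the conditions -/
abbrev Co (D : Type) : Type := (D × ℝ) × Set ℕ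

instance : MulAction (GG M) (Cond (Co D)) where
  smul g q := ⟨fun j => q.f (mv g⁻¹ j.1, j.2), by
    have hi : Function.Injective (fun j : Co D => ((mv g⁻¹ j.1, j.2) : Co D)) := by
      rintro ⟨s, x⟩ ⟨s', x'⟩ h
      simp only [Prod.mk.injEq] at h
      rw [mv_injective _ h.1, h.2]
    exact q.cnt.preimage hi⟩
  one_smul q := by
    ext j : 2
    change q.f (mv (1 : GG M)⁻¹ j.1, j.2) = q.f j
    rw [inv_one, mv_one]
  mul_smul g h q := by
    ext j : 2
    change q.f (mv (g * h)⁻¹ j.1, j.2) = q.f (mv h⁻¹ (mv g⁻¹ j.1), j.2)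
    rw [mul_inv_rev, mv_mul]

theorem smul_f (g : GG M) (q : Cond (Co D)) (j : Co D) : (g • q).f j = q.f (mv g⁻¹ j.1, j.2) := rfl

instance : OrdAct (GG M) (Cond (Co D)) where
  le g p q h j b hj := h _ _ hj

theorem smul_single (g : GG M) (s : D × ℝ) (x : Set ℕ) (b : Bool) :
    g • Cond.single (s, x) b = Cond.single (mv g s, x) b := by
  refine le_antisymm ?_ ?_
  · rw [Cond.le_single, smul_f]
    simp only [mv_inv_mv]
    exact Cond.ins_self _ _ _
  · rw [le_smul_iff', Cond.le_single, smul_f]
    simp only [inv_inv]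
    exact Cond.ins_self _ _ _

/-- projection to the group of the permutation model -/
def prj : GG M →* M.G where
  toFun g := g.π
  map_one' := rfl
  map_mul' _ _ := rfl

variable (M) in
/-- the filter of subgroups -/
def filt : NFilter (GG M) where
  mem K := ∃ H ∈ M.F, ∃ E : Finset D, ∀ g : GG M, g.π ∈ H →
    (∀ d ∈ E, (g.π : Equiv.Perm D) d = d ∧ g.t d = 0) → g ∈ K
  top := ⟨⊤, M.top_mem, ∅, fun _ _ _ => Subgroup.mem_top _⟩
  up := by
    rintro H K ⟨H₀, hH, E, h⟩ hHK
    exact ⟨H₀, hH, E, fun g h1 h2 => hHK (h g h1 h2)⟩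
  inf := by
    classical
    rintro H K ⟨H₀, hH, E, h⟩ ⟨H₁, hH', E', h'⟩
    refine ⟨H₀ ⊓ H₁, M.inf _ _ hH hH', E ∪ E', fun g h1 h2 => ⟨h g h1.1 fun d hd => ?_,
      h' g h1.2 fun d hd => ?_⟩⟩
    · exact h2 d (Finset.mem_union_left _ hd)
    · exact h2 d (Finset.mem_union_right _ hd)
  conj := by
    classical
    rintro g K ⟨H, hH, E, h⟩
    obtain ⟨H', hH', hc⟩ := conj_fix' M hH g.π
    refine ⟨H', hH', E.image (g.π : Equiv.Perm D), fun k hk1 hk2 => ?_⟩
    rw [Subgroup.mem_map]
    refine ⟨g⁻¹ * k * g, h _ ?_ ?_, ?_⟩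
    · exact hc _ hk1
    · intro d hd
      obtain ⟨h1, h2⟩ := hk2 _ (Finset.mem_image_of_mem _ hd)
      have h3 : mv (g⁻¹ * k * g) (d, 0) = (d, 0) := by
        rw [mv_mul, mv_mul]
        have : mv k (mv g (d, 0)) = mv g (d, 0) := by
          simp only [mv, h1, h2]
          simp
        rw [this, mv_inv_mv]
      simp only [mv, Prod.mk.injEq, zero_add] at h3
      exact h3
    · simp [MulAut.conj_apply, mul_assoc]

end GG

end Pool.Agent.SymExt
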