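import Pool.Agent.SymExt.Cohen

/-!
# The names of the atoms
-/

set_option linter.unusedSectionVars false
set_option linter.unusedVariables false
set_option linter.unusedSimpArgs false

namespace Pool.Agent.SymExt

open Name SN GG Pool.Agent.Lib.MP_fe2f0d_lc

/-! ### distinct sets coding sets of natural numbers -/

theorem rank_ofNat (n : ℕ) : (PSet.ofNat.{0} n).rank = n := by
  induction n with
  | zero => exact PSet.rank_empty
  | succ n ih =>
    rw [show PSet.ofNat (n + 1) = insert (PSet.ofNat n) (PSet.ofNat n) from rfl,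
      PSet.rank_insert, ih]
    simp

theorem ofNat_equiv {n k : ℕ} (h : (PSet.ofNat.{0} n).Equiv (PSet.ofNat.{0} k)) : n = k := by
  have := PSet.rank_congr h
  rw [rank_ofNat, rank_ofNat] at this
  exact_mod_cast this

theorem lt_rank_omega (n : ℕ) : (n : Ordinal) < PSet.omega.{0}.rank := by
  rw [← rank_ofNat n]
  exact PSet.rank_lt_of_mem ⟨ULift.up n, PSet.Equiv.refl _⟩

/-- a set coding a set of natural numbers -/
def rl (x : Set ℕ) : PSet.{0} := insert PSet.omega ⟨{n // n ∈ x}, fun n => PSet.ofNat n⟩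

theorem rank_rl (x : Set ℕ) (n : ℕ) : (n : Ordinal.{0}) < (rl x).rank := by
  refine (lt_rank_omega n).trans (PSet.rank_lt_of_mem ?_)
  rw [rl, PSet.mem_insert_iff]
  exact Or.inl (PSet.Equiv.refl _)

theorem rl_equiv {x y : Set ℕ} (h : (rl x).Equiv (rl y)) : x = y := by
  have key : ∀ {x y : Set ℕ}, (rl x).Equiv (rl y) → x ⊆ y := by
    intro x y h n hn
    have h1 : PSet.ofNat n ∈ rl x := by
      rw [rl, PSet.mem_insert_iff]
      exact Or.inr ⟨⟨n, hn⟩, PSet.Equiv.refl _⟩
    have h2 : PSet.ofNat n ∈ rl y := (PSet.Mem.congr_right h).1 h1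
    rw [rl, PSet.mem_insert_iff] at h2
    rcases h2 with h2 | ⟨⟨k, hk⟩, h2⟩
    · have := lt_rank_omega n
      rw [← PSet.rank_congr h2, rank_ofNat] at this
      exact absurd this (lt_irrefl _)
    · rw [ofNat_equiv h2]; exact hk
  exact Set.Subset.antisymm (key h) (key h.symm)

/-- elements of elements of natural numbers have finite rank -/
theorem rank_ofNat_el {n : ℕ} {y : PSet.{0}} (h : y ∈ PSet.ofNat n) : ∃ k : ℕ, y.rank < k :=
  ⟨n, by rw [← rank_ofNat n]; exact PSet.rank_lt_of_mem h⟩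

section
variable {D : Type} {M : FMData D}

/-- the name of a generic set -/
noncomputable def gen (s : D × ℝ) : Name (Cond (Co D)) :=
  .mk (Set ℕ) (fun x => chk (rl x)) (fun x => Cond.single (s, x) true)

theorem smul_gen (g : GG M) (s : D × ℝ) : g • (gen s : Name (Cond (Co D))) = gen (mv g s) := by
  rw [gen, gen, smul_mk]
  congr 1
  · funext x; exact smul_chk g _
  · funext x; exact smul_single g s x true

variable (M) in
/-- the generic set as an element of the symmetric extension -/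
noncomputable def gn (s : D × ℝ) : SN (Cond (Co D)) (filt M) := ⟨gen s, by
  refine ⟨⟨{
    carrier := {g : GG M | mv g s = s}
    mul_mem' := by
      intro a b ha hb
      simp only [Set.mem_setOf_eq] at ha hb ⊢
      rw [mv_mul, hb, ha]
    one_mem' := mv_one s
    inv_mem' := by
      intro a ha
      simp only [Set.mem_setOf_eq] at ha ⊢
      conv_lhs => rw [← ha]
      exact mv_inv_mv a s }, ⟨⊤, M.top_mem, {s.1}, fun g _ h => ?_⟩, fun g hg p => ?_⟩,
    fun x => HS_chk _ _⟩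
  · obtain ⟨h1, h2⟩ := h s.1 (Finset.mem_singleton_self _)
    change ((g.π : Equiv.Perm D) s.1, s.2 + g.t s.1) = s
    rw [h1, h2, add_zero]
  · have h1 : mv g s = s := hg
    change feq (g • (gen s : Name (Cond (Co D)))) (gen s) p
    rw [smul_gen, h1]
    exact feq_refl _ _⟩

theorem smul_gn (g : GG M) (s : D × ℝ) : g • gn M s = gn M (mv g s) := Subtype.ext (smul_gen g s)

theorem m_gn {s : D × ℝ} {z : SN (Cond (Co D)) (filt M)} {p : Cond (Co D)} : m z (gn M s) p ↔
    ∀ q ≤ p, ∃ r ≤ q, ∃ x : Set ℕ, r.f (s, x) = some true ∧ e z (ck (rl x)) r := by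
  constructor
  · intro h q hq
    obtain ⟨r, hr, x, hx, he⟩ := h q hq
    exact ⟨r, hr, x, Cond.le_single.1 hx, he⟩
  · intro h q hq
    obtain ⟨r, hr, x, hx, he⟩ := h q hq
    exact ⟨r, hr, x, Cond.le_single.2 hx, he⟩

/-- there is an unused coordinate -/
theorem exists_unused (p : Cond (Co D)) (s s' : D × ℝ) :
    ∃ x : Set ℕ, p.f (s, x) = none ∧ p.f (s', x) = none := by
  by_contra hc
  push Not at hc
  have h1 : (Set.univ : Set (Set ℕ)).Countable := by
    refine ((p.cnt.image Prod.snd)).mono fun x _ => ?_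
    by_cases h : p.f (s, x) = none
    · exact ⟨(s', x), hc x h, rfl⟩
    · exact ⟨(s, x), h, rfl⟩
  obtain ⟨f, hf⟩ := (Set.countable_univ_iff.1 h1).exists_injective_nat
  exact Function.cantor_injective f hf

theorem gn_inj {s s' : D × ℝ} {p : Cond (Co D)} (h : e (gn M s) (gn M s') p) : s = s' := by
  by_contra hs
  obtain ⟨x, hx, hx'⟩ := exists_unused p s s'
  have hne : ((s', x) : Co D) ≠ (s, x) := fun h => hs (Prod.mk.inj h).1.symm
  let r := (p.ins (s, x) true).ins (s', x) false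
  have hr1 : r ≤ p.ins (s, x) true := Cond.ins_le (by rw [Cond.ins_ne _ _ hne]; exact hx')
  have hr2 : r ≤ p := hr1.trans (Cond.ins_le hx)
  have h1 : r.f (s, x) = some true := hr1 _ _ (Cond.ins_self _ _ _)
  have h2 : r.f (s', x) = some false := Cond.ins_self _ _ _
  have h3 : m (ck (rl x)) (gn M s) r :=
    m_gn.2 fun q hq => ⟨q, le_rfl, x, hq _ _ h1, e_refl _ _⟩
  obtain ⟨t, ht, y, hy, he⟩ := m_gn.1 (m_right (RO.mono _ hr2 h) h3) r le_rfl
  rw [e_ck] at he
  rw [← rl_equiv he, ht _ _ h2] at hy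
  simp at hy

theorem gn_ne_ck {s : D × ℝ} {p : Cond (Co D)} {y : PSet.{0}} {n : ℕ} (hy : y.rank < n)
    (h : e (gn M s) (ck y) p) : False := by
  obtain ⟨x, hx, _⟩ := exists_unused p s s
  have h3 : m (ck (rl x)) (gn M s) (p.ins (s, x) true) :=
    m_gn.2 fun q hq => ⟨q, le_rfl, x, hq _ _ (Cond.ins_self _ _ _), e_refl _ _⟩
  obtain ⟨t, _, i, hi⟩ := (m_ck _ _ _).1 (m_right (RO.mono _ (Cond.ins_le hx) h) h3) _ le_rfl
  rw [e_ck] at hi
  have h1 : y.Func i ∈ y := by
    cases y
    exact PSet.Mem.mk _ _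
  have h2 := (PSet.rank_lt_of_mem h1).trans hy
  rw [← PSet.rank_congr hi] at h2
  exact absurd h2 (rank_rl x n).not_gt

variable (M) in
/-- the name of an atom -/
noncomputable def atm (d : D) : SN (Cond (Co D)) (filt M) := fl (fun u : ℝ => gn M (d, u)) (by
  refine ⟨(MulAction.stabilizer M.G d).comap prj, ⟨_, M.atom d, ∅, fun g hg _ => hg⟩,
    fun g hg u => ⟨u + g.t d, fun p => ?_⟩⟩
  have h1 : (g.π : Equiv.Perm D) d = d := hg
  rw [smul_gn]
  simp only [mv, h1]
  exact e_refl _ _)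

theorem smul_atm (g : GG M) (d : D) (p : Cond (Co D)) :
    e (g • atm M d) (atm M ((g.π : Equiv.Perm D) d)) p := by
  refine e_smul_fl g (fun u => ⟨u + g.t d, fun p => ?_⟩) fun u => ⟨u - g.t d, fun p => ?_⟩
  · rw [smul_gn]
    exact e_refl _ _
  · rw [smul_gn]
    simp only [mv, sub_add_cancel]
    exact e_refl _ _

theorem hom_aux (E : Finset D) (k : M.G) (hk : ∀ d ∈ E, (k : Equiv.Perm D) d = d)
    (q : Cond (Co D)) : ∃ g : GG M, g.π = k ∧ (∀ d ∈ E, g.t d = 0) ∧ ∃ r, r ≤ q ∧ r ≤ g • q := by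
  classical
  let C : D → Set ℝ := fun d => {u | ∃ x, q.f ((d, u), x) ≠ none}
  have hC : ∀ d, (C d).Countable := by
    intro d
    refine ((q.cnt.image fun j => j.1.2)).mono ?_
    rintro u ⟨x, hx⟩
    exact ⟨((d, u), x), hx, rfl⟩
  have hex : ∀ d, ∃ t : ℝ, ∀ c ∈ C d, ∀ c' ∈ C ((k : Equiv.Perm D) d), c + t ≠ c' := by
    intro d
    have h1 : (Set.image2 (fun c' c : ℝ => c' - c) (C ((k : Equiv.Perm D) d)) (C d)).Countable :=
      (hC _).image2 (hC _) _
    obtain ⟨t, ht⟩ : ∃ t, t ∉ Set.image2 (fun c' c : ℝ => c' - c) (C ((k : Equiv.Perm D) d))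
        (C d) := by
      by_contra hc
      push Not at hc
      exact Set.not_countable_univ (α := ℝ) (h1.mono fun t _ => hc t)
    refine ⟨t, fun c hc c' hc' h => ht ⟨c', hc', c, hc, ?_⟩⟩
    simp only
    rw [← h]; ring
  choose t ht using hex
  refine ⟨⟨k, fun d => if d ∈ E then 0 else t d⟩, rfl, fun d hd => if_pos hd, Cond.compat ?_⟩
  rintro ⟨⟨d, u⟩, x⟩ b b' h1 h2
  obtain ⟨d', rfl⟩ : ∃ d', d = (k : Equiv.Perm D) d' := ⟨(k : Equiv.Perm D)⁻¹ d, by simp⟩
  rw [smul_f] at h2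
  have h3 : mv (⟨k, fun d => if d ∈ E then 0 else t d⟩ : GG M)⁻¹ ((k : Equiv.Perm D) d', u) =
      (d', u - if d' ∈ E then 0 else t d') := by
    simp [mv, inv_π, inv_t, sub_eq_add_neg]
  simp only [h3] at h2
  by_cases hd : d' ∈ E
  · rw [if_pos hd, sub_zero] at h2
    rw [hk d' hd, h2] at h1
    exact (Option.some.inj h1).symm
  · rw [if_neg hd] at h2
    exfalso
    refine ht d' (u - t d') ⟨x, by rw [h2]; simp⟩ u ⟨x, by rw [h1]; simp⟩ ?_
    ring

variable (M) in
/-- every permutation model on `D` gives an `AtomSys` -/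
noncomputable def atomSys : AtomSys (Cond (Co D)) (filt M) M where
  closed := Cond.closed
  pr := prj
  pull H hH := ⟨H, hH, ∅, fun g hg _ => hg⟩
  pt a := match a with
    | .inl d => atm M d
    | .inr n => ck (PSet.ofNat n)
  act_pt := by
    rintro g (d | n) p
    · exact smul_atm g d p
    · change e (g • ck (PSet.ofNat n)) (ck (PSet.ofNat n)) p
      rw [smul_ck]
      exact e_refl _ _
  inj := by
    have key : ∀ d n p, ¬ e (atm M d) (ck (PSet.ofNat n)) p := by
      intro d n p h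
      have h1 : m (gn M (d, 0)) (ck (PSet.ofNat n)) p := m_right h (m_fl_self (0 : ℝ))
      obtain ⟨r, _, i, hi⟩ := (m_ck _ _ _).1 h1 p le_rfl
      have h2 : (PSet.ofNat n).Func i ∈ PSet.ofNat n := by
        generalize PSet.ofNat n = y at i
        cases y
        exact PSet.Mem.mk _ _
      obtain ⟨k, hk⟩ := rank_ofNat_el h2
      exact gn_ne_ck hk hi
    rintro (d | n) (d' | n') p h
    · have h1 : m (gn M (d, 0)) (atm M d') p := m_right h (m_fl_self (0 : ℝ))
      obtain ⟨r, _, u, hu⟩ := m_fl.1 h1 p le_rfl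
      have := gn_inj hu
      simp only [Prod.mk.injEq] at this
      rw [this.1]
    · exact absurd h (key _ _ _)
    · exact absurd (e_symm h) (key _ _ _)
    · rw [e_ck] at h
      rw [ofNat_equiv h]
  hom := by
    intro x
    obtain ⟨K, ⟨H, hH, E, hE⟩, hK⟩ := ((HS_iff _ _).1 x.2).1
    obtain ⟨H', hH', hH'E⟩ : ∃ H' ∈ M.F, ∀ k ∈ H', k ∈ H ∧ ∀ d ∈ E, (k : Equiv.Perm D) d = d := by
      classical
      have : ∀ E : Finset D, ∃ H' ∈ M.F, ∀ k ∈ H', ∀ d ∈ E, (k : Equiv.Perm D) d = d := by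
        intro E
        induction E using Finset.induction_on with
        | empty => exact ⟨⊤, M.top_mem, fun k _ d hd => absurd hd (Finset.notMem_empty d)⟩
        | insert a s _ ih =>
          obtain ⟨H', hH', h⟩ := ih
          refine ⟨H' ⊓ MulAction.stabilizer M.G a, M.inf _ _ hH' (M.atom a), fun k hk d hd => ?_⟩
          rcases Finset.mem_insert.1 hd with rfl | hd
          · exact hk.2
          · exact h k hk.1 d hd
      obtain ⟨H', hH', h⟩ := this E
      exact ⟨H ⊓ H', M.inf _ _ hH hH', fun k hk => ⟨hk.1, h k hk.2⟩⟩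
    refine ⟨H', hH', fun k hk q => ?_⟩
    obtain ⟨hkH, hkE⟩ := hH'E k hk
    obtain ⟨g, hg, hgt, r, h1, h2⟩ := hom_aux E k hkE q
    subst hg
    exact ⟨g, rfl, hK g (hE g hkH fun d hd => ⟨hkE d hd, hgt d hd⟩), r, h1, h2⟩

end

end Pool.Agent.SymExt
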