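import Pool.Agent.SymExt.Notions

/-!
# Families of symmetric names, and finiteness
-/

set_option linter.unusedSectionVars false
set_option linter.unusedVariables false
set_option linter.unusedSimpArgs false

namespace Pool.Agent.SymExt

open Name

variable {P : Type} [PartialOrder P] [OrderTop P] {G : Type} [Group G] [MulAction G P]
  [OrdAct G P] {F : NFilter G}

namespace SN

/-- the set of the members of the family is symmetric -/
def FamSym {ι : Type} (y : ι → SN P F) : Prop :=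
  ∃ H, F.mem H ∧ ∀ g ∈ H, ∀ i, ∃ j, ∀ p : P, e (g • y i) (y j) p

/-- the set of the members of a family -/
def fl {ι : Type} (y : ι → SN P F) (h : FamSym y) : SN P F :=
  ⟨.mk ι (fun i => (y i).1) (fun _ => ⊤), by
    obtain ⟨H, hH, h⟩ := h
    refine sym_of ι y (fun _ => ⊤) hH fun g hg z p hz q hq => ?_
    obtain ⟨r, hr, i, _, hi⟩ := hz (g⁻¹ • q) ((smul_le_iff' g⁻¹).2 (by simpa using hq))
    obtain ⟨j, hj⟩ := h g hg i
    refine ⟨g • r, (smul_le_iff' g).2 hr, j, le_top, ?_⟩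
    have h1 : e (g • z) (g • y i) (g • r) := (e_smul g).2 hi
    exact e_trans h1 (hj _)⟩

variable {ι κ : Type} {y : ι → SN P F} {h : FamSym y} {z : SN P F} {p : P}

theorem m_fl : m z (fl y h) p ↔ ∀ q ≤ p, ∃ r ≤ q, ∃ i, e z (y i) r := by
  constructor
  · intro h q hq
    obtain ⟨r, hr, i, _, h⟩ := h q hq
    exact ⟨r, hr, i, h⟩
  · intro h q hq
    obtain ⟨r, hr, i, h⟩ := h q hq
    exact ⟨r, hr, i, le_top, h⟩

theorem m_fl_of (i : ι) (hi : e z (y i) p) : m z (fl y h) p :=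
  m_fl.2 fun q hq => ⟨q, le_rfl, i, RO.mono _ hq hi⟩

theorem m_fl_self (i : ι) : m (y i) (fl y h) p := m_fl_of i (e_refl _ _)

theorem e_fl {y' : κ → SN P F} {h' : FamSym y'} (h1 : ∀ i, ∃ j, ∀ p, e (y i) (y' j) p)
    (h2 : ∀ j, ∃ i, ∀ p, e (y i) (y' j) p) : e (fl y h) (fl y' h') p := by
  refine e_ext fun q _ z => ?_
  rw [m_fl, m_fl]
  constructor
  · intro hz r hr
    obtain ⟨s, hs, i, hi⟩ := hz r hr
    obtain ⟨j, hj⟩ := h1 i
    exact ⟨s, hs, j, e_trans hi (hj s)⟩
  · intro hz r hr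
    obtain ⟨s, hs, j, hj⟩ := hz r hr
    obtain ⟨i, hi⟩ := h2 j
    exact ⟨s, hs, i, e_trans hj (e_symm (hi s))⟩

theorem m_smul_fl (g : G) : m z (g • fl y h) p ↔ ∀ q ≤ p, ∃ r ≤ q, ∃ i, e z (g • y i) r := by
  have h1 : m z (g • fl y h) p ↔ m (g⁻¹ • z) (fl y h) (g⁻¹ • p) := by
    have := m_smul g (x := g⁻¹ • z) (y := fl y h) (p := g⁻¹ • p)
    rwa [smul_inv_smul, smul_inv_smul] at this
  rw [h1, m_fl]
  constructor
  · intro hz q hq
    obtain ⟨r, hr, i, hi⟩ := hz (g⁻¹ • q) (OrdAct.le g⁻¹ hq)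
    refine ⟨g • r, (smul_le_iff' g).2 hr, i, ?_⟩
    rw [← e_smul g⁻¹]; simpa using hi
  · intro hz q hq
    obtain ⟨r, hr, i, hi⟩ := hz (g • q) ((smul_le_iff' g).2 hq)
    refine ⟨g⁻¹ • r, (smul_le_iff' g⁻¹).2 (by simpa using hr), i, ?_⟩
    rw [← e_smul g]; simpa using hi

theorem e_smul_fl (g : G) {y' : κ → SN P F} {h' : FamSym y'}
    (h1 : ∀ i, ∃ j, ∀ p, e (g • y i) (y' j) p)
    (h2 : ∀ j, ∃ i, ∀ p, e (g • y i) (y' j) p) : e (g • fl y h) (fl y' h') p := by
  refine e_ext fun q _ z => ?_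
  rw [m_smul_fl, m_fl]
  constructor
  · intro hz r hr
    obtain ⟨s, hs, i, hi⟩ := hz r hr
    obtain ⟨j, hj⟩ := h1 i
    exact ⟨s, hs, j, e_trans hi (hj s)⟩
  · intro hz r hr
    obtain ⟨s, hs, j, hj⟩ := hz r hr
    obtain ⟨i, hi⟩ := h2 j
    exact ⟨s, hs, i, e_trans hj (e_symm (hi s))⟩

theorem exists_support_finset (y : ι → SN P F) (s : Finset ι) :
    ∃ H, F.mem H ∧ ∀ g ∈ H, ∀ i ∈ s, ∀ p : P, e (g • y i) (y i) p := by
  classical
  induction s using Finset.induction_on with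
  | empty => exact ⟨⊤, F.top, fun g _ i hi => absurd hi (Finset.notMem_empty i)⟩
  | insert a s _ ih =>
    obtain ⟨H, hH, h⟩ := ih
    obtain ⟨K, hK, h'⟩ := ((HS_iff F _).1 (y a).2).1
    refine ⟨H ⊓ K, F.inf hH hK, fun g hg i hi p => ?_⟩
    rcases Finset.mem_insert.1 hi with rfl | hi
    · exact h' g hg.2 p
    · exact h g hg.1 i hi p

theorem famSym_finset (y : ι → SN P F) (s : Finset ι) : FamSym fun i : s => y i := by
  obtain ⟨H, hH, h⟩ := exists_support_finset y s
  exact ⟨H, hH, fun g hg i => ⟨i, fun p => h g hg i i.2 p⟩⟩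

/-- the set of finitely many members of a family -/
def fs (y : ι → SN P F) (s : Finset ι) : SN P F := fl (fun i : s => y i) (famSym_finset y s)

theorem m_fs {s : Finset ι} : m z (fs y s) p ↔ ∀ q ≤ p, ∃ r ≤ q, ∃ i ∈ s, e z (y i) r := by
  rw [fs, m_fl]
  simp

theorem m_fs_insert [DecidableEq ι] {s : Finset ι} {a : ι} : m z (fs y (insert a s)) p ↔
    ∀ q ≤ p, ∃ r ≤ q, m z (fs y s) r ∨ e z (y a) r := by
  rw [m_fs]
  constructor
  · intro hz q hq
    obtain ⟨r, hr, i, hi, he⟩ := hz q hq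
    refine ⟨r, hr, ?_⟩
    rcases Finset.mem_insert.1 hi with rfl | hi
    · exact Or.inr he
    · exact Or.inl (m_fs.2 fun q' hq' => ⟨q', le_rfl, i, hi, RO.mono _ hq' he⟩)
  · intro hz q hq
    obtain ⟨r, hr, hz | hz⟩ := hz q hq
    · obtain ⟨s', hs', i, hi, he⟩ := m_fs.1 hz r le_rfl
      exact ⟨s', hs'.trans hr, i, Finset.mem_insert_of_mem hi, he⟩
    · exact ⟨r, hr, a, Finset.mem_insert_self _ _, hz⟩

theorem fin_iff (x : SN P F) (p : P) : lg.fin x p ↔ ∀ FF : SN P F, ∀ q ≤ p,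
    (∀ e' : SN P F, ∀ r ≤ q, (∀ w : SN P F, ∀ t ≤ r, ¬ m w e' t) → m e' FF r) →
    (∀ z w z' : SN P F, ∀ r ≤ q, m z FF r → m w x r →
      (∀ t : SN P F, ∀ r' ≤ r, (m t z' r' ↔ ∀ q ≤ r', ∃ r ≤ q, m t z r ∨ e t w r)) →
      m z' FF r) → m x FF q := by
  simp only [Lg.fin, Lg.empty, Lg.adj, ro_all, ro_imp, ro_and, ro_neg, ro_iff, ro_or, ro_mem,
    ro_eq, and_imp]

theorem fin_of_cov (s : Finset ι) (hs : ∀ j, ∃ i ∈ s, ∀ p, e (y j) (y i) p) :
    lg.fin (fl y h) p := by
  classical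
  rw [fin_iff]
  intro FF q hq h1 h2
  have key : ∀ s : Finset ι, m (fs y s) FF q := by
    intro s
    induction s using Finset.induction_on with
    | empty =>
      refine h1 _ q le_rfl fun w t _ hw => ?_
      obtain ⟨r, _, i, hi, _⟩ := m_fs.1 hw t le_rfl
      exact absurd hi (Finset.notMem_empty i)
    | insert a s _ ih =>
      exact h2 (fs y s) (y a) _ q le_rfl ih (m_fl_self a) fun t r' _ => m_fs_insert
  have he : e (fs y s) (fl y h) q := by
    refine e_fl (ι := s) (y := fun i : s => y i) (fun i => ⟨i.1, fun p => e_refl _ _⟩)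
      fun j => ?_
    obtain ⟨i, hi, he⟩ := hs j
    exact ⟨⟨i, hi⟩, fun p => e_symm (he p)⟩
  exact m_left he (key s)

theorem cov_of_fin (rigid : ∀ i j p, e (y i) (y j) p → ∀ q, e (y i) (y j) q)
    (hf : lg.fin (fl y h) p) : ∃ s : Finset ι, ∀ j, ∃ i ∈ s, ∀ p, e (y j) (y i) p := by
  classical
  rw [fin_iff] at hf
  have hFF : FamSym (fun s : Finset ι => fs y s) := by
    obtain ⟨H, hH, h⟩ := h
    refine ⟨H, hH, fun g hg s => ?_⟩
    choose j hj using h g hg
    refine ⟨s.image j, fun p => e_smul_fl g (fun i => ⟨⟨j i, Finset.mem_image_of_mem j i.2⟩,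
      fun p => hj i p⟩) ?_⟩
    rintro ⟨k, hk⟩
    obtain ⟨i, hi, rfl⟩ := Finset.mem_image.1 hk
    exact ⟨⟨i, hi⟩, fun p => hj i p⟩
  have := hf (fl _ hFF) p le_rfl ?_ ?_
  · obtain ⟨r, hr, s, he⟩ := m_fl.1 this p le_rfl
    refine ⟨s, fun j => ?_⟩
    have h1 : m (y j) (fs y s) r := m_right he (m_fl_self j)
    obtain ⟨t, ht, i, hi, h2⟩ := m_fs.1 h1 r le_rfl
    exact ⟨i, hi, rigid _ _ _ h2⟩
  · intro e' r _ he
    refine m_fl_of ∅ (e_ext fun q hq z => ?_)
    constructor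
    · intro hz
      exact absurd hz (he z q hq)
    · intro hz
      obtain ⟨_, _, i, hi, _⟩ := m_fs.1 hz q le_rfl
      exact absurd hi (Finset.notMem_empty i)
  · intro z w z' r _ hz hw ha
    refine m_fl.2 fun q hq => ?_
    obtain ⟨r1, hr1, s, hs⟩ := m_fl.1 hz q hq
    obtain ⟨r2, hr2, i, hi⟩ := m_fl.1 hw r1 (hr1.trans hq)
    refine ⟨r2, hr2.trans hr1, insert i s, e_ext fun q' hq' t => ?_⟩
    have hq'r : q' ≤ r := hq'.trans (hr2.trans (hr1.trans hq))
    rw [ha t q' hq'r, m_fs_insert]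
    refine forall_congr' fun u => forall_congr' fun hu => exists_congr fun v =>
      and_congr_right fun hv => ?_
    have h1 : e z (fs y s) v := RO.mono _ (hv.trans (hu.trans (hq'.trans hr2))) hs
    have h2 : e w (y i) v := RO.mono _ (hv.trans (hu.trans hq')) hi
    exact or_congr ⟨m_right h1, m_right (e_symm h1)⟩
      ⟨fun h => e_trans h h2, fun h => e_trans h (e_symm h2)⟩

/-! ### ordered pairs -/

/-- the unordered pair -/
noncomputable def pr (x y : SN P F) : SN P F := (exists_pair x y).choose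

theorem m_pr {x y w : SN P F} {p : P} : m w (pr x y) p ↔ ∀ q ≤ p, ∃ r ≤ q, e w x r ∨ e w y r :=
  (exists_pair x y).choose_spec w p

/-- the ordered pair -/
noncomputable def op (x y : SN P F) : SN P F := pr (pr x x) (pr x y)

theorem isPair_iff (z x y : SN P F) (p : P) : lg.isPair z x y p ↔ e z (pr x y) p := by
  simp only [Lg.isPair, ro_all, ro_iff, ro_or, ro_mem, ro_eq]
  constructor
  · intro h
    exact e_ext fun q hq w => (h w q hq).trans m_pr.symm
  · intro h w q hq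
    rw [← m_pr]
    have := RO.mono _ hq h
    exact ⟨m_right this, m_right (e_symm this)⟩

theorem pr_congr {x x' y y' : SN P F} {p : P} (h : e x x' p) (h' : e y y' p) :
    e (pr x y) (pr x' y') p := by
  refine e_ext fun q hq w => ?_
  rw [m_pr, m_pr]
  refine forall_congr' fun u => forall_congr' fun hu => exists_congr fun v =>
      and_congr_right fun hv => ?_
  have h1 := RO.mono _ (hv.trans (hu.trans hq)) h
  have h2 := RO.mono _ (hv.trans (hu.trans hq)) h'
  exact or_congr ⟨fun h => e_trans h h1, fun h => e_trans h (e_symm h1)⟩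
      ⟨fun h => e_trans h h2, fun h => e_trans h (e_symm h2)⟩

theorem op_congr {x x' y y' : SN P F} {p : P} (h : e x x' p) (h' : e y y' p) :
    e (op x y) (op x' y') p := pr_congr (pr_congr h h) (pr_congr h h')

theorem smul_pr (g : G) (x y : SN P F) (p : P) : e (g • pr x y) (pr (g • x) (g • y)) p := by
  rw [← isPair_iff]
  have : lg.isPair (pr x y) x y (g⁻¹ • p) := (isPair_iff _ _ _ _).2 (e_refl _ _)
  have h1 := eval_isPair (lg : Lg (RO P) (SN P F)) (x := 0) (y := 1) (z := 2) (n := 3)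
    (by omega) (by omega) (by omega)
  have h2 := eval_smul g (.isPair 0 1 2 3)
    (fun i => if i = 0 then pr x y else if i = 1 then x else y) (g⁻¹ • p)
  rw [h1, h1, smul_inv_smul] at h2
  simpa using h2.2 (by simpa using this)

theorem smul_op (g : G) (x y : SN P F) (p : P) : e (g • op x y) (op (g • x) (g • y)) p :=
  e_trans (smul_pr g _ _ p) (pr_congr (smul_pr g _ _ p) (smul_pr g _ _ p))

theorem isOP_iff (z x y : SN P F) (p : P) : lg.isOP z x y p ↔ e z (op x y) p := by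
  simp only [Lg.isOP, ro_ex, ro_and]
  constructor
  · intro h
    refine RO.dense _ fun q hq => ?_
    obtain ⟨r, hr, u, hu⟩ := h q hq
    obtain ⟨s, hs, v, h1, h2, h3⟩ := hu r le_rfl
    rw [isPair_iff] at h1 h2 h3
    exact ⟨s, hs.trans hr, e_trans h3 (pr_congr h1 h2)⟩
  · intro h q hq
    refine ⟨q, le_rfl, pr x x, fun r hr => ⟨r, le_rfl, pr x y, ?_, ?_, ?_⟩⟩
    · rw [isPair_iff]; exact e_refl _ _
    · rw [isPair_iff]; exact e_refl _ _
    · rw [isPair_iff]; exact RO.mono _ (hr.trans hq) h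

theorem prop_isPair {M : Type} {E : M → M → Prop} (hE : IsZFm E) (z x y : M) :
    (propLg E).isPair z x y ↔ ∀ t, E t z ↔ t = x ∨ t = y := by
  simp only [Lg.isPair, prop_all, prop_iff, prop_or, prop_mem, prop_eq]

theorem prop_OP_inj {M : Type} {E : M → M → Prop} (hE : IsZFm E) {z x y x' y' : M}
    (h : (propLg E).isOP z x y) (h' : (propLg E).isOP z x' y') : x = x' ∧ y = y' := by
  simp only [Lg.isOP, prop_ex, prop_and, prop_isPair hE] at h h'
  obtain ⟨u, v, hu, hv, hz⟩ := h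
  obtain ⟨u', v', hu', hv', hz'⟩ := h'
  have h1 : ∀ t, (t = u ∨ t = v) ↔ (t = u' ∨ t = v') := fun t => (hz t).symm.trans (hz' t)
  have hxx : x = x' := by
    rcases (h1 u).1 (Or.inl rfl) with h | h
    · have := (hu x).2 (Or.inl rfl)
      rw [h, hu'] at this
      tauto
    · have := (hv' x').2 (Or.inl rfl)
      rw [← h, hu] at this
      tauto
  subst hxx
  refine ⟨rfl, ?_⟩
  have hv1 : ∀ t, E t v → t = x ∨ t = y' := by
    intro t ht
    rcases (h1 v).1 (Or.inr rfl) with h | h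
    · rw [h, hu'] at ht; tauto
    · rw [h, hv'] at ht; tauto
  have hv2 : ∀ t, E t v' → t = x ∨ t = y := by
    intro t ht
    rcases (h1 v').2 (Or.inr rfl) with h | h
    · rw [h, hu] at ht; tauto
    · rw [h, hv] at ht; tauto
  rcases hv1 y ((hv y).2 (Or.inr rfl)) with h | h
  · rcases hv2 y' ((hv' y').2 (Or.inr rfl)) with h' | h'
    · rw [h, h']
    · exact h'.symm
  · exact h

theorem op_inj {x y x' y' : SN P F} {p : P} (h : e (op x y) (op x' y') p) :
    e x x' p ∧ e y y' p := by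
  let a : Fm := .imp (.isOP 0 1 2 5) (.imp (.isOP 0 3 4 5) (.and (.eq 1 3) (.eq 2 4)))
  have h1 := forced_of_valid F a (by
    intro M E hE t
    simp only [a, Lg.eval, Lg.eval_and]
    rw [eval_isOP _ (by omega) (by omega) (by omega), eval_isOP _ (by omega) (by omega) (by omega)]
    simp only [prop_imp, prop_and, prop_eq]
    exact fun h h' => prop_OP_inj hE h h')
    (fun i => if i = 0 then op x y else if i = 1 then x else if i = 2 then y else
      if i = 3 then x' else y') p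
  simp only [a, Lg.eval, Lg.eval_and] at h1
  rw [eval_isOP _ (by omega) (by omega) (by omega), eval_isOP _ (by omega) (by omega) (by omega)]
    at h1
  simp only [ro_imp, ro_and, ro_eq] at h1
  have h2 := h1 p le_rfl (by simpa using (isOP_iff (op x y) x y p).2 (e_refl _ _)) p le_rfl
    (by simpa using (isOP_iff (op x y) x' y' p).2 h)
  simpa using h2

end SN

end Pool.Agent.SymExt
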