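import Pool.Agent.SymExt.Basic

/-!
# From forcing semantics to a two-valued model

Löwenheim–Skolem and Rasiowa–Sikorski: if `m`, `e` interpret `∈`, `=` by regular predicates,
then there is a two-valued structure `(M, E)` satisfying everything that is forced.
-/

universe u

namespace Pool.Agent.SymExt

/-- `e` is a congruence for `m` -/
structure Adm {P : Type} [Preorder P] {V : Type u} (m e : V → V → RO P) : Prop where
  refl : ∀ x p, e x x p
  symm : ∀ {x y p}, e x y p → e y x p
  trans : ∀ {x y z p}, e x y p → e y z p → e x z p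
  left : ∀ {x x' y p}, e x x' p → m x y p → m x' y p
  right : ∀ {x y y' p}, e y y' p → m x y p → m x y' p

variable {P : Type} [Preorder P] {V : Type u} {m e : V → V → RO P}

theorem Adm.eval_congr (A : Adm m e) (a : Fm) (s t : ℕ → V) (p : P) (h : ∀ i, e (s i) (t i) p) :
    (roLg m e).eval a s p ↔ (roLg m e).eval a t p := by
  induction a generalizing s t p with
  | mem i j =>
    exact ⟨fun H => A.left (h i) (A.right (h j) H),
      fun H => A.left (A.symm (h i)) (A.right (A.symm (h j)) H)⟩
  | eq i j =>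
    exact ⟨fun H => A.trans (A.symm (h i)) (A.trans H (h j)),
      fun H => A.trans (h i) (A.trans H (A.symm (h j)))⟩
  | bot => exact Iff.rfl
  | imp a b iha ihb =>
    simp only [Lg.eval, ro_imp]
    refine forall_congr' fun q => forall_congr' fun hq => ?_
    have hh : ∀ i, e (s i) (t i) q := fun i => (e _ _).mono hq (h i)
    rw [iha s t q hh, ihb s t q hh]
  | all i a ih =>
    simp only [Lg.eval, ro_all]
    refine forall_congr' fun x => ih _ _ p fun j => ?_
    by_cases hji : j = i
    · subst hji; simpa using A.refl x p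
    · simpa [Function.update_of_ne hji] using h j

section LS

variable (m e) [Nonempty V]

open Classical in
/-- witnesses -/
noncomputable def wit (a : Fm) (i : ℕ) (l : List V) (p : P) : V × P :=
  if h : ∃ t : V × P, t.2 ≤ p ∧
      (roLg m e).eval a (Function.update (fun j => l.getD j (Classical.arbitrary V)) i t.1) t.2
  then h.choose else (Classical.arbitrary V, p)

theorem wit_spec (a : Fm) (i : ℕ) (l : List V) (p : P)
    (h : ∃ t : V × P, t.2 ≤ p ∧
      (roLg m e).eval a (Function.update (fun j => l.getD j (Classical.arbitrary V)) i t.1) t.2) :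
    (wit m e a i l p).2 ≤ p ∧ (roLg m e).eval a
      (Function.update (fun j => l.getD j (Classical.arbitrary V)) i (wit m e a i l p).1)
      (wit m e a i l p).2 := by
  rw [wit, dif_pos h]
  exact h.choose_spec

/-- the stages of the Löwenheim–Skolem construction -/
noncomputable def stage (s₀ : ℕ → V) (p₀ : P) : ℕ → Set V × Set P
  | 0 => (Set.range s₀, {p₀})
  | n + 1 =>
    ((stage s₀ p₀ n).1 ∪ Set.range (fun t : Fm × ℕ × List (stage s₀ p₀ n).1 × (stage s₀ p₀ n).2 =>
        (wit m e t.1 t.2.1 (t.2.2.1.map Subtype.val) t.2.2.2.1).1),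
     (stage s₀ p₀ n).2 ∪ Set.range (fun t : Fm × ℕ × List (stage s₀ p₀ n).1 × (stage s₀ p₀ n).2 =>
        (wit m e t.1 t.2.1 (t.2.2.1.map Subtype.val) t.2.2.2.1).2))

theorem stage_countable (s₀ : ℕ → V) (p₀ : P) (n : ℕ) :
    (stage m e s₀ p₀ n).1.Countable ∧ (stage m e s₀ p₀ n).2.Countable := by
  induction n with
  | zero => exact ⟨Set.countable_range _, Set.countable_singleton _⟩
  | succ n ih =>
    have h1 := ih.1.to_subtype
    have h2 := ih.2.to_subtype
    exact ⟨ih.1.union (Set.countable_range _), ih.2.union (Set.countable_range _)⟩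

theorem stage_mono (s₀ : ℕ → V) (p₀ : P) {n k : ℕ} (h : n ≤ k) :
    (stage m e s₀ p₀ n).1 ⊆ (stage m e s₀ p₀ k).1 ∧ (stage m e s₀ p₀ n).2 ⊆ (stage m e s₀ p₀ k).2 := by
  induction k, h using Nat.le_induction with
  | base => exact ⟨subset_rfl, subset_rfl⟩
  | succ k _ ih =>
    exact ⟨ih.1.trans Set.subset_union_left, ih.2.trans Set.subset_union_left⟩

theorem exists_LS (s₀ : ℕ → V) (p₀ : P) : ∃ (A : Set V) (B : Set P), A.Countable ∧
    B.Countable ∧ (∀ i, s₀ i ∈ A) ∧ p₀ ∈ B ∧ ∀ (a : Fm) (i : ℕ) (s : ℕ → V), (∀ j, s j ∈ A) → ∀ p ∈ B,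
      (∃ x, ∃ q ≤ p, (roLg m e).eval a (Function.update s i x) q) →
      ∃ x ∈ A, ∃ q ∈ B, q ≤ p ∧ (roLg m e).eval a (Function.update s i x) q := by
  refine ⟨⋃ n, (stage m e s₀ p₀ n).1, ⋃ n, (stage m e s₀ p₀ n).2,
    Set.countable_iUnion fun n => (stage_countable m e s₀ p₀ n).1,
    Set.countable_iUnion fun n => (stage_countable m e s₀ p₀ n).2,
    fun i => Set.mem_iUnion.2 ⟨0, ⟨i, rfl⟩⟩, Set.mem_iUnion.2 ⟨0, rfl⟩, ?_⟩
  intro a i s hs p hp ⟨x, q, hq, hx⟩
  have key : ∀ k : ℕ, ∃ n, ∀ j < k, s j ∈ (stage m e s₀ p₀ n).1 := by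
    intro k
    induction k with
    | zero => exact ⟨0, fun j hj => absurd hj (by omega)⟩
    | succ k ih =>
      obtain ⟨n, hn⟩ := ih
      obtain ⟨n', hn'⟩ := Set.mem_iUnion.1 (hs k)
      refine ⟨max n n', fun j hj => ?_⟩
      rcases Nat.lt_succ_iff_lt_or_eq.1 hj with h | h
      · exact (stage_mono m e s₀ p₀ (le_max_left _ _)).1 (hn j h)
      · subst h; exact (stage_mono m e s₀ p₀ (le_max_right _ _)).1 hn'
  obtain ⟨n₁, hn₁⟩ := key a.bd
  obtain ⟨n₂, hn₂⟩ := Set.mem_iUnion.1 hp
  obtain ⟨n, h1, h2⟩ : ∃ n, n₁ ≤ n ∧ n₂ ≤ n := ⟨_, le_max_left _ _, le_max_right _ _⟩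
  have hA : ∀ j < a.bd, s j ∈ (stage m e s₀ p₀ n).1 := fun j hj => (stage_mono m e s₀ p₀ h1).1 (hn₁ j hj)
  have hB : p ∈ (stage m e s₀ p₀ n).2 := (stage_mono m e s₀ p₀ h2).2 hn₂
  let l : List (stage m e s₀ p₀ n).1 := List.ofFn fun j : Fin a.bd => ⟨s j, hA j j.2⟩
  have hl : ∀ j < a.bd, (l.map Subtype.val).getD j (Classical.arbitrary V) = s j := by
    intro j hj
    have : j < (l.map Subtype.val).length := by simp [l, hj]
    rw [List.getD_eq_getElem _ _ this]
    simp [l]
  have hev : ∀ y q, (roLg m e).eval a (Function.update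
      (fun j => (l.map Subtype.val).getD j (Classical.arbitrary V)) i y) q ↔
      (roLg m e).eval a (Function.update s i y) q := by
    intro y q
    rw [(roLg m e).eval_congr a _ (Function.update s i y)]
    intro j hj
    by_cases hji : j = i
    · subst hji; simp
    · rw [Function.update_of_ne hji, Function.update_of_ne hji, hl j hj]
  have hw := wit_spec m e a i (l.map Subtype.val) p ⟨(x, q), hq, (hev x q).2 hx⟩
  refine ⟨(wit m e a i (l.map Subtype.val) p).1, ?_, (wit m e a i (l.map Subtype.val) p).2, ?_,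
    hw.1, (hev _ _).1 hw.2⟩
  · exact Set.mem_iUnion.2 ⟨n + 1, Or.inr ⟨(a, i, l, ⟨p, hB⟩), rfl⟩⟩
  · exact Set.mem_iUnion.2 ⟨n + 1, Or.inr ⟨(a, i, l, ⟨p, hB⟩), rfl⟩⟩

end LS

/-- a two-valued structure satisfying everything that `p₀` forces -/
theorem generic_model (A : Adm m e) (s₀ : ℕ → V) (p₀ : P) :
    ∃ (M : Type) (E : M → M → Prop) (t₀ : ℕ → M),
      (∀ a : Fm, (roLg m e).eval a s₀ p₀ → (propLg E).eval a t₀) ∧ ∀ a : Fm,
      (∀ s : ℕ → V, (roLg m e).eval a s p₀) → ∀ t : ℕ → M, (propLg E).eval a t := by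
  have : Nonempty V := ⟨s₀ 0⟩
  obtain ⟨C, B, hC, hB, hCne, hp₀, hLS⟩ := exists_LS m e s₀ p₀
  have : Countable C := hC.to_subtype
  have : Nonempty C := ⟨⟨s₀ 0, hCne 0⟩⟩
  obtain ⟨f, hf⟩ := exists_surjective_nat C
  -- the requirements
  let req : Fm × ℕ × List ℕ → P → Prop := fun t q =>
    (¬ ∃ x, ∃ r ≤ q, (roLg m e).eval t.1
      (Function.update (fun j => (f (t.2.2.getD j 0) : V)) t.2.1 x) r) ∨
    ∃ k : ℕ, (roLg m e).eval t.1
      (Function.update (fun j => (f (t.2.2.getD j 0) : V)) t.2.1 (f k)) q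
  have hreq : ∀ t, ∀ p ∈ B, ∃ q ∈ B, q ≤ p ∧ req t q := by
    intro t p hp
    by_cases h : ∃ x, ∃ r ≤ p, (roLg m e).eval t.1
      (Function.update (fun j => (f (t.2.2.getD j 0) : V)) t.2.1 x) r
    · obtain ⟨x, hx, q, hq, hqp, h⟩ := hLS t.1 t.2.1 _ (fun j => (f (t.2.2.getD j 0)).2) p hp h
      obtain ⟨k, hk⟩ := hf ⟨x, hx⟩
      refine ⟨q, hq, hqp, Or.inr ⟨k, ?_⟩⟩
      rw [hk]; exact h
    · exact ⟨p, hp, le_rfl, Or.inl h⟩
  choose! nx hnx1 hnx2 hnx3 using hreq
  let g : ℕ → P := fun n => Nat.rec p₀ (fun n q =>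
    match (Encodable.decode n : Option (Fm × ℕ × List ℕ)) with
    | some t => nx t q
    | none => q) n
  have g0 : g 0 = p₀ := rfl
  have gs : ∀ n, g (n + 1) = match (Encodable.decode n : Option (Fm × ℕ × List ℕ)) with
    | some t => nx t (g n)
    | none => g n := fun n => rfl
  have gB : ∀ n, g n ∈ B := by
    intro n
    induction n with
    | zero => exact hp₀
    | succ n ih =>
      rw [gs]
      cases (Encodable.decode n : Option (Fm × ℕ × List ℕ)) with
      | none => exact ih
      | some t => exact hnx1 t _ ih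
  have gle : ∀ n, g (n + 1) ≤ g n := by
    intro n
    rw [gs]
    cases (Encodable.decode n : Option (Fm × ℕ × List ℕ)) with
    | none => exact le_rfl
    | some t => exact hnx2 t _ (gB n)
  have ganti : ∀ {n k}, n ≤ k → g k ≤ g n := by
    intro n k h
    induction k, h using Nat.le_induction with
    | base => exact le_rfl
    | succ k _ ih => exact (gle k).trans ih
  have greq : ∀ t, ∃ n, req t (g n) := by
    intro t
    refine ⟨Encodable.encode t + 1, ?_⟩
    rw [gs, Encodable.encodek]
    exact hnx3 t _ (gB _)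
  -- valuations into ℕ
  let T : Fm → (ℕ → ℕ) → Prop := fun a s => ∃ n, (roLg m e).eval a (fun j => (f (s j) : V)) (g n)
  have upd : ∀ (s : ℕ → ℕ) i k, (fun j => (f (Function.update s i k j) : V)) =
      Function.update (fun j => (f (s j) : V)) i (f k) := by
    intro s i k
    funext j
    by_cases hji : j = i
    · subst hji; simp
    · simp [Function.update_of_ne hji]
  have greq' : ∀ (a : Fm) (i : ℕ) (s : ℕ → ℕ), ∃ n,
      (¬ ∃ x, ∃ r ≤ g n, (roLg m e).eval a (Function.update (fun j => (f (s j) : V)) i x) r) ∨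
      ∃ k : ℕ, (roLg m e).eval a (Function.update (fun j => (f (s j) : V)) i (f k)) (g n) := by
    intro a i s
    obtain ⟨n, hn⟩ := greq (a, i, List.ofFn fun j : Fin a.bd => s j)
    refine ⟨n, ?_⟩
    have hev : ∀ y q, (roLg m e).eval a (Function.update
        (fun j => (f ((List.ofFn fun j : Fin a.bd => s j).getD j 0) : V)) i y) q ↔
        (roLg m e).eval a (Function.update (fun j => (f (s j) : V)) i y) q := by
      intro y q
      rw [(roLg m e).eval_congr a _ (Function.update (fun j => (f (s j) : V)) i y)]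
      intro j hj
      by_cases hji : j = i
      · subst hji; simp
      · rw [Function.update_of_ne hji, Function.update_of_ne hji]
        have : j < (List.ofFn fun j : Fin a.bd => s j).length := by simp [hj]
        rw [List.getD_eq_getElem _ _ this]
        simp
    simp only [req, hev] at hn
    exact hn
  have Tneg : ∀ a s, T (.neg a) s ↔ ¬ T a s := by
    intro a s
    constructor
    · rintro ⟨n, hn⟩ ⟨k, hk⟩
      rw [Lg.eval_neg, ro_neg] at hn
      exact hn (g (max n k)) (ganti (le_max_left _ _)) (RO.mono _ (ganti (le_max_right _ _)) hk)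
    · intro h
      obtain ⟨n, hn | ⟨k, hk⟩⟩ := greq' a a.bd s
      · refine ⟨n, ?_⟩
        rw [Lg.eval_neg, ro_neg]
        intro q hq hq'
        refine hn ⟨f 0, q, hq, ?_⟩
        rwa [(roLg m e).eval_congr a _ (fun j => (f (s j) : V))]
        intro j hj
        rw [Function.update_of_ne (by omega)]
      · refine absurd ⟨n, ?_⟩ h
        rwa [(roLg m e).eval_congr a _ (Function.update (fun j => (f (s j) : V)) a.bd (f k))]
        intro j hj
        rw [Function.update_of_ne (by omega)]
  have Timp : ∀ a b s, T (.imp a b) s ↔ (T a s → T b s) := by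
    intro a b s
    constructor
    · rintro ⟨n, hn⟩ ⟨k, hk⟩
      exact ⟨max n k, hn (g (max n k)) (ganti (le_max_left _ _))
        (RO.mono _ (ganti (le_max_right _ _)) hk)⟩
    · intro h
      by_cases ha : T a s
      · obtain ⟨n, hn⟩ := h ha
        exact ⟨n, fun q hq _ => RO.mono _ hq hn⟩
      · rw [← Tneg] at ha
        obtain ⟨n, hn⟩ := ha
        exact ⟨n, fun q hq hq' => absurd hq' (hn q hq)⟩
  have Tall : ∀ i a s, T (.all i a) s ↔ ∀ k, T a (Function.update s i k) := by
    intro i a s
    constructor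
    · rintro ⟨n, hn⟩ k
      refine ⟨n, ?_⟩
      rw [upd]
      exact hn (f k)
    · intro h
      obtain ⟨n, hn | ⟨k, hk⟩⟩ := greq' (.neg a) i s
      · refine ⟨n, fun x => RO.dense _ fun q hq => ?_⟩
        by_contra hc
        push Not at hc
        refine hn ⟨x, q, hq, ?_⟩
        rw [Lg.eval_neg, ro_neg]
        exact hc
      · have := h k
        have hneg : T (.neg a) (Function.update s i k) := ⟨n, by rw [upd]; exact hk⟩
        rw [Tneg] at hneg
        exact absurd this hneg
  -- the model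
  let r : Setoid ℕ := {
    r := fun x y => ∃ n, e (f x : V) (f y) (g n)
    iseqv := {
      refl := fun x => ⟨0, A.refl _ _⟩
      symm := fun ⟨n, h⟩ => ⟨n, A.symm h⟩
      trans := fun {x y z} ⟨n, h⟩ ⟨k, h'⟩ => ⟨max n k,
        A.trans (RO.mono (e (f x : V) (f y)) (ganti (le_max_left n k)) h)
          (RO.mono (e (f y : V) (f z)) (ganti (le_max_right n k)) h')⟩ } }
  let E : Quotient r → Quotient r → Prop := Quotient.lift₂
    (fun x y => ∃ n, m (f x : V) (f y) (g n)) (by
      intro a b a' b' ⟨n, h⟩ ⟨n', h'⟩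
      have h1 : ∀ k, n ≤ k → e (f a : V) (f a') (g k) := fun k hk => (e _ _).mono (ganti hk) h
      have h2 : ∀ k, n' ≤ k → e (f b : V) (f b') (g k) := fun k hk => (e _ _).mono (ganti hk) h'
      refine propext ⟨fun ⟨k, hk⟩ => ⟨max k (max n n'), ?_⟩, fun ⟨k, hk⟩ =>
        ⟨max k (max n n'), ?_⟩⟩
      · exact A.left (h1 _ (by omega)) (A.right (h2 _ (by omega))
          ((m _ _).mono (ganti (le_max_left _ _)) hk))
      · exact A.left (A.symm (h1 _ (by omega))) (A.right (A.symm (h2 _ (by omega)))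
          ((m _ _).mono (ganti (le_max_left _ _)) hk)))
  have sat : ∀ (a : Fm) (s : ℕ → ℕ),
      (propLg E).eval a (fun i => Quotient.mk r (s i)) ↔ T a s := by
    intro a
    induction a with
    | mem i j => intro s; exact Iff.rfl
    | eq i j => intro s; exact Quotient.eq (r := r)
    | bot =>
      intro s
      exact ⟨fun h => h.elim, fun ⟨n, h⟩ => h⟩
    | imp a b iha ihb =>
      intro s
      rw [Timp, ← iha, ← ihb]
      exact Iff.rfl
    | all i a ih =>
      intro s
      rw [Tall]
      have key : ∀ k, (propLg E).eval a (Function.update (fun i => Quotient.mk r (s i)) i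
          (Quotient.mk r k)) ↔ T a (Function.update s i k) := by
        intro k
        rw [← ih]
        have : Function.update (fun i => Quotient.mk r (s i)) i (Quotient.mk r k) =
            fun j => Quotient.mk r (Function.update s i k j) := by
          funext j
          by_cases hji : j = i
          · subst hji; simp
          · simp [Function.update_of_ne hji]
        rw [this]
      constructor
      · intro h k
        exact (key k).1 (h _)
      · intro h x
        obtain ⟨k, rfl⟩ := Quotient.exists_rep x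
        exact (key k).2 (h k)
  choose s₁ hs₁ using fun i => hf ⟨s₀ i, hCne i⟩
  refine ⟨Quotient r, E, fun i => Quotient.mk r (s₁ i), fun a ha => ?_, fun a ha t => ?_⟩
  · rw [sat]
    have : (fun j => (f (s₁ j) : V)) = s₀ := by
      funext j
      rw [hs₁]
    exact ⟨0, by rw [this]; exact ha⟩
  · choose s hs using fun i => Quotient.exists_rep (t i)
    have : t = fun i => Quotient.mk r (s i) := funext fun i => (hs i).symm
    rw [this, sat]
    exact ⟨0, ha _⟩

end Pool.Agent.SymExt
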