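import Pool.Agent.SymExt.Names
import Pool.Agent.SymExt.Generic

/-!
# Hereditarily symmetric names
-/

set_option linter.unusedSectionVars false
set_option linter.unusedVariables false

namespace Pool.Agent.SymExt

open Name

/-- a normal filter of subgroups -/
structure NFilter (G : Type) [Group G] where
  mem : Subgroup G → Prop
  top : mem ⊤
  up : ∀ {H K : Subgroup G}, mem H → H ≤ K → mem K
  inf : ∀ {H K : Subgroup G}, mem H → mem K → mem (H ⊓ K)
  conj : ∀ (g : G) {H : Subgroup G}, mem H → mem (H.map (MulAut.conj g).toMonoidHom)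

variable {P : Type} [PartialOrder P] {G : Type} [Group G] [MulAction G P] [OrdAct G P]
  (F : NFilter G)

/-- symmetric names -/
def Sym (x : Name P) : Prop := ∃ H, F.mem H ∧ ∀ g ∈ H, ∀ p : P, feq (g • x) x p

/-- hereditarily symmetric names -/
def HS : Name P → Prop
  | .mk ι x c => Sym F (.mk ι x c) ∧ ∀ i, HS (x i)

theorem HS_iff (x : Name P) : HS F x ↔ Sym F x ∧ ∀ i, HS F (x.el i) := by
  cases x; exact Iff.rfl

theorem Sym_smul (g : G) {x : Name P} (h : Sym F x) : Sym F (g • x) := by
  obtain ⟨H, hH, h⟩ := h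
  refine ⟨_, F.conj g hH, ?_⟩
  rintro _ ⟨k, hk, rfl⟩ p
  have h1 : (MulAut.conj g).toMonoidHom k • g • x = g • k • x := by
    simp [MulAut.conj_apply, mul_smul]
  rw [h1]
  have := feq_smul_of g (h k hk (g⁻¹ • p))
  simpa using this

theorem HS_smul (g : G) {x : Name P} (h : HS F x) : HS F (g • x) := by
  induction x with
  | mk ι x c ih => exact ⟨Sym_smul F g h.1, fun i => ih i (h.2 i)⟩

variable (P) in
/-- the class of hereditarily symmetric names -/
def SN : Type 1 := {x : Name P // HS F x}

namespace SN

variable {F}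

instance : MulAction G (SN P F) where
  smul g x := ⟨g • x.1, HS_smul F g x.2⟩
  one_smul x := Subtype.ext (one_smul _ _)
  mul_smul g h x := Subtype.ext (mul_smul _ _ _)

theorem val_smul (g : G) (x : SN P F) : (g • x).1 = g • x.1 := rfl

/-- forced equality -/
def e (x y : SN P F) : RO P := eqR x.1 y.1

/-- forced membership -/
def m (x y : SN P F) : RO P := memR x.1 y.1

theorem adm : Adm (m : SN P F → SN P F → RO P) e where
  refl x p := feq_refl _ _
  symm h := feq_symm h
  trans h h' := feq_trans h h'
  left h h' := fmem_congr_left h h'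
  right h h' := fmem_congr_right h h'

theorem e_refl (x : SN P F) (p : P) : e x x p := feq_refl _ _
theorem e_symm {x y : SN P F} {p : P} (h : e x y p) : e y x p := feq_symm h
theorem e_trans {x y z : SN P F} {p : P} (h : e x y p) (h' : e y z p) : e x z p := feq_trans h h'
theorem m_left {x x' y : SN P F} {p : P} (h : e x x' p) (h' : m x y p) : m x' y p :=
  fmem_congr_left h h'
theorem m_right {x y y' : SN P F} {p : P} (h : e y y' p) (h' : m x y p) : m x y' p :=
  fmem_congr_right h h'

theorem e_smul (g : G) {x y : SN P F} {p : P} : e (g • x) (g • y) (g • p) ↔ e x y p :=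
  feq_smul g

theorem m_smul (g : G) {x y : SN P F} {p : P} : m (g • x) (g • y) (g • p) ↔ m x y p :=
  fmem_smul g

/-- the forcing semantics of the symmetric extension -/
abbrev lg : Lg (RO P) (SN P F) := roLg m e

theorem eval_smul (g : G) (a : Fm) (s : ℕ → SN P F) (p : P) :
    lg.eval a (fun i => g • s i) (g • p) ↔ lg.eval a s p := by
  induction a generalizing s p with
  | mem i j => exact m_smul g
  | eq i j => exact e_smul g
  | bot => exact Iff.rfl
  | imp a b iha ihb =>
    simp only [Lg.eval, ro_imp]
    constructor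
    · intro h q hq ha
      rw [← ihb]
      exact h _ (OrdAct.le g hq) ((iha s q).2 ha)
    · intro h q hq ha
      have h1 := h (g⁻¹ • q) ((smul_le_iff' g⁻¹).2 (by simpa using hq))
      rw [← iha, ← ihb, smul_inv_smul] at h1
      exact h1 ha
  | all i a ih =>
    simp only [Lg.eval, ro_all]
    have key : ∀ x, (lg.eval a (Function.update (fun i => g • s i) i (g • x)) (g • p)) ↔
        lg.eval a (Function.update s i x) p := by
      intro x
      have : Function.update (fun i => g • s i) i (g • x) =
          fun j => g • Function.update s i x j := by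
        funext j
        by_cases hji : j = i
        · subst hji; simp
        · simp [Function.update_of_ne hji]
      rw [this]
      exact ih _ _
    constructor
    · intro h x
      exact (key x).1 (h _)
    · intro h x
      have := (key (g⁻¹ • x)).2 (h _)
      rwa [smul_inv_smul] at this

/-- finitely many symmetric names have a common supporting subgroup -/
theorem exists_support (s : ℕ → SN P F) (n : ℕ) :
    ∃ H, F.mem H ∧ ∀ g ∈ H, ∀ i < n, ∀ p : P, e (g • s i) (s i) p := by
  induction n with
  | zero => exact ⟨⊤, F.top, fun g _ i hi => absurd hi (by omega)⟩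
  | succ n ih =>
    obtain ⟨H, hH, h⟩ := ih
    obtain ⟨K, hK, h'⟩ := ((HS_iff F _).1 (s n).2).1
    refine ⟨H ⊓ K, F.inf hH hK, fun g hg i hi p => ?_⟩
    rcases Nat.lt_succ_iff_lt_or_eq.1 hi with hi | rfl
    · exact h g hg.1 i hi p
    · exact h' g hg.2 p

theorem exists_inv (a : Fm) (s : ℕ → SN P F) : ∃ H, F.mem H ∧ ∀ g ∈ H, ∀ (i : ℕ) (z : SN P F)
    (p : P), lg.eval a (Function.update s i z) p →
      lg.eval a (Function.update s i (g • z)) (g • p) := by
  obtain ⟨H, hH, h⟩ := exists_support s a.bd
  refine ⟨H, hH, fun g hg i z p hp => ?_⟩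
  rw [← eval_smul g] at hp
  rw [lg.eval_congr a _ (Function.update (fun j => if j < a.bd then g • s j else s j) i (g • z))]
    at hp
  · refine (adm.eval_congr a _ _ _ fun j => ?_).1 hp
    by_cases hji : j = i
    · subst hji; simpa using e_refl _ _
    · rw [Function.update_of_ne hji, Function.update_of_ne hji]
      split_ifs with hj
      · exact h g hg j hj _
      · exact e_refl _ _
  · intro j hj
    by_cases hji : j = i
    · subst hji; simp
    · rw [Function.update_of_ne hji, Function.update_of_ne hji, if_pos hj]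

/-- criterion for a name to be symmetric -/
theorem sym_of (ι : Type) (y : ι → SN P F) (c : ι → P) {H : Subgroup G} (hH : F.mem H)
    (h : ∀ g ∈ H, ∀ (z : SN P F) (p : P), fmem z.1 (.mk ι (fun i => (y i).1) c) p →
      fmem (g • z).1 (.mk ι (fun i => (y i).1) c) (g • p)) :
    HS F (.mk ι (fun i => (y i).1) c) := by
  refine ⟨⟨H, hH, fun g hg p => feq_of_el ?_ ?_⟩, fun i => (y i).2⟩
  · intro i q _ hq
    have := h g hg (y i) (c i) (fmem_el (.mk ι (fun i => (y i).1) c) i (p := c i) le_rfl)
    exact fmem_mono hq this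
  · intro i q _ hq
    have := h g⁻¹ (H.inv_mem hg) (y i) q (fmem_el (.mk ι (fun i => (y i).1) c) i (p := q) hq)
    have := fmem_smul_of g this
    rw [smul_inv_smul, val_smul, smul_inv_smul] at this
    exact this

/-- build an element of the symmetric extension -/
theorem exists_mk (ι : Type) (y : ι → SN P F) (c : ι → P) (D : SN P F → P → Prop)
    (hD : ∀ z p, D z p ↔ ∀ q ≤ p, ∃ r ≤ q, ∃ i, r ≤ c i ∧ e z (y i) r)
    {H : Subgroup G} (hH : F.mem H)
    (h : ∀ g ∈ H, ∀ (z : SN P F) (p : P), D z p → D (g • z) (g • p)) :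
    ∃ x : SN P F, ∀ z p, m z x p ↔ D z p := by
  refine ⟨⟨_, sym_of ι y c hH fun g hg z p hz => ?_⟩, fun z p => ?_⟩
  · have := h g hg z p ((hD z p).2 hz)
    exact (hD _ _).1 this
  · rw [hD]; exact Iff.rfl

theorem m_el (x z : SN P F) (p : P) : m z x p ↔
    ∀ q ≤ p, ∃ r ≤ q, ∃ i : x.1.Idx, r ≤ x.1.cd i ∧ e z ⟨x.1.el i, ((HS_iff F _).1 x.2).2 i⟩ r :=
  Iff.rfl

end SN

end Pool.Agent.SymExt
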