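import Pool.Agent.SymExt.ZFax

/-!
# A two-valued model of `ZF` from a symmetric extension
-/

set_option linter.unusedSectionVars false
set_option linter.unusedVariables false

universe u

namespace Pool.Agent.SymExt

/-- the axioms of `ZF`, with the schemas for the formulas `Fm` -/
structure IsZFm {M : Type u} (E : M → M → Prop) : Prop where
  nonempty : Nonempty M
  extensionality : ∀ x y, (∀ z, E z x ↔ E z y) → x = y
  foundation : ∀ x, (∃ y, E y x) → ∃ y, E y x ∧ ∀ z, E z x → ¬ E z y
  pairing : ∀ x y, ∃ p, ∀ z, E z p ↔ z = x ∨ z = y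
  union : ∀ x, ∃ u, ∀ z, E z u ↔ ∃ y, E z y ∧ E y x
  power : ∀ x, ∃ p, ∀ z, E z p ↔ ∀ w, E w z → E w x
  infinity : ∃ x, (∃ e, E e x ∧ ∀ z, ¬ E z e) ∧
    ∀ y, E y x → ∃ s, E s x ∧ ∀ z, E z s ↔ E z y ∨ z = y
  separation : ∀ (a : Fm) (s : ℕ → M) (i : ℕ) (x : M), ∃ y, ∀ z,
    E z y ↔ E z x ∧ (propLg E).eval a (Function.update s i z)
  collection : ∀ (a : Fm) (s : ℕ → M) (i j : ℕ) (x : M),
    (∀ z, E z x → ∃ y, (propLg E).eval a (Function.update (Function.update s i z) j y)) →
    ∃ B, ∀ z, E z x → ∃ y, E y B ∧
      (propLg E).eval a (Function.update (Function.update s i z) j y)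

variable {P : Type} [PartialOrder P] [OrderTop P] {G : Type} [Group G] [MulAction G P]
  [OrdAct G P] (F : NFilter G)

open SN in
theorem exists_model (s₀ : ℕ → SN P F) (p₀ : P) :
    ∃ (M : Type) (E : M → M → Prop) (t₀ : ℕ → M), IsZFm E ∧
    (∀ a : Fm, lg.eval a s₀ p₀ → (propLg E).eval a t₀) ∧ ∀ a : Fm,
    (∀ s : ℕ → SN P F, lg.eval a s (⊤ : P)) → ∀ t : ℕ → M, (propLg E).eval a t := by
  obtain ⟨M, E, t₀, h₀, h'⟩ := generic_model (m := (m : SN P F → SN P F → RO P)) (e := e)
    adm s₀ p₀
  have hne : Nonempty M := ⟨t₀ 0⟩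
  have h : ∀ a : Fm, (∀ s : ℕ → SN P F, lg.eval a s (⊤ : P)) → ∀ t : ℕ → M,
      (propLg E).eval a t := fun a ha t => h' a (fun s => RO.mono _ le_top (ha s)) t
  refine ⟨M, E, t₀, ⟨hne, ?_, ?_, ?_, ?_, ?_, ?_, ?_, ?_⟩, h₀, h⟩
  · -- extensionality
    have := h (.all 0 (.all 1 (.imp (.all 2 (.iff (.mem 2 0) (.mem 2 1))) (.eq 0 1)))) (by
      intro s
      simp only [Lg.eval, Lg.eval_iff, ro_all, ro_imp, ro_iff, ro_mem, ro_eq,
        Function.update_apply]
      simp
      intro x y q hq
      exact e_ext fun r hr z => hq z r hr) (fun _ => hne.some)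
    simp only [Lg.eval, Lg.eval_iff, prop_all, prop_imp, prop_iff, prop_mem, prop_eq,
        Function.update_apply] at this
    simpa using this
  · -- foundation
    have := h (.all 0 (.imp (.ex 1 (.mem 1 0)) (.ex 1 (.and (.mem 1 0)
        (.all 2 (.imp (.mem 2 0) (.neg (.mem 2 1)))))))) (by
      intro s
      simp only [Lg.eval, Lg.eval_ex, Lg.eval_and, Lg.eval_neg, ro_all, ro_imp, ro_ex, ro_and,
        ro_neg, ro_mem, ro_eq, Function.update_apply]
      simp
      intro x p hp q hq
      obtain ⟨r, hr, z, hz⟩ := hp q hq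
      obtain ⟨r', hr', y, hy, hy'⟩ := foundation_aux x z.1 z.2 r hz
      exact ⟨r', hr'.trans hr, y, hy, fun w t ht hw t' ht' hw' =>
        hy' w t' (ht'.trans ht) hw' (RO.mono _ ht' hw)⟩) (fun _ => hne.some)
    simp only [Lg.eval, Lg.eval_ex, Lg.eval_and, Lg.eval_neg, prop_all, prop_imp, prop_ex,
      prop_and, prop_neg, prop_mem, prop_eq, Function.update_apply] at this
    simpa using this
  · -- pairing
    have := h (.all 0 (.all 1 (.ex 2 (.all 3 (.iff (.mem 3 2) (.or (.eq 3 0) (.eq 3 1))))))) (by
      intro s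
      simp only [Lg.eval, Lg.eval_ex, Lg.eval_iff, Lg.eval_or, ro_all, ro_iff, ro_ex, ro_or,
        ro_mem, ro_eq, Function.update_apply]
      simp
      intro x y q
      obtain ⟨z, hz⟩ := exists_pair x y
      exact ⟨q, le_rfl, z, fun w r _ => hz w r⟩) (fun _ => hne.some)
    simp only [Lg.eval, Lg.eval_ex, Lg.eval_iff, Lg.eval_or, prop_all, prop_ex,
      prop_iff, prop_or, prop_mem, prop_eq, Function.update_apply] at this
    simpa using this
  · -- union
    have := h (.all 0 (.ex 1 (.all 2 (.iff (.mem 2 1) (.ex 3 (.and (.mem 2 3) (.mem 3 0))))))) (by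
      intro s
      simp only [Lg.eval, Lg.eval_ex, Lg.eval_iff, Lg.eval_and, ro_all, ro_iff, ro_ex, ro_and,
        ro_mem, ro_eq, Function.update_apply]
      simp
      intro x q
      obtain ⟨z, hz⟩ := exists_union x
      exact ⟨q, le_rfl, z, fun w r _ => hz w r⟩) (fun _ => hne.some)
    simp only [Lg.eval, Lg.eval_ex, Lg.eval_iff, Lg.eval_and, prop_all, prop_ex,
      prop_iff, prop_and, prop_mem, prop_eq, Function.update_apply] at this
    simpa using this
  · -- power set
    have := h (.all 0 (.ex 1 (.all 2 (.iff (.mem 2 1) (.all 3 (.imp (.mem 3 2) (.mem 3 0))))))) (by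
      intro s
      simp only [Lg.eval, Lg.eval_ex, Lg.eval_iff, ro_all, ro_iff, ro_ex, ro_imp,
        ro_mem, ro_eq, Function.update_apply]
      simp
      intro x q
      obtain ⟨z, hz⟩ := exists_power x
      refine ⟨q, le_rfl, z, fun w r _ => (hz w r).trans ?_⟩
      exact ⟨fun h v t ht hv => h t ht v hv, fun h t ht v hv => h v t ht hv⟩)
      (fun _ => hne.some)
    simp only [Lg.eval, Lg.eval_ex, Lg.eval_iff, prop_all, prop_ex,
      prop_iff, prop_imp, prop_mem, prop_eq, Function.update_apply] at this
    simpa using this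
  · -- infinity
    have := h (.ex 0 (.and (.ex 1 (.and (.mem 1 0) (.all 2 (.neg (.mem 2 1)))))
        (.all 1 (.imp (.mem 1 0) (.ex 2 (.and (.mem 2 0)
          (.all 3 (.iff (.mem 3 2) (.or (.mem 3 1) (.eq 3 1)))))))))) (by
      intro s
      simp only [Lg.eval, Lg.eval_ex, Lg.eval_iff, Lg.eval_and, Lg.eval_neg, Lg.eval_or, ro_all,
        ro_iff, ro_ex, ro_imp, ro_and, ro_neg, ro_or, ro_mem, ro_eq, Function.update_apply]
      simp
      intro q
      obtain ⟨x, hx, hx'⟩ := exists_omega (P := P) (F := F)
      refine ⟨q, le_rfl, x, fun r hr => ?_, fun y r hr hy t ht => ?_⟩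
      · obtain ⟨z, hz, hz'⟩ := hx r
        exact ⟨r, le_rfl, z, hz, hz'⟩
      · exact hx' y r hy t ht) (fun _ => hne.some)
    simp only [Lg.eval, Lg.eval_ex, Lg.eval_iff, Lg.eval_and, Lg.eval_neg, Lg.eval_or, prop_all,
      prop_ex, prop_and, prop_or, prop_neg,
      prop_iff, prop_imp, prop_mem, prop_eq, Function.update_apply] at this
    simpa using this
  · -- separation
    intro a s i x
    obtain ⟨N, hN⟩ : ∃ N, N = a.bd + i + 1 := ⟨_, rfl⟩
    have := h (.all N (.ex (N + 1) (.all i (.iff (.mem i (N + 1)) (.and (.mem i N) a))))) (by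
      intro s
      simp only [Lg.eval, Lg.eval_ex, Lg.eval_iff, Lg.eval_and, ro_all, ro_iff, ro_ex, ro_and]
      intro x q _
      obtain ⟨y, hy⟩ := exists_sep a s i x
      refine ⟨q, le_rfl, y, fun z r _ => ?_⟩
      rw [lg.eval_congr a _ (Function.update s i z)]
      · have h1 : i ≠ N := by omega
        have h2 : i ≠ N + 1 := by omega
        have h3 : N + 1 ≠ i := by omega
        have h4 : N ≠ i := by omega
        simpa [Function.update_apply, h1, h2, h3, h4] using hy z r
      · intro j hj
        have h1 : j ≠ N := by omega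
        have h2 : j ≠ N + 1 := by omega
        simp [Function.update_apply, h1, h2]) s x
    beta_reduce at this
    rw [Lg.eval_ex] at this
    simp only [Lg.eval, Lg.eval_iff, Lg.eval_and, prop_all, prop_ex, prop_iff, prop_and] at this
    obtain ⟨y, hy⟩ := this
    refine ⟨y, fun z => ?_⟩
    have := hy z
    rw [(propLg E).eval_congr a _ (Function.update s i z)] at this
    · have h1 : i ≠ N := by omega
      have h2 : i ≠ N + 1 := by omega
      have h3 : N + 1 ≠ i := by omega
      have h4 : N ≠ i := by omega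
      simpa [Function.update_apply, h1, h2, h3, h4] using this
    · intro j hj
      have h1 : j ≠ N := by omega
      have h2 : j ≠ N + 1 := by omega
      simp [Function.update_apply, h1, h2]
  · -- collection
    intro a s i j x hx
    by_cases hij : i = j
    · -- trivial case: the formula does not mention `z`
      subst hij
      by_cases hz : ∃ z, E z x
      · obtain ⟨z₀, hz₀⟩ := hz
        obtain ⟨y, hy⟩ := hx z₀ hz₀
        have := h (.all 0 (.ex 1 (.mem 0 1))) (by
          intro s
          simp only [Lg.eval, Lg.eval_ex, ro_all, ro_ex, ro_mem, Function.update_apply]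
          simp
          intro x q
          obtain ⟨z, hz⟩ := exists_pair x x
          exact ⟨q, le_rfl, z, (hz _ _).2 fun r _ => ⟨r, le_rfl, Or.inl (e_refl _ _)⟩⟩)
          (fun _ => hne.some)
        simp only [Lg.eval, Lg.eval_ex, prop_all, prop_ex, prop_mem, Function.update_apply] at this
        obtain ⟨B, hB⟩ : ∃ B, E y B := by simpa using this y
        exact ⟨B, fun z _ => ⟨y, hB, by simpa using hy⟩⟩
      · exact ⟨x, fun z hz' => absurd ⟨z, hz'⟩ hz⟩
    · obtain ⟨N, hN⟩ : ∃ N, N = a.bd + i + j + 1 := ⟨_, rfl⟩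
      have := h (.all N (.ex (N + 1) (.all i (.imp (.mem i N) (.imp (.ex j a)
          (.ex j (.and (.mem j (N + 1)) a))))))) (by
        intro s
        simp only [Lg.eval, Lg.eval_ex, Lg.eval_and, ro_all, ro_imp, ro_ex, ro_and]
        intro x q _
        obtain ⟨B, hB⟩ := exists_coll a s i j x
        refine ⟨q, le_rfl, B, fun z r _ hr t ht ha t' ht' => ?_⟩
        have cong : ∀ y p, (lg.eval a (Function.update (Function.update (Function.update
            (Function.update s N x) (N + 1) B) i z) j y) p ↔
            lg.eval a (Function.update (Function.update s i z) j y) p) := by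
          intro y p
          rw [lg.eval_congr a]
          intro k hk
          have h1 : k ≠ N := by omega
          have h2 : k ≠ N + 1 := by omega
          simp [Function.update_apply, h1, h2]
        have h1 : i ≠ N := by omega
        have h2 : i ≠ N + 1 := by omega
        have h3 : N ≠ i := by omega
        have h4 : j ≠ N := by omega
        have h5 : j ≠ N + 1 := by omega
        have h6 : N + 1 ≠ j := by omega
        have h7 : N + 1 ≠ i := by omega
        have hzx : m z x r := by simpa [Function.update_apply, h1, h2, h3] using hr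
        obtain ⟨u, hu, y, hy⟩ := ha t' ht'
        rw [cong] at hy
        obtain ⟨v, hv, y', hy'⟩ := hB z u (RO.mono _ (hu.trans (ht'.trans ht)) hzx) ⟨y, hy⟩ u le_rfl
        refine ⟨v, hv.trans hu, y', ?_, (cong _ _).2 hy'.2⟩
        simpa [Function.update_apply, h6, h7] using hy'.1) s x
      beta_reduce at this
      rw [Lg.eval_ex] at this
      simp only [Lg.eval, Lg.eval_ex, Lg.eval_and, prop_all, prop_ex, prop_imp, prop_and] at this
      obtain ⟨B, hB⟩ := this
      refine ⟨B, fun z hz => ?_⟩
      have cong : ∀ y, ((propLg E).eval a (Function.update (Function.update (Function.update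
          (Function.update s N x) (N + 1) B) i z) j y) ↔
          (propLg E).eval a (Function.update (Function.update s i z) j y)) := by
        intro y
        rw [(propLg E).eval_congr a]
        intro k hk
        have h1 : k ≠ N := by omega
        have h2 : k ≠ N + 1 := by omega
        simp [Function.update_apply, h1, h2]
      have h1 : i ≠ N := by omega
      have h2 : i ≠ N + 1 := by omega
      have h3 : N ≠ i := by omega
      have h6 : N + 1 ≠ j := by omega
      have h7 : N + 1 ≠ i := by omega
      have := hB z (by simpa [Function.update_apply, h1, h2, h3] using hz)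
        (by obtain ⟨y, hy⟩ := hx z hz; exact ⟨y, (cong y).2 hy⟩)
      obtain ⟨y, hy, hy'⟩ := this
      exact ⟨y, by simpa [Function.update_apply, h6, h7] using hy, (cong y).1 hy'⟩

/-- what holds in all models of `ZF` is forced -/
theorem forced_of_valid (a : Fm)
    (h : ∀ (M : Type) (E : M → M → Prop), IsZFm E → ∀ t : ℕ → M, (propLg E).eval a t)
    (s : ℕ → SN P F) (p : P) : SN.lg.eval a s p := by
  refine RO.dense _ fun q hq => ?_
  by_contra hc
  push Not at hc
  obtain ⟨M, E, t, hZ, h1, _⟩ := exists_model F s q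
  have := h1 (.neg a) (by rw [Lg.eval_neg, ro_neg]; exact hc)
  rw [Lg.eval_neg, prop_neg] at this
  exact this (h M E hZ t)

end Pool.Agent.SymExt
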