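import Pool.Agent.SymExt.Basic

/-!
# Names and the forcing relation for `=` and `∈`
-/

set_option linter.unusedSectionVars false

namespace Pool.Agent.SymExt

/-- names over a set of conditions `P`: families of pairs (name, condition) -/
inductive Name (P : Type) : Type 1
  | mk (ι : Type) (x : ι → Name P) (c : ι → P) : Name P

namespace Name

variable {P : Type}

/-- index type of the elements -/
def Idx : Name P → Type
  | mk ι _ _ => ι

/-- the elements -/
def el : (x : Name P) → x.Idx → Name P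
  | mk _ x _ => x

/-- the conditions attached to the elements -/
def cd : (x : Name P) → x.Idx → P
  | mk _ _ c => c

variable [Preorder P]

/-- `p` forces `x = y` -/
def feq : Name P → Name P → P → Prop
  | mk ι x c, mk κ y d, p =>
    (∀ i : ι, ∀ q ≤ p, q ≤ c i → ∃ r ≤ q, ∃ j : κ, r ≤ d j ∧ feq (x i) (y j) r) ∧
    (∀ j : κ, ∀ q ≤ p, q ≤ d j → ∃ r ≤ q, ∃ i : ι, r ≤ c i ∧ feq (x i) (y j) r)

/-- `p` forces `x ∈ y` -/
def fmem (x y : Name P) (p : P) : Prop :=
  ∀ q ≤ p, ∃ r ≤ q, ∃ j : y.Idx, r ≤ y.cd j ∧ feq x (y.el j) r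

theorem feq_def (x y : Name P) (p : P) : feq x y p ↔
    (∀ i : x.Idx, ∀ q ≤ p, q ≤ x.cd i → ∃ r ≤ q, ∃ j : y.Idx, r ≤ y.cd j ∧ feq (x.el i) (y.el j) r) ∧
    (∀ j : y.Idx, ∀ q ≤ p, q ≤ y.cd j → ∃ r ≤ q, ∃ i : x.Idx, r ≤ x.cd i ∧
      feq (x.el i) (y.el j) r) := by
  cases x; cases y; exact Iff.rfl

theorem feq_mono {x y : Name P} {p q : P} (hq : q ≤ p) (h : feq x y p) : feq x y q := by
  rw [feq_def] at h ⊢
  exact ⟨fun i r hr hc => h.1 i r (hr.trans hq) hc, fun i r hr hc => h.2 i r (hr.trans hq) hc⟩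

theorem feq_dense {x y : Name P} {p : P} (h : ∀ q ≤ p, ∃ r ≤ q, feq x y r) : feq x y p := by
  rw [feq_def]
  constructor
  · intro i q hq hc
    obtain ⟨r, hr, h⟩ := h q hq
    rw [feq_def] at h
    obtain ⟨s, hs, h⟩ := h.1 i r le_rfl (hr.trans hc)
    exact ⟨s, hs.trans hr, h⟩
  · intro i q hq hc
    obtain ⟨r, hr, h⟩ := h q hq
    rw [feq_def] at h
    obtain ⟨s, hs, h⟩ := h.2 i r le_rfl (hr.trans hc)
    exact ⟨s, hs.trans hr, h⟩

theorem feq_refl (x : Name P) (p : P) : feq x x p := by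
  induction x generalizing p with
  | mk ι x c ih =>
    exact ⟨fun i q _ hc => ⟨q, le_rfl, i, hc, ih i q⟩, fun i q _ hc => ⟨q, le_rfl, i, hc, ih i q⟩⟩

theorem feq_symm {x y : Name P} {p : P} (h : feq x y p) : feq y x p := by
  induction x generalizing y p with
  | mk ι x c ih =>
    rw [feq_def] at h ⊢
    constructor
    · intro j q hq hc
      obtain ⟨r, hr, i, hi, h⟩ := h.2 j q hq hc
      exact ⟨r, hr, i, hi, ih i h⟩
    · intro i q hq hc
      obtain ⟨r, hr, j, hj, h⟩ := h.1 i q hq hc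
      exact ⟨r, hr, j, hj, ih i h⟩

theorem feq_trans {x y z : Name P} {p : P} (h : feq x y p) (h' : feq y z p) : feq x z p := by
  induction x generalizing y z p with
  | mk ι x c ih =>
    rw [feq_def] at h h' ⊢
    constructor
    · intro i q hq hc
      obtain ⟨r, hr, j, hj, e⟩ := h.1 i q hq hc
      obtain ⟨s, hs, k, hk, e'⟩ := h'.1 j r (hr.trans hq) hj
      exact ⟨s, hs.trans hr, k, hk, ih i (feq_mono hs e) e'⟩
    · intro k q hq hc
      obtain ⟨r, hr, j, hj, e⟩ := h'.2 k q hq hc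
      obtain ⟨s, hs, i, hi, e'⟩ := h.2 j r (hr.trans hq) hj
      exact ⟨s, hs.trans hr, i, hi, ih i e' (feq_mono hs e)⟩

theorem fmem_mono {x y : Name P} {p q : P} (hq : q ≤ p) (h : fmem x y p) : fmem x y q :=
  fun r hr => h r (hr.trans hq)

theorem fmem_dense {x y : Name P} {p : P} (h : ∀ q ≤ p, ∃ r ≤ q, fmem x y r) :
    fmem x y p := by
  intro q hq
  obtain ⟨r, hr, h⟩ := h q hq
  obtain ⟨s, hs, h⟩ := h r le_rfl
  exact ⟨s, hs.trans hr, h⟩

theorem fmem_congr_left {x x' y : Name P} {p : P} (h : feq x x' p) (h' : fmem x y p) :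
    fmem x' y p := by
  intro q hq
  obtain ⟨r, hr, j, hj, e⟩ := h' q hq
  exact ⟨r, hr, j, hj, feq_trans (feq_symm (feq_mono (hr.trans hq) h)) e⟩

theorem fmem_congr_right {x y y' : Name P} {p : P} (h : feq y y' p) (h' : fmem x y p) :
    fmem x y' p := by
  intro q hq
  obtain ⟨r, hr, j, hj, e⟩ := h' q hq
  rw [feq_def] at h
  obtain ⟨s, hs, k, hk, e'⟩ := h.1 j r (hr.trans hq) hj
  exact ⟨s, hs.trans hr, k, hk, feq_trans (feq_mono hs e) e'⟩

theorem fmem_el (y : Name P) (j : y.Idx) {p : P} (h : p ≤ y.cd j) : fmem (y.el j) y p :=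
  fun q hq => ⟨q, le_rfl, j, hq.trans h, feq_refl _ _⟩

/-- extensionality, with quantifiers over the elements only -/
theorem feq_of_el {x y : Name P} {p : P} (h : ∀ i : x.Idx, ∀ q ≤ p, q ≤ x.cd i → fmem (x.el i) y q)
    (h' : ∀ j : y.Idx, ∀ q ≤ p, q ≤ y.cd j → fmem (y.el j) x q) : feq x y p := by
  rw [feq_def]
  constructor
  · intro i q hq hc
    obtain ⟨r, hr, j, hj, e⟩ := h i q hq hc q le_rfl
    exact ⟨r, hr, j, hj, e⟩
  · intro j q hq hc
    obtain ⟨r, hr, i, hi, e⟩ := h' j q hq hc q le_rfl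
    exact ⟨r, hr, i, hi, feq_symm e⟩

/-- `x = y` as a truth value -/
def eqR (x y : Name P) : RO P := ⟨feq x y, fun h => feq_mono h, fun h => feq_dense h⟩

/-- `x ∈ y` as a truth value -/
def memR (x y : Name P) : RO P := ⟨fmem x y, fun h => fmem_mono h, fun h => fmem_dense h⟩

@[simp] theorem eqR_ok (x y : Name P) (p : P) : eqR x y p ↔ feq x y p := Iff.rfl
@[simp] theorem memR_ok (x y : Name P) (p : P) : memR x y p ↔ fmem x y p := Iff.rfl

end Name

/-! ### group actions -/

section act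

variable {P : Type} [Preorder P] {G : Type} [Group G] [MulAction G P]

/-- the group acts by automorphisms of the order -/
class OrdAct (G P : Type) [Group G] [Preorder P] [MulAction G P] : Prop where
  le : ∀ (g : G) {p q : P}, p ≤ q → g • p ≤ g • q

theorem smul_le_smul_iff' [OrdAct G P] (g : G) {p q : P} : g • p ≤ g • q ↔ p ≤ q := by
  refine ⟨fun h => ?_, fun h => OrdAct.le g h⟩
  simpa using OrdAct.le g⁻¹ h

theorem smul_le_iff' [OrdAct G P] (g : G) {p q : P} : g • p ≤ q ↔ p ≤ g⁻¹ • q := by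
  rw [← smul_le_smul_iff' g⁻¹, inv_smul_smul]

theorem le_smul_iff' [OrdAct G P] (g : G) {p q : P} : q ≤ g • p ↔ g⁻¹ • q ≤ p := by
  rw [← smul_le_smul_iff' g⁻¹, inv_smul_smul]

namespace Name

/-- the action on names -/
def act (g : G) : Name P → Name P
  | mk ι x c => mk ι (fun i => act g (x i)) (fun i => g • c i)

instance : MulAction G (Name P) where
  smul := act
  one_smul := by
    intro x
    induction x with
    | mk ι x c ih =>
      change mk ι (fun i => act (1 : G) (x i)) (fun i => (1 : G) • c i) = _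
      congr 1
      · funext i; exact ih i
      · funext i; exact one_smul _ _
  mul_smul := by
    intro g h x
    induction x with
    | mk ι x c ih =>
      change mk ι (fun i => act (g * h) (x i)) (fun i => (g * h) • c i) =
        mk ι (fun i => act g (act h (x i))) (fun i => g • (h • c i))
      congr 1
      · funext i; exact ih i
      · funext i; exact mul_smul _ _ _

theorem smul_mk (g : G) (ι : Type) (x : ι → Name P) (c : ι → P) :
    g • mk ι x c = mk ι (fun i => g • x i) (fun i => g • c i) := rfl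

variable [OrdAct G P]

theorem feq_smul_of (g : G) {x y : Name P} {p : P} (h : feq x y p) :
    feq (g • x) (g • y) (g • p) := by
  induction x generalizing y p with
  | mk ι x c ih =>
    cases y with
    | mk κ y d =>
      rw [feq_def] at h
      rw [smul_mk, smul_mk, feq_def]
      constructor
      · intro i q hq hc
        change q ≤ g • c i at hc
        rw [le_smul_iff'] at hq hc
        obtain ⟨r, hr, j, hj, e⟩ := h.1 i _ hq hc
        refine ⟨g • r, ?_, j, OrdAct.le g hj, ih i e⟩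
        rw [smul_le_iff']; exact hr
      · intro j q hq hc
        change q ≤ g • d j at hc
        rw [le_smul_iff'] at hq hc
        obtain ⟨r, hr, i, hi, e⟩ := h.2 j _ hq hc
        refine ⟨g • r, ?_, i, OrdAct.le g hi, ih i e⟩
        rw [smul_le_iff']; exact hr

theorem feq_smul (g : G) {x y : Name P} {p : P} :
    feq (g • x) (g • y) (g • p) ↔ feq x y p :=
  ⟨fun h => by simpa using feq_smul_of g⁻¹ h, feq_smul_of g⟩

theorem fmem_smul_of (g : G) {x y : Name P} {p : P} (h : fmem x y p) :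
    fmem (g • x) (g • y) (g • p) := by
  cases y with
  | mk κ y d =>
    intro q hq
    rw [le_smul_iff'] at hq
    obtain ⟨r, hr, j, hj, e⟩ := h _ hq
    refine ⟨g • r, ?_, j, OrdAct.le g hj, feq_smul_of g e⟩
    rw [smul_le_iff']; exact hr

theorem fmem_smul (g : G) {x y : Name P} {p : P} :
    fmem (g • x) (g • y) (g • p) ↔ fmem x y p :=
  ⟨fun h => by simpa using fmem_smul_of g⁻¹ h, fmem_smul_of g⟩

end Name

end act

end Pool.Agent.SymExt
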