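import Pool.Agent.SymExt.Model

/-!
# Set-theoretic notions, evaluated in an arbitrary logic, and the formulas defining them
-/

set_option linter.unusedSectionVars false
set_option linter.unusedVariables false

universe u v

namespace Pool.Agent.SymExt

namespace Lg

variable {Ω : Type u} {V : Type v} (l : Lg Ω V)

/-- `x ⊆ y` -/
def sub (x y : V) : Ω := l.all fun z => l.imp (l.mem z x) (l.mem z y)

/-- `x` and `y` have a common element -/
def meet (x y : V) : Ω := l.ex fun z => l.and (l.mem z x) (l.mem z y)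

/-- `x` is a partition of `A` -/
def part (x A : V) : Ω :=
  l.and (l.all fun b => l.imp (l.mem b x) (l.and (l.ex fun z => l.mem z b) (l.sub b A)))
    (l.and (l.all fun b => l.all fun c => l.imp (l.and (l.mem b x) (l.mem c x))
        (l.imp (l.meet b c) (l.eq b c)))
      (l.all fun a => l.imp (l.mem a A) (l.ex fun b => l.and (l.mem b x) (l.mem a b))))

/-- `e` is empty -/
def empty (e : V) : Ω := l.all fun w => l.neg (l.mem w e)

/-- `z' = z ∪ {w}` -/
def adj (z' z w : V) : Ω := l.all fun t => l.iff (l.mem t z') (l.or (l.mem t z) (l.eq t w))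

/-- `x` is finite -/
def fin (x : V) : Ω :=
  l.all fun F => l.imp (l.and (l.all fun e => l.imp (l.empty e) (l.mem e F))
    (l.all fun z => l.all fun w => l.all fun z' =>
      l.imp (l.and (l.mem z F) (l.and (l.mem w x) (l.adj z' z w))) (l.mem z' F))) (l.mem x F)

/-- `z = {x, y}` -/
def isPair (z x y : V) : Ω := l.all fun t => l.iff (l.mem t z) (l.or (l.eq t x) (l.eq t y))

/-- `z = (x, y)` -/
def isOP (z x y : V) : Ω :=
  l.ex fun u => l.ex fun v => l.and (l.isPair u x x) (l.and (l.isPair v x y) (l.isPair z u v))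

/-- `(x, y) ∈ f` -/
def app (f x y : V) : Ω := l.ex fun z => l.and (l.mem z f) (l.isOP z x y)

/-- `f` is an injective function from `S` to `T` -/
def inj (f S T : V) : Ω :=
  l.and (l.all fun z => l.imp (l.mem z f)
      (l.ex fun x => l.ex fun y => l.and (l.mem x S) (l.and (l.mem y T) (l.isOP z x y))))
    (l.and (l.all fun x => l.imp (l.mem x S) (l.ex fun y => l.app f x y))
      (l.all fun x => l.all fun x' => l.all fun y => l.all fun y' =>
        l.imp (l.and (l.app f x y) (l.app f x' y')) (l.iff (l.eq x x') (l.eq y y'))))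

/-- every element of `T` is a value of `f` -/
def onto (f T : V) : Ω := l.all fun y => l.imp (l.mem y T) (l.ex fun x => l.app f x y)

/-- all elements of `x` are finite -/
def finEl (x : V) : Ω := l.all fun b => l.imp (l.mem b x) (l.fin b)

/-- `S` is the set of partitions of `A` with finitely many blocks -/
def isPF (S A : V) : Ω := l.all fun x => l.iff (l.mem x S) (l.and (l.part x A) (l.fin x))

/-- `T` is the set of partitions of `A` with finite blocks -/
def isB (T A : V) : Ω := l.all fun x => l.iff (l.mem x T) (l.and (l.part x A) (l.finEl x))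

/-- there is an infinite set `A` with `|Part_fin(A)| < |𝓑(A)|` -/
def main : Ω :=
  l.ex fun A => l.ex fun S => l.ex fun T =>
    l.and (l.neg (l.fin A)) (l.and (l.isPF S A) (l.and (l.isB T A)
      (l.and (l.ex fun f => l.inj f S T)
        (l.neg (l.ex fun f => l.and (l.inj f S T) (l.onto f T))))))

end Lg

namespace Fm

/-- `x ⊆ y` -/
def sub (x y n : ℕ) : Fm := .all n (.imp (.mem n x) (.mem n y))

/-- common element -/
def meet (x y n : ℕ) : Fm := .ex n (.and (.mem n x) (.mem n y))

/-- partition -/
def part (x A n : ℕ) : Fm :=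
  .and (.all n (.imp (.mem n x) (.and (.ex (n + 1) (.mem (n + 1) n)) (.sub n A (n + 1)))))
    (.and (.all n (.all (n + 1) (.imp (.and (.mem n x) (.mem (n + 1) x))
        (.imp (.meet n (n + 1) (n + 2)) (.eq n (n + 1))))))
      (.all n (.imp (.mem n A) (.ex (n + 1) (.and (.mem (n + 1) x) (.mem n (n + 1)))))))

/-- empty -/
def empty (e n : ℕ) : Fm := .all n (.neg (.mem n e))

/-- adjoining an element -/
def adj (z' z w n : ℕ) : Fm := .all n (.iff (.mem n z') (.or (.mem n z) (.eq n w)))

/-- finite -/
def fin (x n : ℕ) : Fm :=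
  .all n (.imp (.and (.all (n + 1) (.imp (.empty (n + 1) (n + 2)) (.mem (n + 1) n)))
    (.all (n + 1) (.all (n + 2) (.all (n + 3)
      (.imp (.and (.mem (n + 1) n) (.and (.mem (n + 2) x) (.adj (n + 3) (n + 1) (n + 2) (n + 4))))
        (.mem (n + 3) n)))))) (.mem x n))

/-- unordered pair -/
def isPair (z x y n : ℕ) : Fm := .all n (.iff (.mem n z) (.or (.eq n x) (.eq n y)))

/-- ordered pair -/
def isOP (z x y n : ℕ) : Fm :=
  .ex n (.ex (n + 1) (.and (.isPair n x x (n + 2)) (.and (.isPair (n + 1) x y (n + 2))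
    (.isPair z n (n + 1) (n + 2)))))

/-- value of a function -/
def app (f x y n : ℕ) : Fm := .ex n (.and (.mem n f) (.isOP n x y (n + 1)))

/-- injection -/
def inj (f S T n : ℕ) : Fm :=
  .and (.all n (.imp (.mem n f)
      (.ex (n + 1) (.ex (n + 2) (.and (.mem (n + 1) S) (.and (.mem (n + 2) T)
        (.isOP n (n + 1) (n + 2) (n + 3))))))))
    (.and (.all n (.imp (.mem n S) (.ex (n + 1) (.app f n (n + 1) (n + 2)))))
      (.all n (.all (n + 1) (.all (n + 2) (.all (n + 3)
        (.imp (.and (.app f n (n + 2) (n + 4)) (.app f (n + 1) (n + 3) (n + 4)))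
          (.iff (.eq n (n + 1)) (.eq (n + 2) (n + 3)))))))))

/-- onto -/
def onto (f T n : ℕ) : Fm := .all n (.imp (.mem n T) (.ex (n + 1) (.app f (n + 1) n (n + 2))))

/-- finite elements -/
def finEl (x n : ℕ) : Fm := .all n (.imp (.mem n x) (.fin n (n + 1)))

/-- `Part_fin` -/
def isPF (S A n : ℕ) : Fm := .all n (.iff (.mem n S) (.and (.part n A (n + 1)) (.fin n (n + 1))))

/-- `𝓑` -/
def isB (T A n : ℕ) : Fm := .all n (.iff (.mem n T) (.and (.part n A (n + 1)) (.finEl n (n + 1))))

/-- the sentence -/
def main : Fm :=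
  .ex 0 (.ex 1 (.ex 2 (.and (.neg (.fin 0 3)) (.and (.isPF 1 0 3) (.and (.isB 2 0 3)
    (.and (.ex 3 (.inj 3 1 2 4)) (.neg (.ex 3 (.and (.inj 3 1 2 4) (.onto 3 2 4))))))))))

end Fm

section eval

variable {Ω : Type u} {V : Type v} (l : Lg Ω V)

theorem eval_sub {x y n : ℕ} (hx : x < n) (hy : y < n) (s : ℕ → V) :
    l.eval (.sub x y n) s = l.sub (s x) (s y) := by
  simp (disch := omega) only [Fm.sub, Lg.sub, Lg.eval, Function.update_of_ne,
    Function.update_self]

theorem eval_meet {x y n : ℕ} (hx : x < n) (hy : y < n) (s : ℕ → V) :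
    l.eval (.meet x y n) s = l.meet (s x) (s y) := by
  simp (disch := omega) only [Fm.meet, Lg.meet, Lg.eval, Lg.eval_ex, Lg.eval_and,
    Function.update_of_ne, Function.update_self]

theorem eval_part {x A n : ℕ} (hx : x < n) (hA : A < n) (s : ℕ → V) :
    l.eval (.part x A n) s = l.part (s x) (s A) := by
  simp (disch := omega) only [Fm.part, Lg.part, Lg.eval, Lg.eval_ex, Lg.eval_and, eval_sub,
    eval_meet, Function.update_of_ne, Function.update_self]

theorem eval_empty {x n : ℕ} (hx : x < n) (s : ℕ → V) :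
    l.eval (.empty x n) s = l.empty (s x) := by
  simp (disch := omega) only [Fm.empty, Lg.empty, Lg.eval, Lg.eval_neg,
    Function.update_of_ne, Function.update_self]

theorem eval_adj {x y z n : ℕ} (hx : x < n) (hy : y < n) (hz : z < n) (s : ℕ → V) :
    l.eval (.adj x y z n) s = l.adj (s x) (s y) (s z) := by
  simp (disch := omega) only [Fm.adj, Lg.adj, Lg.eval, Lg.eval_iff, Lg.eval_or,
    Function.update_of_ne, Function.update_self]

theorem eval_fin {x n : ℕ} (hx : x < n) (s : ℕ → V) :
    l.eval (.fin x n) s = l.fin (s x) := by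
  simp (disch := omega) only [Fm.fin, Lg.fin, Lg.eval, Lg.eval_and, eval_empty, eval_adj,
    Function.update_of_ne, Function.update_self]

theorem eval_isPair {x y z n : ℕ} (hx : x < n) (hy : y < n) (hz : z < n) (s : ℕ → V) :
    l.eval (.isPair x y z n) s = l.isPair (s x) (s y) (s z) := by
  simp (disch := omega) only [Fm.isPair, Lg.isPair, Lg.eval, Lg.eval_iff, Lg.eval_or,
    Function.update_of_ne, Function.update_self]

theorem eval_isOP {x y z n : ℕ} (hx : x < n) (hy : y < n) (hz : z < n) (s : ℕ → V) :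
    l.eval (.isOP x y z n) s = l.isOP (s x) (s y) (s z) := by
  simp (disch := omega) only [Fm.isOP, Lg.isOP, Lg.eval, Lg.eval_ex, Lg.eval_and, eval_isPair,
    Function.update_of_ne, Function.update_self]

theorem eval_app {x y z n : ℕ} (hx : x < n) (hy : y < n) (hz : z < n) (s : ℕ → V) :
    l.eval (.app x y z n) s = l.app (s x) (s y) (s z) := by
  simp (disch := omega) only [Fm.app, Lg.app, Lg.eval, Lg.eval_ex, Lg.eval_and, eval_isOP,
    Function.update_of_ne, Function.update_self]

theorem eval_inj {x y z n : ℕ} (hx : x < n) (hy : y < n) (hz : z < n) (s : ℕ → V) :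
    l.eval (.inj x y z n) s = l.inj (s x) (s y) (s z) := by
  simp (disch := omega) only [Fm.inj, Lg.inj, Lg.eval, Lg.eval_ex, Lg.eval_and, Lg.eval_iff,
    eval_isOP, eval_app, Function.update_of_ne, Function.update_self]

theorem eval_onto {x y n : ℕ} (hx : x < n) (hy : y < n) (s : ℕ → V) :
    l.eval (.onto x y n) s = l.onto (s x) (s y) := by
  simp (disch := omega) only [Fm.onto, Lg.onto, Lg.eval, Lg.eval_ex,
    eval_app, Function.update_of_ne, Function.update_self]

theorem eval_finEl {x n : ℕ} (hx : x < n) (s : ℕ → V) :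
    l.eval (.finEl x n) s = l.finEl (s x) := by
  simp (disch := omega) only [Fm.finEl, Lg.finEl, Lg.eval, eval_fin,
    Function.update_of_ne, Function.update_self]

theorem eval_isPF {x y n : ℕ} (hx : x < n) (hy : y < n) (s : ℕ → V) :
    l.eval (.isPF x y n) s = l.isPF (s x) (s y) := by
  simp (disch := omega) only [Fm.isPF, Lg.isPF, Lg.eval, Lg.eval_iff, Lg.eval_and, eval_part,
    eval_fin, Function.update_of_ne, Function.update_self]

theorem eval_isB {x y n : ℕ} (hx : x < n) (hy : y < n) (s : ℕ → V) :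
    l.eval (.isB x y n) s = l.isB (s x) (s y) := by
  simp (disch := omega) only [Fm.isB, Lg.isB, Lg.eval, Lg.eval_iff, Lg.eval_and, eval_part,
    eval_finEl, Function.update_of_ne, Function.update_self]

theorem eval_main (s : ℕ → V) : l.eval .main s = l.main := by
  simp (disch := omega) only [Fm.main, Lg.main, Lg.eval, Lg.eval_ex, Lg.eval_and, Lg.eval_neg,
    eval_isPF, eval_isB, eval_fin, eval_inj, eval_onto, Function.update_of_ne,
    Function.update_self]

end eval

end Pool.Agent.SymExt
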