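import Pool.Agent.SymExt.Atoms

/-!
# The transfer theorem for partitions
-/

set_option linter.unusedSectionVars false
set_option linter.unusedVariables false
set_option linter.unusedSimpArgs false

namespace Pool.Agent.SymExt

open Name SN Pool.Agent.Lib.MP_fe2f0d_lc

variable {P : Type} [PartialOrder P] [OrderTop P] {G : Type} [Group G] [MulAction G P]
  [OrdAct G P] {F : NFilter G}

theorem conj_fix' {D : Type} (M : FMData D) {H : Subgroup M.G} (hH : H ∈ M.F) (g : M.G) :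
    ∃ K ∈ M.F, ∀ k ∈ K, g⁻¹ * k * g ∈ H := conj_fix M hH g

theorem inModel_act {D : Type} (M : FMData D) {Q : Setoid (D ⊕ ℕ)} (hQ : InModel M Q)
    (g : M.G) : InModel M (actP (g : Equiv.Perm D) Q) := by
  obtain ⟨⟨H, hH, h1⟩, h2⟩ := hQ
  refine ⟨?_, ?_⟩
  · obtain ⟨K, hK, hKH⟩ := conj_fix M hH g
    refine ⟨K, hK, fun k hk => ?_⟩
    have h4 := h1 _ (hKH k hk)
    have h5 : (k : Equiv.Perm D) * (g : Equiv.Perm D) =
        (g : Equiv.Perm D) * ((g⁻¹ * k * g : M.G) : Equiv.Perm D) := by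
      simp [mul_assoc]
    rw [← actP_mul, h5, actP_mul, h4]
  · intro a
    obtain ⟨H', hH', h4⟩ := h2 (act (g : Equiv.Perm D)⁻¹ a)
    obtain ⟨K, hK, hKH⟩ := conj_fix M hH' g
    refine ⟨K, hK, fun k hk => ?_⟩
    have h5 := h4 _ (hKH k hk)
    have h6 : {b | actP (g : Equiv.Perm D) Q a b} =
        act (g : Equiv.Perm D) '' {b | Q (act (g : Equiv.Perm D)⁻¹ a) b} := by
      rw [block_act]
      have h3 : act (g : Equiv.Perm D) (act (g : Equiv.Perm D)⁻¹ a) = a := by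
        rw [← act_mul]; simp [act_one]
      rw [h3]
    rw [h6]
    conv_rhs => rw [← h5]
    rw [Set.image_image, Set.image_image]
    apply Set.image_congr
    intro b _
    rw [← act_mul, ← act_mul]
    congr 1
    simp [mul_assoc]

theorem finitary_act {D : Type} (M : FMData D) {Q : Setoid (D ⊕ ℕ)} (hQ : Q ∈ Finitary M)
    (g : M.G) : actP (g : Equiv.Perm D) Q ∈ Finitary M := by
  refine ⟨inModel_act M hQ.1 g, fun a => ?_⟩
  have h3 : act (g : Equiv.Perm D) (act (g : Equiv.Perm D)⁻¹ a) = a := by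
    rw [← act_mul]; simp [act_one]
  have h6 := block_act (g : Equiv.Perm D) Q (act (g : Equiv.Perm D)⁻¹ a)
  rw [h3] at h6
  rw [← h6]
  exact (hQ.2 _).image _

/-- points of `A` are symmetric -/
theorem pt_symm {D : Type} (M : FMData D) (a : D ⊕ ℕ) :
    ∃ H ∈ M.F, ∀ g ∈ H, act (g : Equiv.Perm D) a = a := by
  rcases a with d | n
  · refine ⟨_, M.atom d, fun g hg => ?_⟩
    have : (g : Equiv.Perm D) d = d := hg
    simp [Pool.Agent.Lib.MP_fe2f0d_lc.act, this]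
  · exact ⟨⊤, M.top_mem, fun g _ => rfl⟩

namespace AtomSys

variable {D : Type} {M : FMData D} (S : AtomSys P F M)

theorem exists_ptn [Countable D] (x : SN P F) (p : P) (h : lg.part x S.AA p) :
    ∃ q ≤ p, ∃ Q, ∃ hQ : InModel M Q, e x (S.ptn Q hQ) q := by
  rw [part_iff] at h
  obtain ⟨hp1, hp2, hp3⟩ := h
  let L : Lg (RO P) (SN P F) := lg
  let τ : (D ⊕ ℕ) × (D ⊕ ℕ) → RO P := fun t =>
    L.ex fun u => L.and (m u x) (L.and (m (S.pt t.1) u) (m (S.pt t.2) u))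
  have hτ : ∀ a b q, τ (a, b) q ↔ ∀ r ≤ q, ∃ s ≤ r, ∃ u, m u x s ∧ m (S.pt a) u s ∧
      m (S.pt b) u s := by
    intro a b q
    simp only [τ, L, ro_ex, ro_and]
  obtain ⟨q, hq, hd⟩ := exists_decide S.closed τ p
  -- two elements of `x` with a common point
  have hcom : ∀ (a : D ⊕ ℕ) (u u' : SN P F) (r : P), r ≤ q → m u x r → m u' x r →
      m (S.pt a) u r → m (S.pt a) u' r → e u u' r := by
    intro a u u' r hr h1 h2 h3 h4
    exact hp2 u u' r (hr.trans hq) h1 h2 fun s hs =>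
      ⟨s, le_rfl, S.pt a, RO.mono _ hs h3, RO.mono _ hs h4⟩
  let Q : Setoid (D ⊕ ℕ) := {
    r := fun a b => τ (a, b) q
    iseqv := {
      refl := by
        intro a
        rw [hτ]
        intro r hr
        have h1 : m (S.pt a) S.AA q := S.m_pt_sb.2 (Set.mem_univ a)
        obtain ⟨s, hs, b, hb, hab⟩ := hp3 (S.pt a) q hq h1 r hr
        exact ⟨s, hs, b, hb, hab, hab⟩
      symm := by
        intro a b h
        rw [hτ] at h ⊢
        intro r hr
        obtain ⟨s, hs, u, h1, h2, h3⟩ := h r hr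
        exact ⟨s, hs, u, h1, h3, h2⟩
      trans := by
        intro a b c h h'
        rw [hτ] at h h' ⊢
        intro r hr
        obtain ⟨s, hs, u, h1, h2, h3⟩ := h r hr
        obtain ⟨t, ht, u', h1', h2', h3'⟩ := h' s (hs.trans hr)
        have he := hcom b u u' t (ht.trans (hs.trans hr)) (RO.mono _ ht h1) h1'
          (RO.mono _ ht h3) h2'
        exact ⟨t, ht.trans hs, u, RO.mono _ ht h1, RO.mono _ ht h2, m_right (e_symm he) h3'⟩ } }
  have hQ : ∀ a b, Q a b ↔ τ (a, b) q := fun a b => Iff.rfl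
  -- symmetry of `Q`
  obtain ⟨H, hH, hom⟩ := S.hom x
  have hmono : ∀ k ∈ H, ∀ a b, Q a b → Q (act (k : Equiv.Perm D) a) (act (k : Equiv.Perm D) b) := by
    intro k hk a b hab
    obtain ⟨g, hgk, hgx, r, hrq, hrgq⟩ := hom k hk q
    have h1 : τ (act (k : Equiv.Perm D) a, act (k : Equiv.Perm D) b) r := by
      rw [hτ]
      rw [hQ, hτ] at hab
      intro s hs
      obtain ⟨t, ht, u, h1, h2, h3⟩ := hab (g⁻¹ • s)
        ((smul_le_iff' g⁻¹).2 (by simpa using hs.trans hrgq))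
      refine ⟨g • t, (smul_le_iff' g).2 ht, g • u, ?_, ?_, ?_⟩
      · exact m_right (hgx _) ((m_smul g).2 h1)
      · rw [← hgk]
        exact m_left (S.act_pt g a _) ((m_smul g).2 h2)
      · rw [← hgk]
        exact m_left (S.act_pt g b _) ((m_smul g).2 h3)
    rw [hQ]
    rcases hd (act (k : Equiv.Perm D) a, act (k : Equiv.Perm D) b) with h | h
    · exact h
    · exact absurd h1 (h r hrq)
  have hsym : ∀ k ∈ H, actP (k : Equiv.Perm D) Q = Q := by
    intro k hk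
    refine Setoid.ext fun a b => ?_
    have h3 : ∀ c, act (k : Equiv.Perm D) (act (k : Equiv.Perm D)⁻¹ c) = c := fun c => by
      rw [← act_mul]; simp [act_one]
    constructor
    · intro h
      have h4 : Q (act (k : Equiv.Perm D)⁻¹ a) (act (k : Equiv.Perm D)⁻¹ b) := h
      have := hmono k hk _ _ h4
      rwa [h3, h3] at this
    · intro h
      exact hmono k⁻¹ (H.inv_mem hk) a b h
  have hIn : InModel M Q := by
    refine ⟨⟨H, hH, hsym⟩, fun a => ?_⟩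
    obtain ⟨K, hK, hfix⟩ := pt_symm M a
    refine ⟨H ⊓ K, M.inf _ _ hH hK, fun g hg => ?_⟩
    rw [block_act, hsym g hg.1, hfix g hg.2]
  -- elements of `x` are blocks
  have hblock : ∀ (a : D ⊕ ℕ) (z : SN P F) (r : P), r ≤ q → m z x r → m (S.pt a) z r →
      e z (S.sb {b | Q a b} (hIn.2 a)) r := by
    intro a z r hr hzx haz
    refine S.e_sb_of (fun w s hs hw => (hp1 z r (hr.trans hq) hzx).2 w s hs hw) ?_ ?_
    · intro b hb
      have h1 : τ (a, b) q := hb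
      rw [hτ] at h1
      refine RO.dense _ fun s hs => ?_
      obtain ⟨t, ht, u, hu, ha, hb⟩ := h1 s (hs.trans hr)
      have he := hcom a u z t (ht.trans (hs.trans hr)) hu (RO.mono _ (ht.trans hs) hzx) ha
        (RO.mono _ (ht.trans hs) haz)
      exact ⟨t, ht, m_right he hb⟩
    · intro b hb s hs hbz
      apply hb
      have h1 : τ (a, b) s := by
        rw [hτ]
        intro t ht
        exact ⟨t, le_rfl, z, RO.mono _ (ht.trans hs) hzx, RO.mono _ (ht.trans hs) haz,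
          RO.mono _ ht hbz⟩
      rcases hd (a, b) with h | h
      · exact h
      · exact absurd h1 (h s (hs.trans hr))
  refine ⟨q, hq, Q, hIn, e_ext fun r hr z => ?_⟩
  constructor
  · intro hz
    rw [S.m_ptn]
    intro s hs
    obtain ⟨t, ht, w, hw⟩ := (hp1 z r (hr.trans hq) hz).1 s hs
    have h1 := (hp1 z r (hr.trans hq) hz).2 w t (ht.trans hs) hw
    obtain ⟨t', ht', a, _, ha⟩ := S.m_sb.1 h1 t le_rfl
    exact ⟨t', ht'.trans ht, a, hblock a z t' (ht'.trans (ht.trans (hs.trans hr)))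
      (RO.mono _ (ht'.trans (ht.trans hs)) hz) (m_left ha (RO.mono _ ht' hw))⟩
  · intro hz
    rw [S.m_ptn] at hz
    refine RO.dense _ fun s hs => ?_
    obtain ⟨t, ht, a, ha⟩ := hz s hs
    have h1 : τ (a, a) q := Q.refl a
    rw [hτ] at h1
    obtain ⟨t', ht', u, hu, hau, _⟩ := h1 t (ht.trans (hs.trans hr))
    have h2 := hblock a u t' (ht'.trans (ht.trans (hs.trans hr))) hu hau
    exact ⟨t', ht'.trans ht, m_left (e_trans h2 (e_symm (RO.mono _ ht' ha))) hu⟩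

theorem app_iff (f x y : SN P F) (p : P) : lg.app f x y p ↔ m (op x y) f p := by
  simp only [Lg.app, ro_ex, ro_and, ro_mem, isOP_iff]
  constructor
  · intro h
    refine RO.dense _ fun q hq => ?_
    obtain ⟨r, hr, z, h1, h2⟩ := h q hq
    exact ⟨r, hr, m_left h2 h1⟩
  · intro h q hq
    exact ⟨q, le_rfl, op x y, RO.mono _ hq h, e_refl _ _⟩

theorem inj_iff (f X Y : SN P F) (p : P) : lg.inj f X Y p ↔
    (∀ z : SN P F, ∀ q ≤ p, m z f q → ∀ r ≤ q, ∃ s ≤ r, ∃ x y : SN P F, m x X s ∧ m y Y s ∧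
      e z (op x y) s) ∧
    (∀ x : SN P F, ∀ q ≤ p, m x X q → ∀ r ≤ q, ∃ s ≤ r, ∃ y : SN P F, m (op x y) f s) ∧
    (∀ x x' y y' : SN P F, ∀ q ≤ p, m (op x y) f q → m (op x' y') f q →
      (e x x' q ↔ e y y' q)) := by
  simp only [Lg.inj, ro_all, ro_imp, ro_and, ro_ex, ro_iff, ro_mem, ro_eq, app_iff, isOP_iff,
    and_imp]
  refine and_congr ?_ (and_congr Iff.rfl ?_)
  · refine forall_congr' fun z => forall_congr' fun q => forall_congr' fun hq =>
      forall_congr' fun hz => ?_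
    constructor
    · intro h r hr
      obtain ⟨s, hs, x, hx⟩ := h r hr
      obtain ⟨t, ht, y, hy⟩ := hx s le_rfl
      exact ⟨t, ht.trans hs, x, y, hy⟩
    · intro h r hr
      obtain ⟨s, hs, x, y, h1, h2, h3⟩ := h r hr
      exact ⟨s, hs, x, fun t ht => ⟨t, le_rfl, y, RO.mono _ ht h1, RO.mono _ ht h2,
        RO.mono _ ht h3⟩⟩
  · constructor
    · intro h x x' y y' q hq h1 h2
      exact h x x' y y' q hq h1 h2 q le_rfl
    · intro h x x' y y' q hq h1 h2 r hr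
      exact h x x' y y' r (hr.trans hq) (RO.mono _ hr h1) (RO.mono _ hr h2)

theorem onto_iff (f Y : SN P F) (p : P) : lg.onto f Y p ↔
    ∀ y : SN P F, ∀ q ≤ p, m y Y q → ∀ r ≤ q, ∃ s ≤ r, ∃ x : SN P F, m (op x y) f s := by
  simp only [Lg.onto, ro_all, ro_imp, ro_ex, ro_mem, app_iff]

/-- the set of partitions with finitely many blocks -/
def SPF : SN P F := fl (fun Q : PartFin M => S.ptn Q.1 Q.2.1)
  ⟨⊤, F.top, fun g _ Q => ⟨⟨_, PartFin_act M Q.2 (S.pr g)⟩, fun p => S.smul_ptn g _⟩⟩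

/-- the set of finitary partitions -/
def SB : SN P F := fl (fun Q : Finitary M => S.ptn Q.1 Q.2.1)
  ⟨⊤, F.top, fun g _ Q => ⟨⟨_, finitary_act M Q.2 (S.pr g)⟩, fun p => S.smul_ptn g _⟩⟩

theorem m_SPF {x : SN P F} {p : P} : m x S.SPF p ↔
    ∀ q ≤ p, ∃ r ≤ q, ∃ Q : PartFin M, e x (S.ptn Q.1 Q.2.1) r := by
  rw [SPF, m_fl]

theorem m_SB {x : SN P F} {p : P} : m x S.SB p ↔
    ∀ q ≤ p, ∃ r ≤ q, ∃ Q : Finitary M, e x (S.ptn Q.1 Q.2.1) r := by
  rw [SB, m_fl]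

theorem isPF_SPF [Countable D] (p : P) : lg.isPF S.SPF S.AA p := by
  simp only [Lg.isPF, ro_all, ro_iff, ro_mem, ro_and]
  intro x q hq
  constructor
  · intro h
    rw [m_SPF] at h
    constructor
    · refine RO.dense _ fun r hr => ?_
      obtain ⟨s, hs, Q, he⟩ := h r hr
      exact ⟨s, hs, (part_congr he).2 S.part_ptn⟩
    · refine RO.dense _ fun r hr => ?_
      obtain ⟨s, hs, Q, he⟩ := h r hr
      exact ⟨s, hs, (fin_congr he).2 (S.fin_ptn.2 Q.2.2)⟩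
  · rintro ⟨h1, h2⟩
    rw [m_SPF]
    intro r hr
    obtain ⟨s, hs, Q, hQ, he⟩ := S.exists_ptn x r (RO.mono _ hr h1)
    exact ⟨s, hs, ⟨Q, hQ, S.fin_ptn.1 ((fin_congr he).1 (RO.mono _ (hs.trans hr) h2))⟩, he⟩

theorem isB_SB [Countable D] (p : P) : lg.isB S.SB S.AA p := by
  simp only [Lg.isB, ro_all, ro_iff, ro_mem, ro_and]
  intro x q hq
  constructor
  · intro h
    rw [m_SB] at h
    constructor
    · refine RO.dense _ fun r hr => ?_
      obtain ⟨s, hs, Q, he⟩ := h r hr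
      exact ⟨s, hs, (part_congr he).2 S.part_ptn⟩
    · refine RO.dense _ fun r hr => ?_
      obtain ⟨s, hs, Q, he⟩ := h r hr
      exact ⟨s, hs, (finEl_congr he).2 (S.finEl_ptn.2 Q.2.2)⟩
  · rintro ⟨h1, h2⟩
    rw [m_SB]
    intro r hr
    obtain ⟨s, hs, Q, hQ, he⟩ := S.exists_ptn x r (RO.mono _ hr h1)
    exact ⟨s, hs, ⟨Q, hQ, S.finEl_ptn.1 ((finEl_congr he).1 (RO.mono _ (hs.trans hr) h2))⟩, he⟩

include S in
theorem forced_main [Countable D] (cd : Setoid (D ⊕ ℕ) → Setoid (D ⊕ ℕ))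
    (hmem : ∀ Q ∈ PartFin M, cd Q ∈ Finitary M)
    (hinj : ∀ Q R, cd Q = cd R → Q = R)
    (hact : ∀ (g : Equiv.Perm D) Q, cd (actP g Q) = actP g (cd Q))
    (hx : ∀ H ∈ M.F, ∃ R ∈ Finitary M, ∀ Q ∈ PartFin M, ∃ g ∈ H,
      ¬ (actP (g : Equiv.Perm D) Q = Q ↔ actP (g : Equiv.Perm D) R = R)) (p : P) :
    (lg : Lg (RO P) (SN P F)).main p := by
  simp only [Lg.main, ro_ex, ro_and]
  refine fun q _ => ⟨q, le_rfl, S.AA, fun q _ => ⟨q, le_rfl, S.SPF, fun q _ => ⟨q, le_rfl, S.SB,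
    ?_, S.isPF_SPF q, S.isB_SB q, ?_, ?_⟩⟩⟩
  · rw [ro_neg]
    intro r _ h
    have h1 : (Set.univ : Set (D ⊕ ℕ)).Finite := S.fin_sb.1 h
    exact Set.infinite_univ h1
  · -- the injection
    intro q1 _
    have hf : FamSym (fun Q : PartFin M => op (S.ptn Q.1 Q.2.1) (S.ptn _ (hmem Q.1 Q.2).1)) := by
      refine ⟨⊤, F.top, fun g _ Q => ⟨⟨_, PartFin_act M Q.2 (S.pr g)⟩, fun p => ?_⟩⟩
      refine e_trans (smul_op g _ _ p) (op_congr (S.smul_ptn g _) ?_)
      refine e_trans (S.smul_ptn g (finitary_act M (hmem Q.1 Q.2) (S.pr g)).1) ?_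
      exact S.e_ptn.2 (hact _ _).symm
    refine ⟨q1, le_rfl, fl _ hf, ?_⟩
    rw [inj_iff]
    refine ⟨fun z q2 hq2 hz r hr => ?_, fun x q2 hq2 hx r hr => ?_, fun x x' y y' q2 hq2 h1 h2 => ?_⟩
    · obtain ⟨s, hs, Q, he⟩ := m_fl.1 hz r hr
      exact ⟨s, hs, _, _, m_fl_self Q,
        m_fl_self (y := fun Q : Finitary M => S.ptn Q.1 Q.2.1) ⟨_, hmem Q.1 Q.2⟩, he⟩
    · obtain ⟨s, hs, Q, he⟩ := S.m_SPF.1 hx r hr
      exact ⟨s, hs, _, m_fl_of Q (op_congr he (e_refl _ _))⟩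
    · have key : ∀ r ≤ q2, ∃ s ≤ r, ∃ Q R : PartFin M, e x (S.ptn Q.1 Q.2.1) s ∧
          e y (S.ptn _ (hmem Q.1 Q.2).1) s ∧ e x' (S.ptn R.1 R.2.1) s ∧
          e y' (S.ptn _ (hmem R.1 R.2).1) s := by
        intro r hr
        obtain ⟨s, hs, Q, hQ⟩ := m_fl.1 h1 r hr
        obtain ⟨t, ht, R, hR⟩ := m_fl.1 h2 s (hs.trans hr)
        have h3 := op_inj hQ
        have h4 := op_inj hR
        exact ⟨t, ht.trans hs, Q, R, RO.mono _ ht h3.1, RO.mono _ ht h3.2, h4.1, h4.2⟩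
      constructor
      · intro he
        refine RO.dense _ fun r hr => ?_
        obtain ⟨s, hs, Q, R, h3, h4, h5, h6⟩ := key r hr
        have h7 : Q.1 = R.1 := S.e_ptn.1
          (e_trans (e_symm h3) (e_trans (RO.mono _ (hs.trans hr) he) h5))
        refine ⟨s, hs, e_trans h4 (e_trans (S.e_ptn.2 ?_) (e_symm h6))⟩
        rw [h7]
      · intro he
        refine RO.dense _ fun r hr => ?_
        obtain ⟨s, hs, Q, R, h3, h4, h5, h6⟩ := key r hr
        have h7 : cd Q.1 = cd R.1 := S.e_ptn.1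
          (e_trans (e_symm h4) (e_trans (RO.mono _ (hs.trans hr) he) h6))
        exact ⟨s, hs, e_trans h3 (e_trans (S.e_ptn.2 (hinj _ _ h7)) (e_symm h5))⟩
  · -- no bijection
    rw [ro_neg]
    intro q1 _ h
    rw [ro_ex] at h
    obtain ⟨r, _, f, hf⟩ := h q1 le_rfl
    rw [ro_and, inj_iff, onto_iff] at hf
    obtain ⟨⟨hf1, hf2, hf3⟩, hf4⟩ := hf
    obtain ⟨H, hH, hom⟩ := S.hom f
    obtain ⟨R, hR, hxR⟩ := hx H hH
    obtain ⟨s, hs, x, hxs⟩ := hf4 (S.ptn R hR.1) r le_rfl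
      (m_fl_self (y := fun Q : Finitary M => S.ptn Q.1 Q.2.1) ⟨R, hR⟩) r le_rfl
    obtain ⟨t, ht, x', y', h1, h2, h3⟩ := hf1 _ s hs hxs s le_rfl
    have h4 := op_inj h3
    obtain ⟨u, hu, Q, hQ⟩ := S.m_SPF.1 (m_left (e_symm h4.1) h1) t le_rfl
    have hQf : m (op (S.ptn Q.1 Q.2.1) (S.ptn R hR.1)) f u :=
      m_left (op_congr hQ (e_refl _ _)) (RO.mono _ (hu.trans ht) hxs)
    obtain ⟨k, hk, hkn⟩ := hxR Q.1 Q.2
    obtain ⟨g, hgk, hgf, v, hvu, hvgu⟩ := hom k hk u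
    apply hkn
    have h5 : m (g • op (S.ptn Q.1 Q.2.1) (S.ptn R hR.1)) f v :=
      m_right (hgf v) (RO.mono _ hvgu ((m_smul g).2 hQf))
    have h6 : m (op (S.ptn _ (inModel_act M Q.2.1 k)) (S.ptn _ (inModel_act M hR.1 k))) f v := by
      subst hgk
      exact m_left (e_trans (smul_op g _ _ v) (op_congr (S.smul_ptn g _) (S.smul_ptn g _))) h5
    have h7 := hf3 _ _ _ _ v (hvu.trans (hu.trans (ht.trans hs))) h6 (RO.mono _ hvu hQf)
    rwa [S.e_ptn, S.e_ptn] at h7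

end AtomSys

end Pool.Agent.SymExt
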