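import Pool.Agent.SymExt.HS

/-!
# The axioms of `ZF` are forced in a symmetric extension
-/

set_option linter.unusedSectionVars false
set_option linter.unusedVariables false

namespace Pool.Agent.SymExt

open Name

variable {P : Type} [PartialOrder P] [OrderTop P] {G : Type} [Group G] [MulAction G P]
  [OrdAct G P]

theorem smul_top' (g : G) : g • (⊤ : P) = ⊤ := by
  refine le_antisymm le_top ?_
  rw [le_smul_iff']
  exact le_top

/-- check names -/
def chk : PSet.{0} → Name P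
  | ⟨ι, x⟩ => .mk ι (fun i => chk (x i)) (fun _ => ⊤)

theorem smul_chk (g : G) (x : PSet.{0}) : g • (chk x : Name P) = chk x := by
  induction x with
  | mk ι x ih =>
    change Name.mk ι (fun i => g • chk (x i)) (fun _ => g • (⊤ : P)) = Name.mk ι _ _
    congr 1
    · funext i; exact ih i
    · funext i; exact smul_top' g

variable (F : NFilter G)

theorem HS_chk (x : PSet.{0}) : HS F (chk x : Name P) := by
  induction x with
  | mk ι x ih =>
    refine ⟨⟨⊤, F.top, fun g _ p => ?_⟩, ih⟩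
    have : g • (chk (PSet.mk ι x) : Name P) = chk (PSet.mk ι x) := smul_chk g _
    change feq (g • (chk (PSet.mk ι x) : Name P)) (chk (PSet.mk ι x)) p
    rw [this]
    exact feq_refl _ _

theorem feq_chk (x y : PSet.{0}) (p : P) : feq (chk x) (chk y) p ↔ PSet.Equiv x y := by
  induction x generalizing y p with
  | mk ι x ih =>
    cases y with
    | mk κ y =>
      constructor
      · rintro ⟨h1, h2⟩
        constructor
        · intro i
          obtain ⟨r, _, j, _, h⟩ := h1 i p le_rfl le_top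
          exact ⟨j, (ih i _ _).1 h⟩
        · intro j
          obtain ⟨r, _, i, _, h⟩ := h2 j p le_rfl le_top
          exact ⟨i, (ih i _ _).1 h⟩
      · rintro ⟨h1, h2⟩
        constructor
        · intro i q _ _
          obtain ⟨j, h⟩ := h1 i
          exact ⟨q, le_rfl, j, le_top, (ih i _ _).2 h⟩
        · intro j q _ _
          obtain ⟨i, h⟩ := h2 j
          exact ⟨q, le_rfl, i, le_top, (ih i _ _).2 h⟩

namespace SN

variable {F}

/-- check names as elements of the symmetric extension -/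
def ck (x : PSet.{0}) : SN P F := ⟨chk x, HS_chk F x⟩

instance : Nonempty (SN P F) := ⟨ck ∅⟩

theorem smul_ck (g : G) (x : PSet.{0}) : g • (ck x : SN P F) = ck x := Subtype.ext (smul_chk g x)

theorem e_ck {x y : PSet.{0}} {p : P} : e (ck x : SN P F) (ck y) p ↔ PSet.Equiv x y :=
  feq_chk x y p

theorem e_ext {x y : SN P F} {p : P} (h : ∀ q ≤ p, ∀ z : SN P F, m z x q ↔ m z y q) :
    e x y p := by
  refine feq_of_el (fun i q hq hc => ?_) (fun j q hq hc => ?_)
  · exact (h q hq ⟨x.1.el i, ((HS_iff F _).1 x.2).2 i⟩).1 (fmem_el x.1 i hc)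
  · exact (h q hq ⟨y.1.el j, ((HS_iff F _).1 y.2).2 j⟩).2 (fmem_el y.1 j hc)

theorem support2 (x y : SN P F) : ∃ H, F.mem H ∧ ∀ g ∈ H, ∀ p : P, e (g • x) x p ∧
    e (g • y) y p := by
  obtain ⟨H, hH, h⟩ := ((HS_iff F _).1 x.2).1
  obtain ⟨K, hK, h'⟩ := ((HS_iff F _).1 y.2).1
  exact ⟨H ⊓ K, F.inf hH hK, fun g hg p => ⟨h g hg.1 p, h' g hg.2 p⟩⟩

theorem m_congr {x x' y y' : SN P F} {p : P} (h : e x x' p) (h' : e y y' p) (h'' : m x y p) :
    m x' y' p := m_left h (m_right h' h'')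

theorem e_congr {x x' y y' : SN P F} {p : P} (h : e x x' p) (h' : e y y' p) (h'' : e x y p) :
    e x' y' p := e_trans (e_symm h) (e_trans h'' h')

theorem exists_pair (x y : SN P F) : ∃ z : SN P F, ∀ w p, m w z p ↔
    ∀ q ≤ p, ∃ r ≤ q, e w x r ∨ e w y r := by
  obtain ⟨H, hH, h⟩ := support2 x y
  refine exists_mk Bool (fun b => if b then x else y) (fun _ => ⊤) _ (fun z p => ?_) hH ?_
  · refine forall_congr' fun q => forall_congr' fun _ => ?_
    constructor
    · rintro ⟨r, hr, h | h⟩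
      · exact ⟨r, hr, true, le_top, h⟩
      · exact ⟨r, hr, false, le_top, h⟩
    · rintro ⟨r, hr, b, _, h⟩
      cases b
      · exact ⟨r, hr, Or.inr h⟩
      · exact ⟨r, hr, Or.inl h⟩
  · intro g hg z p hz q hq
    obtain ⟨r, hr, h'⟩ := hz (g⁻¹ • q) ((smul_le_iff' g⁻¹).2 (by simpa using hq))
    refine ⟨g • r, (smul_le_iff' g).2 hr, ?_⟩
    rcases h' with h' | h'
    · exact Or.inl (e_trans ((e_smul g).2 h') (h g hg _).1)
    · exact Or.inr (e_trans ((e_smul g).2 h') (h g hg _).2)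

/-- the element number `i` -/
def elt (x : SN P F) (i : x.1.Idx) : SN P F := ⟨x.1.el i, ((HS_iff F _).1 x.2).2 i⟩

theorem m_elt (x : SN P F) (i : x.1.Idx) {p : P} (h : p ≤ x.1.cd i) : m (x.elt i) x p :=
  fmem_el x.1 i h

theorem m_iff (x z : SN P F) (p : P) : m z x p ↔
    ∀ q ≤ p, ∃ r ≤ q, ∃ i : x.1.Idx, r ≤ x.1.cd i ∧ e z (x.elt i) r := Iff.rfl

theorem exists_union (x : SN P F) : ∃ u : SN P F, ∀ w p, m w u p ↔
    ∀ q ≤ p, ∃ r ≤ q, ∃ v : SN P F, m w v r ∧ m v x r := by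
  obtain ⟨H, hH, h⟩ := support2 x x
  refine exists_mk {t : (i : x.1.Idx) × (x.elt i).1.Idx × P // t.2.2 ≤ x.1.cd t.1 ∧
    t.2.2 ≤ (x.elt t.1).1.cd t.2.1} (fun t => (x.elt t.1.1).elt t.1.2.1) (fun t => t.1.2.2) _
    (fun z p => ?_) hH ?_
  · refine forall_congr' fun q => forall_congr' fun _ => ?_
    constructor
    · rintro ⟨r, hr, v, h1, h2⟩
      obtain ⟨r', hr', i, hi, hv⟩ := h2 r le_rfl
      have h3 : m z (x.elt i) r' := m_right hv (RO.mono _ hr' h1)
      obtain ⟨s, hs, j, hj, hz⟩ := h3 r' le_rfl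
      exact ⟨s, hs.trans (hr'.trans hr), ⟨⟨i, j, s⟩, hs.trans hi, hj⟩, le_rfl, hz⟩
    · rintro ⟨r, hr, ⟨⟨i, j, s⟩, hi, hj⟩, hs, hz⟩
      exact ⟨r, hr, x.elt i, m_left (e_symm hz) (m_elt _ j (hs.trans hj)),
        m_elt x i (hs.trans hi)⟩
  · intro g hg z p hz q hq
    obtain ⟨r, hr, v, h1, h2⟩ := hz (g⁻¹ • q) ((smul_le_iff' g⁻¹).2 (by simpa using hq))
    exact ⟨g • r, (smul_le_iff' g).2 hr, g • v, (m_smul g).2 h1,
      m_right (h g hg _).1 ((m_smul g).2 h2)⟩

/-- subnames of `x` -/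
def sub (x : SN P F) (T : Set (x.1.Idx × P)) : Name P :=
  .mk {t : x.1.Idx × P // t ∈ T ∧ t.2 ≤ x.1.cd t.1} (fun t => (x.elt t.1.1).1) (fun t => t.1.2)

theorem exists_power (x : SN P F) : ∃ u : SN P F, ∀ w p, m w u p ↔
    ∀ q ≤ p, ∀ v : SN P F, m v w q → m v x q := by
  obtain ⟨H, hH, h⟩ := support2 x x
  refine exists_mk {T : Set (x.1.Idx × P) // HS F (sub x T)} (fun T => ⟨sub x T.1, T.2⟩)
    (fun _ => ⊤) _ (fun z p => ?_) hH ?_
  · constructor
    · intro hz
      let T : Set (x.1.Idx × P) := {t | m (x.elt t.1) z t.2}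
      have key : ∀ (w : SN P F) (q : P), fmem w.1 (sub x T) q ↔ (m w z q ∧ m w x q) := by
        intro w q
        constructor
        · intro hw
          constructor
          · refine RO.dense _ fun r hr => ?_
            obtain ⟨s, hs, ⟨⟨i, t⟩, ht, hti⟩, hst, hw⟩ := hw r hr
            exact ⟨s, hs, m_left (e_symm hw) (RO.mono (m (x.elt i) z) hst ht)⟩
          · refine RO.dense _ fun r hr => ?_
            obtain ⟨s, hs, ⟨⟨i, t⟩, ht, hti⟩, hst, hw⟩ := hw r hr
            exact ⟨s, hs, m_left (e_symm hw) (m_elt x i (hst.trans hti))⟩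
        · rintro ⟨h1, h2⟩ r hr
          obtain ⟨s, hs, i, hi, hw⟩ := h2 r hr
          exact ⟨s, hs, ⟨(i, s), m_left hw (RO.mono (m w z) (hs.trans hr) h1), hi⟩, le_rfl, hw⟩
      obtain ⟨K, hK, h'⟩ := support2 x z
      have hs : HS F (sub x T) := by
        refine sym_of _ (fun t : {t : x.1.Idx × P // t ∈ T ∧ t.2 ≤ x.1.cd t.1} => x.elt t.1.1)
          (fun t => t.1.2) hK fun g hg w q hw => ?_
        rw [show (Name.mk {t : x.1.Idx × P // t ∈ T ∧ t.2 ≤ x.1.cd t.1}
          (fun t => (x.elt t.1.1).1) (fun t => t.1.2)) = sub x T from rfl, key] at hw ⊢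
        exact ⟨m_right (h' g hg _).2 ((m_smul g).2 hw.1),
          m_right (h' g hg _).1 ((m_smul g).2 hw.2)⟩
      intro q hq
      refine ⟨q, le_rfl, ⟨T, hs⟩, le_top, e_ext fun r hr w => ?_⟩
      have := key w r
      constructor
      · intro hw
        exact this.2 ⟨hw, hz r (hr.trans hq) w hw⟩
      · intro hw
        exact (this.1 hw).1
    · intro hz q hq v hv
      refine RO.dense _ fun r hr => ?_
      obtain ⟨s, hs, T, _, he⟩ := hz r (hr.trans hq)
      have h1 : m v ⟨sub x T.1, T.2⟩ s := m_right he (RO.mono _ (hs.trans hr) hv)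
      obtain ⟨t, ht, ⟨⟨i, u⟩, hu, hui⟩, htu, hw⟩ := h1 s le_rfl
      exact ⟨t, ht.trans hs, m_left (e_symm hw) (m_elt x i (htu.trans hui))⟩
  · intro g hg z p hz q hq v hv
    have h1 := hz (g⁻¹ • q) ((smul_le_iff' g⁻¹).2 (by simpa using hq)) (g⁻¹ • v)
      (by rw [← m_smul g]; simpa using hv)
    rw [← m_smul g] at h1
    simp only [smul_inv_smul] at h1
    exact m_right (h g hg _).1 h1

theorem foundation_aux (x : SN P F) (z : Name P) (hz : HS F z) (p : P)
    (hzx : m ⟨z, hz⟩ x p) : ∃ r ≤ p, ∃ y : SN P F, m y x r ∧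
      ∀ w : SN P F, ∀ t ≤ r, m w y t → ¬ m w x t := by
  induction z generalizing p with
  | mk ι z c ih =>
    by_cases h : ∀ w : SN P F, ∀ t ≤ p, m w ⟨_, hz⟩ t → ¬ m w x t
    · exact ⟨p, le_rfl, _, hzx, h⟩
    · push Not at h
      obtain ⟨w, t, ht, h1, h2⟩ := h
      obtain ⟨r, hr, i, hi, he⟩ := h1 t le_rfl
      obtain ⟨s, hs, y, hy⟩ := ih i (hz.2 i) r (m_left he (RO.mono _ hr h2))
      exact ⟨s, hs.trans (hr.trans ht), y, hy⟩

theorem exists_sep (a : Fm) (s : ℕ → SN P F) (i : ℕ) (x : SN P F) :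
    ∃ y : SN P F, ∀ z p, m z y p ↔ m z x p ∧ lg.eval a (Function.update s i z) p := by
  obtain ⟨H, hH, h⟩ := support2 x x
  obtain ⟨K, hK, h'⟩ := exists_inv a s
  have cong : ∀ (z z' : SN P F) (p : P), e z z' p →
      lg.eval a (Function.update s i z) p → lg.eval a (Function.update s i z') p := by
    intro z z' p hzz h
    refine (adm.eval_congr a _ _ p fun j => ?_).1 h
    by_cases hji : j = i
    · subst hji; simpa using hzz
    · simpa [Function.update_of_ne hji] using e_refl _ _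
  refine exists_mk {t : x.1.Idx × P // t.2 ≤ x.1.cd t.1 ∧
    lg.eval a (Function.update s i (x.elt t.1)) t.2} (fun t => x.elt t.1.1) (fun t => t.1.2) _
    (fun z p => ?_) (F.inf hH hK) ?_
  · constructor
    · rintro ⟨h1, h2⟩ q hq
      obtain ⟨r, hr, k, hk, he⟩ := h1 q hq
      exact ⟨r, hr, ⟨(k, r), hk, cong _ _ _ he (RO.mono _ (hr.trans hq) h2)⟩, le_rfl, he⟩
    · intro hz
      constructor
      · refine RO.dense _ fun q hq => ?_
        obtain ⟨r, hr, ⟨⟨k, t⟩, hk, ht⟩, hrt, he⟩ := hz q hq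
        exact ⟨r, hr, m_left (e_symm he) (m_elt x k (hrt.trans hk))⟩
      · refine RO.dense _ fun q hq => ?_
        obtain ⟨r, hr, ⟨⟨k, t⟩, hk, ht⟩, hrt, he⟩ := hz q hq
        exact ⟨r, hr, cong _ _ _ (e_symm he) (RO.mono _ hrt ht)⟩
  · rintro g hg z p ⟨h1, h2⟩
    exact ⟨m_right (h g hg.1 _).1 ((m_smul g).2 h1), h' g hg.2 i z p h2⟩

open Classical in
theorem exists_coll (a : Fm) (s : ℕ → SN P F) (i j : ℕ) (x : SN P F) :
    ∃ B : SN P F, ∀ z p, m z x p →
      (∃ y, lg.eval a (Function.update (Function.update s i z) j y) p) →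
      ∀ q ≤ p, ∃ r ≤ q, ∃ y, m y B r ∧
        lg.eval a (Function.update (Function.update s i z) j y) r := by
  let W : x.1.Idx → P → SN P F := fun k q =>
    if h : ∃ y, lg.eval a (Function.update (Function.update s i (x.elt k)) j y) q
    then h.choose else ck ∅
  have hW : ∀ k q, (∃ y, lg.eval a (Function.update (Function.update s i (x.elt k)) j y) q) →
      lg.eval a (Function.update (Function.update s i (x.elt k)) j (W k q)) q := by
    intro k q h
    simp only [W, dif_pos h]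
    exact h.choose_spec
  have cong : ∀ (z z' y : SN P F) (p : P), e z z' p →
      lg.eval a (Function.update (Function.update s i z) j y) p →
      lg.eval a (Function.update (Function.update s i z') j y) p := by
    intro z z' y p hzz h
    refine (adm.eval_congr a _ _ p fun k => ?_).1 h
    by_cases hkj : k = j
    · subst hkj; simpa using e_refl _ _
    · rw [Function.update_of_ne hkj, Function.update_of_ne hkj]
      by_cases hki : k = i
      · subst hki; simpa using hzz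
      · simpa [Function.update_of_ne hki] using e_refl _ _
  obtain ⟨B, hB⟩ := exists_mk (F := F) (x.1.Idx × P × G) (fun t => t.2.2 • W t.1 t.2.1)
    (fun _ => (⊤ : P)) (fun z p => ∀ q ≤ p, ∃ r ≤ q, ∃ t : x.1.Idx × P × G, r ≤ (⊤ : P) ∧
      e z (t.2.2 • W t.1 t.2.1) r) (fun z p => Iff.rfl) F.top (by
        intro g _ z p hz q hq
        obtain ⟨r, hr, ⟨k, t, h⟩, _, he⟩ := hz (g⁻¹ • q)
          ((smul_le_iff' g⁻¹).2 (by simpa using hq))
        refine ⟨g • r, (smul_le_iff' g).2 hr, (k, t, g * h), le_top, ?_⟩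
        have := (e_smul g).2 he
        rwa [smul_smul] at this)
  refine ⟨B, fun z p hz ⟨y, hy⟩ q hq => ?_⟩
  obtain ⟨r, hr, k, hk, he⟩ := hz q hq
  have h1 := hW k r ⟨y, cong _ _ _ _ he (RO.mono _ (hr.trans hq) hy)⟩
  refine ⟨r, hr, W k r, (hB _ _).2 fun q' hq' => ⟨q', le_rfl, (k, r, 1), le_top, ?_⟩,
    cong (x.elt k) z _ _ (e_symm (x := z) (y := x.elt k) he) h1⟩
  simpa using e_refl _ _

theorem m_ck (x : PSet.{0}) (w : SN P F) (t : P) : m w (ck x) t ↔
    ∀ q ≤ t, ∃ r ≤ q, ∃ i : x.Type, e w (ck (x.Func i)) r := by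
  cases x with
  | mk ι x =>
    constructor
    · intro h q hq
      obtain ⟨r, hr, i, _, h⟩ := h q hq
      exact ⟨r, hr, i, h⟩
    · intro h q hq
      obtain ⟨r, hr, i, h⟩ := h q hq
      exact ⟨r, hr, i, le_top, h⟩

theorem m_ck_insert (x y : PSet.{0}) (w : SN P F) (t : P) : m w (ck (insert x y)) t ↔
    ∀ q ≤ t, ∃ r ≤ q, m w (ck y) r ∨ e w (ck x) r := by
  rw [m_ck]
  refine forall_congr' fun q => forall_congr' fun hq => ?_
  constructor
  · rintro ⟨r, hr, i, h⟩
    cases y with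
    | mk κ y =>
      cases i with
      | none => exact ⟨r, hr, Or.inr h⟩
      | some i =>
        refine ⟨r, hr, Or.inl ((m_ck _ _ _).2 fun q hq => ⟨q, le_rfl, i, RO.mono _ hq h⟩)⟩
  · rintro ⟨r, hr, h | h⟩
    · obtain ⟨s, hs, i, h⟩ := (m_ck _ _ _).1 h r le_rfl
      cases y with
      | mk κ y => exact ⟨s, hs.trans hr, some i, h⟩
    · cases y with
      | mk κ y => exact ⟨r, hr, none, h⟩

theorem exists_omega : ∃ x : SN P F, (∀ p, ∃ z, m z x p ∧ ∀ w, ∀ q ≤ p, ¬ m w z q) ∧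
    ∀ y p, m y x p → ∀ q ≤ p, ∃ r ≤ q, ∃ z, m z x r ∧
      ∀ w, ∀ t ≤ r, (m w z t ↔ ∀ q ≤ t, ∃ r ≤ q, m w y r ∨ e w y r) := by
  refine ⟨ck PSet.omega, fun p => ⟨ck ∅, ?_, ?_⟩, fun y p hy q hq => ?_⟩
  · exact (m_ck _ _ _).2 fun q _ => ⟨q, le_rfl, ULift.up 0, e_refl _ _⟩
  · intro w q _ h
    obtain ⟨r, _, i, _⟩ := (m_ck _ _ _).1 h q le_rfl
    exact i.elim
  · obtain ⟨r, hr, n, he⟩ := (m_ck _ _ _).1 hy q hq
    have he' : e y (ck (PSet.ofNat n.down) : SN P F) r := he
    refine ⟨r, hr, ck (PSet.ofNat (n.down + 1)), ?_, fun w t ht => ?_⟩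
    · exact (m_ck _ _ _).2 fun q _ => ⟨q, le_rfl, ULift.up (n.down + 1), e_refl _ _⟩
    · rw [show PSet.ofNat (n.down + 1) = insert (PSet.ofNat n.down) (PSet.ofNat n.down) from rfl,
        m_ck_insert]
      refine forall_congr' fun q' => forall_congr' fun hq' => exists_congr fun s =>
        and_congr_right fun hs => ?_
      have h1 : e y (ck (PSet.ofNat n.down) : SN P F) s :=
        RO.mono _ (hs.trans (hq'.trans ht)) he'
      exact or_congr ⟨fun h => m_right (e_symm h1) h, fun h => m_right h1 h⟩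
        ⟨fun h => e_trans h (e_symm h1), fun h => e_trans h h1⟩

end SN

end Pool.Agent.SymExt
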